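import Pool.Agent.Helper59.UQ.Step

/-!
# UQ-APPROXFG: finitely generated algebras, number fields

(a) `approx_fg` PROOF. Induction on the finite set `T`: `Algebra.adjoin ℚ ∅ = ⊥`: every element is a rational number, take `φ` the inclusion (`Subalgebra.val`), algebraic values. `Algebra.adjoin ℚ (insert x T) = Algebra.adjoin ℚ {x} ⊔ Algebra.adjoin ℚ T` (`Algebra.adjoin_union`), `sup_comm`, `approx_step`.
(b) `exists_nf` PROOF. `A = ℚ[a_1, .., a_n]` (`Algebra.FiniteType`). `K := IntermediateField.adjoin ℚ {φ a_1, .., φ a_n} ⊆ ℚ_p` is finite dimensional (`IntermediateField.finiteDimensional_adjoin`, the generators are integral = algebraic), so a number field (`CharZero`, `NumberField.mk`). `φ` is a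
`ℚ`-algebra hom (`RingHom.toRatAlgHom` or `map_ratCast`-type), its range is `Algebra.adjoin ℚ (φ a_i) ≤ K`; `s := φ.codRestrict`, `j` the inclusion.
-/

set_option autoImplicit false

namespace Pool.Agent.Helper59.UQ

theorem approx_fg {p : ℕ} [Fact p.Prime] (T : Finset ℚ_[p]) : Approx p (Algebra.adjoin ℚ (T : Set ℚ_[p])) := by
  classical
  induction T using Finset.induction_on with
  | empty =>
    intro F ε hε
    refine ⟨(Algebra.adjoin ℚ ((∅ : Finset ℚ_[p]) : Set ℚ_[p])).val.toRingHom, ?_, ?_⟩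
    · intro a
      have hbot : Algebra.adjoin ℚ ((∅ : Finset ℚ_[p]) : Set ℚ_[p]) ≤ ⊥ := by
        rw [Finset.coe_empty, Algebra.adjoin_empty]
      obtain ⟨q, hq⟩ := Algebra.mem_bot.1 (hbot a.2)
      change IsAlgebraic ℚ (a : ℚ_[p])
      rw [← hq]
      exact isAlgebraic_algebraMap q
    · intro a _
      change ‖(a : ℚ_[p]) - a‖ < ε
      rw [sub_self, norm_zero]
      exact hε
  | insert x T _ ih =>
    have h := approx_step (Algebra.adjoin ℚ (T : Set ℚ_[p])) ih x
    rw [Finset.coe_insert, Set.insert_eq, Algebra.adjoin_union, sup_comm]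
    exact h

theorem exists_nf {p : ℕ} [Fact p.Prime] {A : Type*} [CommRing A] [Algebra ℚ A] [Algebra.FiniteType ℚ A]
    (φ : A →+* ℚ_[p]) (halg : ∀ a, IsAlgebraic ℚ (φ a)) :
    ∃ (K : Type) (_ : Field K) (_ : NumberField K) (s : A →+* K) (j : K →+* ℚ_[p]), ∀ a, j (s a) = φ a := by
  classical
  obtain ⟨S, hS⟩ := Algebra.FiniteType.out (R := ℚ) (A := A)
  let φ' : A →ₐ[ℚ] ℚ_[p] := φ.toRatAlgHom
  have hφ : ∀ a, φ' a = φ a := fun _ => rfl
  let K : IntermediateField ℚ ℚ_[p] := IntermediateField.adjoin ℚ (φ' '' (S : Set A))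
  have hfin : FiniteDimensional ℚ K := by
    have hf : (φ' '' (S : Set A)).Finite := S.finite_toSet.image _
    have h1 : Finite (φ' '' (S : Set A)) := hf.to_subtype
    refine IntermediateField.finiteDimensional_adjoin ?_
    rintro _ ⟨a, _, rfl⟩
    exact (halg a).isIntegral
  have hmem : ∀ a, φ' a ∈ K := by
    intro a
    have h1 : a ∈ Algebra.adjoin ℚ (S : Set A) := by
      rw [hS]
      exact Algebra.mem_top
    have h2 : φ' a ∈ (Algebra.adjoin ℚ (S : Set A)).map φ' := ⟨a, h1, rfl⟩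
    rw [AlgHom.map_adjoin] at h2
    exact IntermediateField.algebra_adjoin_le_adjoin ℚ _ h2
  have hnf : NumberField K := ⟨⟩
  exact ⟨K, inferInstance, hnf, (φ'.codRestrict K.toSubalgebra hmem).toRingHom,
    algebraMap K ℚ_[p], fun a => rfl⟩

end Pool.Agent.Helper59.UQ
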