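import Pool.Agent.Helper59.UQ.Contr

/-!
# UQ-ATTRSTEP: an orbit attracted by a cycle which it does not hit is infinite

`V_n = f^[n] v`, `f = hlift c`, `δ_k = ‖det2 V_{lk} P‖`, `ρ = ‖(p : ℚ_p)‖ < 1`.
(a) `infOrb_of_tail`: if `det2 V_m V_n = 0` then `V_n` is a nonzero multiple of `V_m` (both have norm one), so `V_{n+i}` is a nonzero multiple of `V_{m+i}` (`hlift_iter_smul`), in particular for `i = n₁`.
(b) `attr_step` PROOF. `f^l P = μ P` (`hfix`, `P ≠ 0`), `‖μ‖ = 1`: `‖f^l P‖ = 1` because `‖f^l P - f^l v‖ < 1` (`iter_near`) and `‖V_l‖ = 1`. `‖V_{lk} - P‖ < 1` for all `k` (`iter_near` from `hcl`, `hPv`), so `δ_{k+1} = ‖det2 (f^l V_{lk}) (f^l P)‖ ≤ ρ δ_k` (`contr`; the Jacobian condition at `P` from `hj` by `jac_near`).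
Claim: `δ_k ≠ 0` for all `k`. Induction; for `k ≤ k₁` it is `hne`. Let `k ≥ k₁`, `δ_k ≠ 0`; `δ_k ≤ δ_{k₁} < η` . As `det2 P w` is a unit, `V_{lk} = μ' (P + x w)` with `μ' = det2 V_{lk} w / det2 P w`, of norm `1` (`det2 V_{lk} w ≡ det2 P w`), and `‖x‖ = ‖det2 P V_{lk}‖ = δ_k` (Cramer: `V det2 P w = P det2 V w + w det2 P V`), so
`0 < ‖x‖ < η`, `hT`: `det2 P (f^l (P + x w)) ≠ 0`, and `V_{l(k+1)} = μ'^(d^l) f^l (P + x w)`, so `δ_{k+1} ≠ 0`.
Suppose `¬ InfOrb c v`: `V_n = μ V_m`-type relation with `m < n` as in (a), so `V_{lk + l N} ∼ V_{lk}` with a factor of norm one, for `k = m`, `N = n - m > 0` (see the header of `NonAttr.lean`). So `δ_{k+N} = δ_k`, but `δ_{k+N} ≤ ρ^N δ_k < δ_k`. Contradiction.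
-/

set_option autoImplicit false

namespace Pool.Agent.Helper59.UQ

open Pool.Agent.Helper59.DML

private theorem exists_unit {K : Type*} [NormedField K] {a b : Fin 2 → K} (ha : ‖a‖ = 1) (hb : ‖b‖ = 1)
    (h : det2 a b = 0) : ∃ μ : K, ‖μ‖ = 1 ∧ b = fun k => μ * a k := by
  have hne : a 0 ≠ 0 ∨ a 1 ≠ 0 := by
    by_contra hcon
    push Not at hcon
    have h0 : a = 0 := by
      funext k
      fin_cases k
      · exact hcon.1
      · exact hcon.2
    rw [h0, norm_zero] at ha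
    exact zero_ne_one ha
  have key : ∃ μ : K, b = fun k => μ * a k := by
    simp only [det2] at h
    rcases hne with h0 | h1
    · refine ⟨b 0 / a 0, ?_⟩
      funext k
      fin_cases k
      · simp only [Fin.zero_eta]
        field_simp
      · simp only [Fin.mk_one]
        field_simp
        linear_combination h
    · refine ⟨b 1 / a 1, ?_⟩
      funext k
      fin_cases k
      · simp only [Fin.zero_eta]
        field_simp
        linear_combination -h
      · simp only [Fin.mk_one]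
        field_simp
  obtain ⟨μ, hμ⟩ := key
  refine ⟨μ, ?_, hμ⟩
  have h2 : b = μ • a := hμ
  rw [h2, norm_smul, ha, mul_one] at hb
  exact hb

private theorem det2_smul_right {K : Type*} [CommRing K] (a b : Fin 2 → K) (μ : K) :
    det2 a (fun k => μ * b k) = μ * det2 a b := by
  simp only [det2]; ring

private theorem det2_smul_left {K : Type*} [CommRing K] (a b : Fin 2 → K) (μ : K) :
    det2 (fun k => μ * a k) b = μ * det2 a b := by
  simp only [det2]; ring

private theorem det2_self {K : Type*} [CommRing K] (a : Fin 2 → K) : det2 a a = 0 := by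
  simp only [det2]; ring

private theorem det2_anti {K : Type*} [CommRing K] (a b : Fin 2 → K) : det2 a b = - det2 b a := by
  simp only [det2]; ring

theorem infOrb_of_tail {K : Type*} [NormedField K] {d : ℕ} {c : Fin 2 → Fin (d + 1) → K} {v : Fin 2 → K}
    (hv : ∀ n, ‖(hlift c)^[n] v‖ = 1) {n₁ : ℕ} (h : InfOrb c ((hlift c)^[n₁] v)) : InfOrb c v := by
  intro m n hmn h0
  apply h m n hmn
  obtain ⟨μ, hμ, he⟩ := exists_unit (hv m) (hv n) h0
  have e1 : ∀ i, (hlift c)^[i] ((hlift c)^[n₁] v) = (hlift c)^[n₁] ((hlift c)^[i] v) := by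
    intro i
    rw [← Function.iterate_add_apply, ← Function.iterate_add_apply, Nat.add_comm]
  rw [e1 m, e1 n, he, hlift_iter_smul, det2_smul_right, det2_self, mul_zero]

section
variable {K : Type*} [NormedField K] [IsUltrametricDist K] {d : ℕ}

private theorem iter_near_lt {c : Fin 2 → Fin (d + 1) → K} (hc : ∀ k j, ‖c k j‖ ≤ 1)
    {v v' : Fin 2 → K} (hv : ∀ k, ‖v k‖ ≤ 1) (hv' : ∀ k, ‖v' k‖ ≤ 1)
    (h2 : ∀ k, ‖v' k - v k‖ < 1) (n : ℕ) (k : Fin 2) :
    ‖(hlift c)^[n] v' k - (hlift c)^[n] v k‖ < 1 := by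
  have h3 : max ‖v' 0 - v 0‖ ‖v' 1 - v 1‖ < 1 := max_lt (h2 0) (h2 1)
  refine lt_of_le_of_lt (iter_near hc hc hv hv' (r := max ‖v' 0 - v 0‖ ‖v' 1 - v 1‖) ?_ ?_ n k) h3
  · intro k j
    rw [sub_self, norm_zero]
    exact le_max_of_le_left (norm_nonneg _)
  · intro k
    fin_cases k
    · exact le_max_left _ _
    · exact le_max_right _ _

private theorem jac_near_lt {c : Fin 2 → Fin (d + 1) → K} (hc : ∀ k j, ‖c k j‖ ≤ 1)
    {v v' : Fin 2 → K} (hv : ∀ k, ‖v k‖ ≤ 1) (hv' : ∀ k, ‖v' k‖ ≤ 1)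
    (h2 : ∀ k, ‖v' k - v k‖ < 1) (hj : ‖jac c v‖ < 1) : ‖jac c v'‖ < 1 := by
  have h3 : max ‖v' 0 - v 0‖ ‖v' 1 - v 1‖ < 1 := max_lt (h2 0) (h2 1)
  have h4 : ‖jac c v' - jac c v‖ < 1 := by
    refine lt_of_le_of_lt (jac_near hc hc hv hv' (r := max ‖v' 0 - v 0‖ ‖v' 1 - v 1‖) ?_ ?_) h3
    · intro k j
      rw [sub_self, norm_zero]
      exact le_max_of_le_left (norm_nonneg _)
    · intro k
      fin_cases k
      · exact le_max_left _ _
      · exact le_max_right _ _
  have h5 : jac c v' = (jac c v' - jac c v) + jac c v := by ring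
  rw [h5]
  exact lt_of_le_of_lt (IsUltrametricDist.norm_add_le_max _ _) (max_lt h4 hj)

private theorem norm_eq_one_of_near {a b : Fin 2 → K} (hb : ‖b‖ = 1) (h : ∀ k, ‖a k - b k‖ < 1) : ‖a‖ = 1 := by
  have h1 : ‖a - b‖ < 1 := by
    rw [pi_norm_lt_iff one_pos]
    intro k
    exact h k
  apply le_antisymm
  · rw [pi_norm_le_iff_of_nonneg zero_le_one]
    intro k
    have h5 : a k = (a k - b k) + b k := by ring
    rw [h5]
    refine le_trans (IsUltrametricDist.norm_add_le_max _ _) (max_le (h k).le ?_)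
    rw [← hb]
    exact norm_le_pi_norm b k
  · by_contra hlt
    push Not at hlt
    have h2 : ‖b‖ < 1 := by
      rw [pi_norm_lt_iff one_pos]
      intro k
      have h5 : b k = - (a k - b k) + a k := by ring
      rw [h5]
      refine lt_of_le_of_lt (IsUltrametricDist.norm_add_le_max _ _) (max_lt ?_ ?_)
      · rw [norm_neg]; exact h k
      · exact lt_of_le_of_lt (norm_le_pi_norm a k) hlt
    rw [hb] at h2
    exact lt_irrefl _ h2

end

theorem attr_step {p : ℕ} [Fact p.Prime] {d : ℕ} {c : Fin 2 → Fin (d + 1) → ℚ_[p]} (hc : ∀ k j, ‖c k j‖ ≤ 1)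
    {v : Fin 2 → ℚ_[p]} (hv : ∀ n, ‖(hlift c)^[n] v‖ = 1) {l : ℕ} (hcl : ∀ k, ‖(hlift c)^[l] v k - v k‖ < 1)
    (hj : ∃ m < l, ‖jac c ((hlift c)^[m] v)‖ < 1) {P : Fin 2 → ℚ_[p]} (hP : ‖P‖ = 1)
    (hPv : ∀ k, ‖P k - v k‖ < 1) (hfix : det2 P ((hlift c)^[l] P) = 0) {w : Fin 2 → ℚ_[p]}
    (hw : ∀ k, ‖w k‖ ≤ 1) (hPw : ‖det2 P w‖ = 1) {η : ℝ}
    (hT : ∀ x : ℚ_[p], x ≠ 0 → ‖x‖ < η → det2 P ((hlift c)^[l] (fun k => P k + x * w k)) ≠ 0) {k₁ : ℕ}
    (hk : ‖det2 ((hlift c)^[l * k₁] v) P‖ < η) (hne : ∀ k ≤ k₁, det2 ((hlift c)^[l * k] v) P ≠ 0) :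
    InfOrb c v := by
  have hl : 0 < l := by
    obtain ⟨m, hm, _⟩ := hj
    omega
  have hP1 : ∀ k, ‖P k‖ ≤ 1 := fun k => hP ▸ norm_le_pi_norm P k
  have hV1 : ∀ n k, ‖(hlift c)^[n] v k‖ ≤ 1 := fun n k => hv n ▸ norm_le_pi_norm _ k
  have hv0 : ∀ k, ‖v k‖ ≤ 1 := fun k => hV1 0 k
  -- the point `P` is fixed
  have hflP : ‖(hlift c)^[l] P‖ = 1 := norm_eq_one_of_near (hv l) (iter_near_lt hc hv0 hP1 hPv l)
  obtain ⟨μ, hμ, hμP⟩ := exists_unit hP hflP hfix
  -- `V_{lk}` is close to `v` and `P`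
  have hclose : ∀ k j, ‖(hlift c)^[l * k] v j - v j‖ < 1 := by
    intro k
    induction k with
    | zero => intro j; simp
    | succ k ih =>
      intro j
      have e1 : (hlift c)^[l * (k + 1)] v = (hlift c)^[l] ((hlift c)^[l * k] v) := by
        rw [← Function.iterate_add_apply]; congr 1; ring
      rw [e1]
      have h1 := iter_near_lt hc hv0 (hV1 (l * k)) ih l j
      have h5 : (hlift c)^[l] ((hlift c)^[l * k] v) j - v j =
        ((hlift c)^[l] ((hlift c)^[l * k] v) j - (hlift c)^[l] v j) + ((hlift c)^[l] v j - v j) := by ring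
      rw [h5]
      exact lt_of_le_of_lt (IsUltrametricDist.norm_add_le_max _ _) (max_lt h1 (hcl j))
  have hcloseP : ∀ k j, ‖(hlift c)^[l * k] v j - P j‖ < 1 := by
    intro k j
    have h5 : (hlift c)^[l * k] v j - P j = ((hlift c)^[l * k] v j - v j) + - (P j - v j) := by ring
    rw [h5]
    refine lt_of_le_of_lt (IsUltrametricDist.norm_add_le_max _ _) (max_lt (hclose k j) ?_)
    rw [norm_neg]; exact hPv j
  have hjP : ∃ m < l, ‖jac c ((hlift c)^[m] P)‖ < 1 := by
    obtain ⟨m, hm, hm2⟩ := hj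
    exact ⟨m, hm, jac_near_lt hc (hV1 m) (iter_le_one hc hP1 m) (iter_near_lt hc hv0 hP1 hPv m) hm2⟩
  have estep : ∀ k, (hlift c)^[l * (k + 1)] v = (hlift c)^[l] ((hlift c)^[l * k] v) := by
    intro k
    rw [← Function.iterate_add_apply]; congr 1; ring
  have hρ : ‖(p : ℚ_[p])‖ < 1 := Padic.norm_p_lt_one
  have hstep : ∀ k, ‖det2 ((hlift c)^[l * (k + 1)] v) P‖ ≤ ‖(p : ℚ_[p])‖ * ‖det2 ((hlift c)^[l * k] v) P‖ := by
    intro k
    have h1 := contr hc (hV1 (l * k)) hP1 (hcloseP k) hjP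
    rw [hμP, det2_smul_right, norm_mul, hμ, one_mul, ← estep k] at h1
    exact h1
  have hstepN : ∀ N k, ‖det2 ((hlift c)^[l * (k + N)] v) P‖ ≤ ‖(p : ℚ_[p])‖ ^ N * ‖det2 ((hlift c)^[l * k] v) P‖ := by
    intro N k
    induction N with
    | zero => simp
    | succ N ih =>
      have h1 := hstep (k + N)
      rw [← Nat.add_assoc]
      refine h1.trans ?_
      rw [pow_succ, mul_comm (‖(p : ℚ_[p])‖ ^ N), mul_assoc]
      exact mul_le_mul_of_nonneg_left ih (norm_nonneg _)
  have hmono : ∀ k, k₁ ≤ k → ‖det2 ((hlift c)^[l * k] v) P‖ < η := by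
    intro k hk1
    obtain ⟨N, rfl⟩ := Nat.exists_eq_add_of_le hk1
    refine lt_of_le_of_lt (hstepN N k₁) (lt_of_le_of_lt ?_ hk)
    have : ‖(p : ℚ_[p])‖ ^ N ≤ 1 := pow_le_one₀ (norm_nonneg _) hρ.le
    calc ‖(p : ℚ_[p])‖ ^ N * ‖det2 ((hlift c)^[l * k₁] v) P‖ ≤ 1 * ‖det2 ((hlift c)^[l * k₁] v) P‖ :=
          mul_le_mul_of_nonneg_right this (norm_nonneg _)
      _ = _ := one_mul _
  -- all distances are nonzero
  have hnz : ∀ k, det2 ((hlift c)^[l * k] v) P ≠ 0 := by
    intro k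
    induction k with
    | zero => exact hne 0 (Nat.zero_le _)
    | succ k ih =>
      rcases Nat.lt_or_ge k k₁ with hlt | hge
      · exact hne (k + 1) hlt
      have hk2 := hmono k hge
      rw [estep k]
      generalize hVdef : (hlift c)^[l * k] v = V at *
      have hVc : ∀ j, ‖V j - P j‖ < 1 := by
        intro j
        have := hcloseP k j
        rw [hVdef] at this
        exact this
      have hVle : ∀ j, ‖V j‖ ≤ 1 := by
        intro j
        have := hV1 (l * k) j
        rw [hVdef] at this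
        exact this
      have hα : ‖det2 V w‖ = 1 := by
        have h1 : ‖det2 V w - det2 P w‖ < 1 := by
          have e : det2 V w - det2 P w = (V 0 - P 0) * w 1 + -((V 1 - P 1) * w 0) := by
            simp only [det2]; ring
          rw [e]
          refine lt_of_le_of_lt (IsUltrametricDist.norm_add_le_max _ _) (max_lt ?_ ?_)
          · rw [norm_mul]
            exact lt_of_le_of_lt (mul_le_of_le_one_right (norm_nonneg _) (hw 1)) (hVc 0)
          · rw [norm_neg, norm_mul]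
            exact lt_of_le_of_lt (mul_le_of_le_one_right (norm_nonneg _) (hw 0)) (hVc 1)
        have e : det2 V w = det2 P w + (det2 V w - det2 P w) := by ring
        rw [e]
        exact norm_add_eq_one hPw h1
      have hα0 : det2 V w ≠ 0 := by
        intro h0
        rw [h0, norm_zero] at hα
        exact zero_ne_one hα
      have hD0 : det2 P w ≠ 0 := by
        intro h0
        rw [h0, norm_zero] at hPw
        exact zero_ne_one hPw
      have hx0 : det2 P V / det2 V w ≠ 0 := by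
        apply div_ne_zero _ hα0
        rw [det2_anti]
        exact neg_ne_zero.mpr ih
      have hxη : ‖det2 P V / det2 V w‖ < η := by
        rw [norm_div, hα, div_one, det2_anti, norm_neg]
        exact hk2
      have hTx := hT _ hx0 hxη
      have hVe : V = fun j => (det2 V w / det2 P w) * (P j + (det2 P V / det2 V w) * w j) := by
        funext j
        fin_cases j
        · simp only [Fin.zero_eta]
          field_simp
          simp only [det2]
          ring
        · simp only [Fin.mk_one]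
          field_simp
          simp only [det2]
          ring
      have hfl : (hlift c)^[l] V = fun j => (det2 V w / det2 P w) ^ (d ^ l) *
          (hlift c)^[l] (fun j => P j + (det2 P V / det2 V w) * w j) j := by
        conv_lhs => rw [hVe]
        rw [hlift_iter_smul]
      rw [hfl, det2_smul_left]
      refine mul_ne_zero (pow_ne_zero _ (div_ne_zero hα0 hD0)) ?_
      rw [det2_anti]
      exact neg_ne_zero.mpr hTx
  -- the orbit is infinite
  have main : ∀ m n, m < n → det2 ((hlift c)^[m] v) ((hlift c)^[n] v) ≠ 0 := by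
    intro m n hmn h0
    obtain ⟨u, hu, hue⟩ := exists_unit (hv m) (hv n) h0
    obtain ⟨N, rfl⟩ := Nat.exists_eq_add_of_lt hmn
    have hrel : ∀ i, ∃ u : ℚ_[p], ‖u‖ = 1 ∧ (hlift c)^[(m + i) + (N + 1)] v = fun k => u * (hlift c)^[m + i] v k := by
      intro i
      refine ⟨u ^ (d ^ i), by rw [norm_pow, hu, one_pow], ?_⟩
      have e1 : (hlift c)^[(m + i) + (N + 1)] v = (hlift c)^[i] ((hlift c)^[m + N + 1] v) := by
        rw [← Function.iterate_add_apply]; congr 1; ring
      have e2 : (hlift c)^[m + i] v = (hlift c)^[i] ((hlift c)^[m] v) := by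
        rw [← Function.iterate_add_apply]; congr 1; ring
      rw [e1, e2, hue, hlift_iter_smul]
    have hrelr : ∀ r i, ∃ u : ℚ_[p], ‖u‖ = 1 ∧ (hlift c)^[(m + i) + (N + 1) * r] v = fun k => u * (hlift c)^[m + i] v k := by
      intro r i
      induction r with
      | zero => exact ⟨1, norm_one, by simp⟩
      | succ r ih =>
        obtain ⟨u1, hu1, h1⟩ := ih
        obtain ⟨u2, hu2, h2⟩ := hrel (i + (N + 1) * r)
        refine ⟨u2 * u1, by rw [norm_mul, hu1, hu2, one_mul], ?_⟩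
        have e1 : (m + i) + (N + 1) * (r + 1) = (m + (i + (N + 1) * r)) + (N + 1) := by ring
        have e2 : m + (i + (N + 1) * r) = (m + i) + (N + 1) * r := by ring
        rw [e1, h2, e2, h1]
        funext k
        ring
    obtain ⟨i, hi⟩ : ∃ i, m + i = l * m := ⟨l * m - m, by
      have : m ≤ l * m := Nat.le_mul_of_pos_left m hl
      omega⟩
    obtain ⟨u3, hu3, h3⟩ := hrelr l i
    rw [hi] at h3
    have e4 : l * m + (N + 1) * l = l * (m + (N + 1)) := by ring
    rw [e4] at h3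
    have h5 := hstepN (N + 1) m
    rw [h3, det2_smul_left, norm_mul, hu3, one_mul] at h5
    have h6 : 0 < ‖det2 ((hlift c)^[l * m] v) P‖ := norm_pos_iff.mpr (hnz m)
    have h7 : ‖(p : ℚ_[p])‖ ^ (N + 1) < 1 := pow_lt_one₀ (norm_nonneg _) hρ (Nat.succ_ne_zero N)
    have h8 : ‖(p : ℚ_[p])‖ ^ (N + 1) * ‖det2 ((hlift c)^[l * m] v) P‖ < ‖det2 ((hlift c)^[l * m] v) P‖ := by
      calc _ < 1 * ‖det2 ((hlift c)^[l * m] v) P‖ := mul_lt_mul_of_pos_right h7 h6
        _ = _ := one_mul _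
    exact absurd h5 (not_le.mpr h8)
  intro m n hmn
  rcases lt_or_gt_of_ne hmn with h | h
  · exact main m n h
  · intro h0
    apply main n m h
    rw [det2_anti, h0, neg_zero]

end Pool.Agent.Helper59.UQ
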