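import Pool.Agent.Helper59.PR.Hom
import Pool.Agent.Helper59.DX.DegX

/-!
# UQ-BIFORM: bihomogeneous values of a bivariate polynomial

`bv P v w` = the value at `(v, w) ∈ K^2 × K^2` of the bihomogenisation of `P` of bidegree `(degX P, natDegree P)` given as an explicit double sum over `i ≤ a`, `j ≤ b` with `a ≥ degX P`, `b ≥ natDegree P`: the coefficient of `X^i Y^j` is `(P.coeff j).coeff i`.
(a) `bv_map`: ring homomorphisms (`coeff_map`). (b) `bv_eq`: for `v.2 ≠ 0`, `w.2 ≠ 0`: `v.2^a w.2^b P(v.1 / v.2, w.1 / w.2)`; first `bv a b P (c x, c) (e y, e) = c^a e^b P.evalEval x y` (`Polynomial.eval_eq_sum_range'` twice). (c) `bv_eq_hm`: if `w.2 ≠ 0` (the second point is affine, `y = w.1 / w.2`), then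
`bv a b P v w = w.2^b * hm (evalRingHom y) a (Bivariate.swap P) v.1 v.2`: `coeff_swap` (`DX/DegX.lean`): `((swap P).coeff i).coeff j = (P.coeff j).coeff i`.
-/

set_option autoImplicit false

namespace Pool.Agent.Helper59.UQ

open Polynomial Pool.Agent.Helper59.DX Pool.Agent.Helper59.PR

/-- the value of the bihomogenisation. -/
noncomputable def bv {R : Type*} [CommRing R] (a b : ℕ) (P : R[X][X]) (v w : R × R) : R :=
  ∑ j ∈ Finset.range (b + 1), ∑ i ∈ Finset.range (a + 1),
    (P.coeff j).coeff i * v.1 ^ i * v.2 ^ (a - i) * w.1 ^ j * w.2 ^ (b - j)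

theorem bv_map {R S : Type*} [CommRing R] [CommRing S] (φ : R →+* S) (a b : ℕ) (P : R[X][X]) (v w : R × R) :
    bv a b (P.map (mapRingHom φ)) (φ v.1, φ v.2) (φ w.1, φ w.2) = φ (bv a b P v w) := by
  unfold bv
  rw [map_sum]
  refine Finset.sum_congr rfl fun j _ => ?_
  rw [map_sum]
  refine Finset.sum_congr rfl fun i _ => ?_
  rw [coeff_map, coe_mapRingHom, coeff_map]
  simp only [map_mul, map_pow]

theorem bv_affine {R : Type*} [CommRing R] {a b : ℕ} {P : R[X][X]} (ha : degX P ≤ a) (hb : P.natDegree ≤ b)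
    (c e x y : R) : bv a b P (c * x, c) (e * y, e) = c ^ a * e ^ b * P.evalEval x y := by
  unfold bv evalEval
  rw [eval_eq_sum_range' (Nat.lt_succ_of_le hb), eval_finsetSum, Finset.mul_sum]
  refine Finset.sum_congr rfl fun j hj => ?_
  rw [Finset.mem_range] at hj
  have h1 := (natDegree_coeff_le_degX P j).trans ha
  rw [eval_mul, eval_pow, eval_C, eval_eq_sum_range' (Nat.lt_succ_of_le h1), Finset.sum_mul,
    Finset.mul_sum]
  refine Finset.sum_congr rfl fun i hi => ?_
  rw [Finset.mem_range] at hi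
  have h2 : c ^ a = c ^ i * c ^ (a - i) := by
    rw [← pow_add]
    congr 1
    omega
  have h3 : e ^ b = e ^ j * e ^ (b - j) := by
    rw [← pow_add]
    congr 1
    omega
  rw [h2, h3]
  ring

theorem bv_eq_hm {K : Type*} [Field K] {a b : ℕ} {P : K[X][X]} (hb : P.natDegree ≤ b) (v w : K × K)
    (hw : w.2 ≠ 0) :
    bv a b P v w = w.2 ^ b * hm (evalRingHom (w.1 / w.2)) a (Bivariate.swap P) v.1 v.2 := by
  unfold bv hm
  rw [Finset.sum_comm, Finset.mul_sum]
  refine Finset.sum_congr rfl fun i _ => ?_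
  have h1 : ((Bivariate.swap P).coeff i).natDegree ≤ b := by
    refine (natDegree_coeff_le_degX (Bivariate.swap P) i).trans ?_
    rw [degX_swap]
    exact hb
  rw [coe_evalRingHom, eval_eq_sum_range' (Nat.lt_succ_of_le h1), Finset.sum_mul, Finset.sum_mul,
    Finset.mul_sum]
  refine Finset.sum_congr rfl fun j hj => ?_
  rw [Finset.mem_range] at hj
  rw [coeff_swap]
  have h3 : w.2 ^ b = w.2 ^ j * w.2 ^ (b - j) := by
    rw [← pow_add]
    congr 1
    omega
  have h4 : w.2 ^ j * (w.1 / w.2) ^ j = w.1 ^ j := by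
    rw [← mul_pow, mul_div_cancel₀ _ hw]
  rw [h3, ← h4]
  ring

end Pool.Agent.Helper59.UQ
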