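import Pool.Agent.Helper59.UQ.JQuot

/-!
# UQ-CONTR: contraction on a residue disc whose cycle contains a critical residue class

`ρ := ‖(p : ℚ_p)‖ = 1/p`; a norm `< 1` in `ℚ_p` is `≤ ρ` (`norm_lt_one_le`, prove it first: `Padic.norm_le_pow_iff_norm_lt_pow_add_one` with exponent `-1`, `Padic.norm_p`).
(a) `contr`: by `iter_near` (same `c`) `‖(f^i V - f^i P) k‖ < 1` for all `i`, i.e. `≤ ρ`. Each application of `f = hlift c` does not increase `‖det2‖` (`det2_hlift_le`), the `m`-th one multiplies it by at most `max ‖jac c (f^m P)‖ ρ ≤ ρ` (`det2_hlift_le_jac`). Formally: `‖det2 (f^m V) (f^m P)‖ ≤ ‖det2 V P‖`, `‖det2 (f^(m+1) V) (f^(m+1) P)‖ ≤ ρ ‖det2 V P‖`,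
then `f^[l] = f^[l-m-1] ∘ f^[m+1]`.
(b) `exists_limit`: `V_n = f^[n] v`. `hcl` and `iter_near`: `‖V_{l k} k' - v k'‖ < 1` and `‖V_{lk+i} - V_i‖ < 1` for all `k`, `i`; so the jacobians `‖jac c V_{lk+m}‖ < 1` too (`jac_near`). By (a) (with `V = V_{lk}`, `P = V_{l(k+1)}`; note `det2` antisymmetric) `‖det2 V_{lk} V_{l(k+1)}‖ ≤ ρ^(k+1)` (start: `‖det2 v V_l‖ < 1` because
`det2 v V_l = det2 v (V_l - v)`). Let `‖v a‖ = 1` for a coordinate `a` (exists, norm of the vector `v` is `1`), `b = 1 - a` the other one. `‖V_{lk} a‖ = 1`. `y_k := V_{lk} b / V_{lk} a`: `‖y_{k+1} - y_k‖ = ‖det2 V_{lk} V_{l(k+1)}‖ ≤ ρ^(k+1)`: Cauchy; `y := lim y_k`, `‖y - y_k‖ ≤ ρ^(k+1)` (ultrametric: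
`y - y_k` is the limit of `y_{k+s} - y_k`). `P` := the vector with `P a = v a`, `P b = v a * y`. `‖P‖ = 1`; `P b - v b = v a (y - y_0)`: norm `≤ ρ`. `‖det2 V_{lk} P‖ = ‖y - y_k‖`. Fixed point: `W_k := (v a) (1, y_k)` (in coordinates `a, b`), a multiple of `V_{lk}` by a unit, tends to `P`; `det2 W_k (f^l W_k)` has norm
`‖det2 V_{lk} V_{l(k+1)}‖ → 0`, and by continuity (or: `det2_near` + `iter_near` with `r = ρ^(k+1)`) tends to `det2 P (f^l P)`, so `‖det2 P (f^l P)‖ ≤ ρ^(k+1)` for all `k`, so it is `0`.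
-/

set_option autoImplicit false

namespace Pool.Agent.Helper59.UQ

open Pool.Agent.Helper59.DML

section

variable {p : ℕ} [Fact p.Prime]

private theorem le_rho {x : ℚ_[p]} (h : ‖x‖ < 1) : ‖x‖ ≤ ‖(p : ℚ_[p])‖ := by
  have h1 : ‖x‖ ≤ (p : ℝ) ^ (-1 : ℤ) := by
    rw [Padic.norm_le_pow_iff_norm_lt_pow_add_one]
    simpa using h
  rw [Padic.norm_p]
  simpa using h1

private theorem rho_lt : ‖(p : ℚ_[p])‖ < 1 := Padic.norm_p_lt_one

private theorem um {x y : ℚ_[p]} {r : ℝ} (hx : ‖x‖ ≤ r) (hy : ‖y‖ ≤ r) : ‖x + y‖ ≤ r :=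
  (IsUltrametricDist.norm_add_le_max x y).trans (max_le hx hy)

private theorem um_sub {x y z : ℚ_[p]} {r : ℝ} (hx : ‖x - y‖ ≤ r) (hy : ‖y - z‖ ≤ r) :
    ‖x - z‖ ≤ r := by
  have h := um hx hy
  rwa [sub_add_sub_cancel] at h

private theorem det_mono {d : ℕ} {c : Fin 2 → Fin (d + 1) → ℚ_[p]} (hc : ∀ k j, ‖c k j‖ ≤ 1)
    {V P : Fin 2 → ℚ_[p]} (hV : ∀ k, ‖V k‖ ≤ 1) (hP : ∀ k, ‖P k‖ ≤ 1) (n : ℕ) :
    ‖det2 ((hlift c)^[n] V) ((hlift c)^[n] P)‖ ≤ ‖det2 V P‖ := by
  induction n with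
  | zero => exact le_rfl
  | succ n ih =>
    rw [Function.iterate_succ_apply', Function.iterate_succ_apply']
    exact (det2_hlift_le hc (iter_le_one hc hV n) (iter_le_one hc hP n)).trans ih

private theorem det2_ab (a : Fin 2) (V W : Fin 2 → ℚ_[p]) :
    ‖det2 V W‖ = ‖V a * W (1 - a) - V (1 - a) * W a‖ := by
  fin_cases a
  · simp [det2]
  · simp only [det2, Fin.mk_one, sub_self]
    rw [← norm_neg]
    congr 1
    ring

private theorem two_cases (a j : Fin 2) : j = a ∨ j = 1 - a := by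
  fin_cases a <;> fin_cases j <;> simp

private theorem one_sub_ne (a : Fin 2) : (1 - a : Fin 2) ≠ a := by
  fin_cases a <;> simp

end

theorem contr {p : ℕ} [Fact p.Prime] {d : ℕ} {c : Fin 2 → Fin (d + 1) → ℚ_[p]} (hc : ∀ k j, ‖c k j‖ ≤ 1)
    {V P : Fin 2 → ℚ_[p]} (hV : ∀ k, ‖V k‖ ≤ 1) (hP : ∀ k, ‖P k‖ ≤ 1) (hVP : ∀ k, ‖V k - P k‖ < 1) {l : ℕ}
    (hj : ∃ m < l, ‖jac c ((hlift c)^[m] P)‖ < 1) :
    ‖det2 ((hlift c)^[l] V) ((hlift c)^[l] P)‖ ≤ ‖(p : ℚ_[p])‖ * ‖det2 V P‖ := by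
  obtain ⟨m, hm, hjm⟩ := hj
  have hVP' : ∀ k, ‖V k - P k‖ ≤ ‖(p : ℚ_[p])‖ := fun k => le_rho (hVP k)
  have h0 : ∀ k j, ‖c k j - c k j‖ ≤ ‖(p : ℚ_[p])‖ := fun k j => by
    rw [sub_self, norm_zero]; exact norm_nonneg _
  have hn := iter_near hc hc hP hV h0 hVP' m
  have h1 := det2_hlift_le_jac hc (iter_le_one hc hV m) (iter_le_one hc hP m) hn
  rw [max_eq_right (le_rho hjm)] at h1
  have h2 := det_mono hc hV hP m
  have h3 := det_mono hc (iter_le_one hc hV (m + 1)) (iter_le_one hc hP (m + 1)) (l - (m + 1))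
  rw [← Function.iterate_add_apply, ← Function.iterate_add_apply,
    Nat.sub_add_cancel (by omega : m + 1 ≤ l)] at h3
  rw [Function.iterate_succ_apply', Function.iterate_succ_apply'] at h3
  refine h3.trans (h1.trans ?_)
  rw [mul_comm]
  exact mul_le_mul_of_nonneg_left h2 (norm_nonneg _)

theorem exists_limit {p : ℕ} [Fact p.Prime] {d : ℕ} {c : Fin 2 → Fin (d + 1) → ℚ_[p]} (hc : ∀ k j, ‖c k j‖ ≤ 1)
    {v : Fin 2 → ℚ_[p]} (hv : ∀ n, ‖(hlift c)^[n] v‖ = 1) {l : ℕ} (hcl : ∀ k, ‖(hlift c)^[l] v k - v k‖ < 1)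
    (hj : ∃ m < l, ‖jac c ((hlift c)^[m] v)‖ < 1) :
    ∃ P : Fin 2 → ℚ_[p], ‖P‖ = 1 ∧ (∀ k, ‖P k - v k‖ < 1) ∧ det2 P ((hlift c)^[l] P) = 0 ∧
      ∀ k, ‖det2 ((hlift c)^[l * k] v) P‖ ≤ ‖(p : ℚ_[p])‖ ^ (k + 1) := by
  set ρ : ℝ := ‖(p : ℚ_[p])‖ with hρ
  have hρ0 : 0 ≤ ρ := norm_nonneg _
  have hρ1 : ρ < 1 := rho_lt
  set f := hlift c with hf
  have hv1 : ∀ n k, ‖f^[n] v k‖ ≤ 1 := fun n k => (hv n) ▸ norm_le_pi_norm (f^[n] v) k
  have hcc : ∀ r : ℝ, 0 ≤ r → ∀ k j, ‖c k j - c k j‖ ≤ r := fun r hr k j => by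
    rw [sub_self, norm_zero]; exact hr
  have hcl' : ∀ k, ‖f^[l] v k - v k‖ ≤ ρ := fun k => le_rho (hcl k)
  have hv0 : ∀ k, ‖v k‖ ≤ 1 := hv1 0
  -- the sequence stays in the residue disc
  have F1 : ∀ k j, ‖f^[l * k] v j - v j‖ ≤ ρ := by
    intro k
    induction k with
    | zero => intro j; rw [mul_zero, Function.iterate_zero_apply, sub_self, norm_zero]; exact hρ0
    | succ k ih =>
      intro j
      have h1 := iter_near hc hc hv0 (hv1 (l * k)) (hcc ρ hρ0) ih l j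
      rw [← hf, ← Function.iterate_add_apply, show l + l * k = l * (k + 1) by ring] at h1
      exact um_sub h1 (hcl' j)
  have hiter : ∀ k, f^[l * (k + 1)] v = f^[l] (f^[l * k] v) := fun k => by
    rw [← Function.iterate_add_apply, show l + l * k = l * (k + 1) by ring]
  -- the jacobians
  have hjk : ∀ k, ∃ m < l, ‖jac c (f^[m] (f^[l * k] v))‖ < 1 := by
    obtain ⟨m, hm, hjm⟩ := hj
    intro k
    refine ⟨m, hm, ?_⟩
    have h1 := iter_near hc hc hv0 (hv1 (l * k)) (hcc ρ hρ0) (F1 k) m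
    have h2 := jac_near hc hc (iter_le_one hc hv0 m) (iter_le_one hc (hv1 (l * k)) m) (hcc ρ hρ0) h1
    have h3 : jac c (f^[m] (f^[l * k] v)) =
        (jac c (f^[m] (f^[l * k] v)) - jac c (f^[m] v)) + jac c (f^[m] v) := by ring
    rw [h3]
    refine (IsUltrametricDist.norm_add_le_max _ _).trans_lt (max_lt ?_ hjm)
    exact h2.trans_lt hρ1
  -- distances of consecutive points
  have hD : ∀ k, ‖det2 (f^[l * k] v) (f^[l * (k + 1)] v)‖ ≤ ρ ^ (k + 1) := by
    intro k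
    induction k with
    | zero =>
      rw [mul_zero, Function.iterate_zero_apply, zero_add, mul_one, pow_one]
      have h1 : det2 v (f^[l] v) = v 0 * (f^[l] v 1 - v 1) + -(v 1 * (f^[l] v 0 - v 0)) := by
        simp only [det2]; ring
      rw [h1]
      refine um ?_ ?_
      · rw [norm_mul]
        exact (mul_le_mul (hv0 0) (hcl' 1) (norm_nonneg _) zero_le_one).trans (one_mul ρ).le
      · rw [norm_neg, norm_mul]
        exact (mul_le_mul (hv0 1) (hcl' 0) (norm_nonneg _) zero_le_one).trans (one_mul ρ).le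
    | succ k ih =>
      have h1 := contr hc (hv1 (l * k)) (hv1 (l * (k + 1))) (fun j => by
        have h2 := um_sub (F1 k j) (by rw [norm_sub_rev]; exact F1 (k + 1) j)
        exact h2.trans_lt hρ1) (hjk (k + 1))
      rw [← hf, ← hiter, ← hiter] at h1
      refine h1.trans ?_
      rw [pow_succ' ρ (k + 1)]
      exact mul_le_mul_of_nonneg_left ih hρ0
  -- a coordinate of norm one
  obtain ⟨a, ha⟩ : ∃ a, ‖v a‖ = 1 := by
    by_contra hcon
    push Not at hcon
    have h1 : ‖v‖ < 1 := by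
      rw [pi_norm_lt_iff one_pos]
      exact fun k => lt_of_le_of_ne (hv0 k) (hcon k)
    have h2 := hv 0
    rw [Function.iterate_zero_apply] at h2
    exact h1.ne h2
  have hab := one_sub_ne a
  set b : Fin 2 := 1 - a with hb
  have hva0 : v a ≠ 0 := fun h => by rw [h, norm_zero] at ha; exact zero_ne_one ha
  have hVa : ∀ k, ‖f^[l * k] v a‖ = 1 := by
    intro k
    have h1 : ‖f^[l * k] v a - v a‖ < ‖v a‖ := by rw [ha]; exact (F1 k a).trans_lt hρ1
    have h2 : f^[l * k] v a = (f^[l * k] v a - v a) + v a := by ring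
    rw [h2, IsUltrametricDist.norm_add_eq_max_of_norm_ne_norm h1.ne, max_eq_right h1.le, ha]
  have hVa0 : ∀ k, f^[l * k] v a ≠ 0 := fun k h => by
    have h1 := hVa k
    rw [h, norm_zero] at h1
    exact zero_ne_one h1
  set y : ℕ → ℚ_[p] := fun k => f^[l * k] v b / f^[l * k] v a with hy
  have hyk : ∀ k, ‖y (k + 1) - y k‖ ≤ ρ ^ (k + 1) := by
    intro k
    have h1 : y (k + 1) - y k = (f^[l * k] v a * f^[l * (k + 1)] v b -
        f^[l * k] v b * f^[l * (k + 1)] v a) / (f^[l * (k + 1)] v a * f^[l * k] v a) := by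
      have h2 := hVa0 k
      have h3 := hVa0 (k + 1)
      simp only [hy]
      field_simp
    rw [h1, norm_div, norm_mul, hVa, hVa, mul_one, div_one, ← det2_ab a]
    exact hD k
  have hyc : CauchySeq y := by
    refine cauchySeq_of_le_geometric ρ ρ hρ1 fun n => ?_
    rw [dist_eq_norm, norm_sub_rev, ← pow_succ']
    exact hyk n
  obtain ⟨z, hz⟩ := cauchySeq_tendsto_of_complete hyc
  have hys : ∀ k s, ‖y (s + k) - y k‖ ≤ ρ ^ (k + 1) := by
    intro k s
    induction s with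
    | zero => rw [zero_add, sub_self, norm_zero]; exact pow_nonneg hρ0 _
    | succ s ih =>
      refine um_sub (y := y (s + k)) ?_ ih
      rw [show s + 1 + k = (s + k) + 1 by ring]
      exact (hyk (s + k)).trans (pow_le_pow_of_le_one hρ0 hρ1.le (by omega))
  have hzk : ∀ k, ‖z - y k‖ ≤ ρ ^ (k + 1) := by
    intro k
    have h1 : Filter.Tendsto (fun s => ‖y (s + k) - y k‖) Filter.atTop (nhds ‖z - y k‖) :=
      (((Filter.tendsto_add_atTop_iff_nat k).2 hz).sub tendsto_const_nhds).norm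
    exact le_of_tendsto' h1 (hys k)
  -- the point
  set P : Fin 2 → ℚ_[p] := fun j => if j = a then v a else v a * z with hP
  have hPa : P a = v a := by rw [hP]; exact if_pos rfl
  have hPb : P b = v a * z := by rw [hP]; exact if_neg hab
  have hPv : ∀ k, ‖P k - v k‖ ≤ ρ := by
    intro k
    rcases two_cases a k with h | h
    · rw [h, hPa, sub_self, norm_zero]; exact hρ0
    · rw [h, ← hb, hPb]
      have h1 : v a * z - v b = v a * (z - y 0) := by
        simp only [hy, mul_zero, Function.iterate_zero_apply]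
        field_simp
      rw [h1, norm_mul, ha, one_mul]
      have h2 := hzk 0
      rwa [zero_add, pow_one] at h2
  have hP1 : ∀ k, ‖P k‖ ≤ 1 := by
    intro k
    have h1 : P k = (P k - v k) + v k := by ring
    rw [h1]
    exact um ((hPv k).trans hρ1.le) (hv0 k)
  refine ⟨P, ?_, fun k => (hPv k).trans_lt hρ1, ?_, ?_⟩
  · refine le_antisymm ((pi_norm_le_iff_of_nonneg zero_le_one).2 hP1) ?_
    rw [← ha, ← hPa]
    exact norm_le_pi_norm P a
  · -- the limit is periodic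
    have hW : ∀ k, ‖det2 P (f^[l] P)‖ ≤ ρ ^ (k + 1) := by
      intro k
      have hr : 0 ≤ ρ ^ (k + 1) := pow_nonneg hρ0 _
      set t : ℚ_[p] := v a / f^[l * k] v a with ht
      have ht1 : ‖t‖ = 1 := by rw [ht, norm_div, ha, hVa, div_one]
      set W : Fin 2 → ℚ_[p] := fun j => t * f^[l * k] v j with hWd
      have hW1 : ∀ j, ‖W j‖ ≤ 1 := fun j => by
        rw [hWd]
        simp only
        rw [norm_mul, ht1, one_mul]
        exact hv1 _ _
      have hWP : ∀ j, ‖P j - W j‖ ≤ ρ ^ (k + 1) := by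
        intro j
        rcases two_cases a j with h | h
        · have h1 : P j - W j = 0 := by
            rw [h, hPa, hWd, ht]
            simp only
            rw [div_mul_cancel₀ _ (hVa0 k), sub_self]
          rw [h1, norm_zero]; exact hr
        · have h1 : P j - W j = v a * (z - y k) := by
            rw [h, ← hb, hPb, hWd, ht, hy]
            simp only
            have h2 := hVa0 k
            field_simp
          rw [h1, norm_mul, ha, one_mul]
          exact hzk k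
      have h1 := iter_near hc hc hW1 hP1 (hcc _ hr) hWP l
      have h2 := det2_near hW1 hP1 (iter_le_one hc hW1 l) (iter_le_one hc hP1 l) hWP h1
      have h3 : det2 W (f^[l] W) = t * t ^ (d ^ l) * det2 (f^[l * k] v) (f^[l * (k + 1)] v) := by
        rw [hWd, hf, hlift_iter_smul, ← hf, ← hiter]
        simp only [det2]
        ring
      have h4 : ‖det2 W (f^[l] W)‖ ≤ ρ ^ (k + 1) := by
        rw [h3, norm_mul, norm_mul, norm_pow, ht1, one_pow, one_mul, one_mul]
        exact hD k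
      have h5 : det2 P (f^[l] P) = (det2 P (f^[l] P) - det2 W (f^[l] W)) + det2 W (f^[l] W) := by
        ring
      rw [h5]
      exact um h2 h4
    have h1 : Filter.Tendsto (fun k : ℕ => ρ ^ (k + 1)) Filter.atTop (nhds 0) :=
      (Filter.tendsto_add_atTop_iff_nat 1).2 (tendsto_pow_atTop_nhds_zero_of_lt_one hρ0 hρ1)
    have h2 : ‖det2 P (f^[l] P)‖ ≤ 0 := ge_of_tendsto' h1 hW
    exact norm_le_zero_iff.1 h2
  · intro k
    rw [det2_ab a, ← hb, hPa, hPb]
    have h1 : f^[l * k] v a * (v a * z) - f^[l * k] v b * v a =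
        f^[l * k] v a * v a * (z - y k) := by
      have h2 := hVa0 k
      simp only [hy]
      field_simp
    rw [h1, norm_mul, norm_mul, hVa, ha, one_mul, one_mul]
    exact hzk k

end Pool.Agent.Helper59.UQ
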