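import Pool.Agent.Helper59.UQ.Defs

/-!
# UQ-NEAR: close maps and close points (ultrametric estimates)

`K` an ultrametric normed field, all coefficients and coordinates of norm at most `1`, `r ≥ 0`. All statements follow from: if `‖a' - a‖ ≤ r`, `‖b' - b‖ ≤ r` and all of `a, a', b, b'` have norm `≤ 1`, then `‖(a' + b') - (a + b)‖ ≤ r` and `‖a' b' - a b‖ ≤ r` (`a'b' - ab = a'(b' - b) + (a' - a) b`), hence also for
powers, finite sums (`form`, `jac` are finite sums of products of coefficients, natural or integer numbers (norm at most one: `norm_natCast_le_one'`, `norm_intCast_le_one'` in `DML/Good.lean`) and powers of coordinates).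
`iter_near`: induction on `n`, `‖(hlift c)^[n] v k‖ ≤ 1` (`iter_le_one`).
-/

set_option autoImplicit false
set_option linter.unusedSectionVars false

namespace Pool.Agent.Helper59.UQ

open Pool.Agent.Helper59.DML

variable {K : Type*} [NormedField K] [IsUltrametricDist K] {d : ℕ}

/-- two elements of the unit ball at distance at most `r`. -/
private def Nr (r : ℝ) (a a' : K) : Prop := ‖a‖ ≤ 1 ∧ ‖a'‖ ≤ 1 ∧ ‖a' - a‖ ≤ r

private theorem Nr.refl {r : ℝ} (hr : 0 ≤ r) {a : K} (ha : ‖a‖ ≤ 1) : Nr r a a :=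
  ⟨ha, ha, by simpa using hr⟩

private theorem Nr.add {r : ℝ} {a a' b b' : K} (h : Nr r a a') (k : Nr r b b') : Nr r (a + b) (a' + b') := by
  refine ⟨norm_add_le_one h.1 k.1, norm_add_le_one h.2.1 k.2.1, ?_⟩
  have e : a' + b' - (a + b) = (a' - a) + (b' - b) := by ring
  rw [e]
  exact (IsUltrametricDist.norm_add_le_max _ _).trans (max_le h.2.2 k.2.2)

private theorem Nr.neg {r : ℝ} {a a' : K} (h : Nr r a a') : Nr r (-a) (-a') := by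
  refine ⟨by rw [norm_neg]; exact h.1, by rw [norm_neg]; exact h.2.1, ?_⟩
  have e : -a' - -a = -(a' - a) := by ring
  rw [e, norm_neg]
  exact h.2.2

private theorem Nr.sub {r : ℝ} {a a' b b' : K} (h : Nr r a a') (k : Nr r b b') : Nr r (a - b) (a' - b') := by
  rw [sub_eq_add_neg, sub_eq_add_neg]
  exact h.add k.neg

private theorem Nr.mul {r : ℝ} (hr : 0 ≤ r) {a a' b b' : K} (h : Nr r a a') (k : Nr r b b') :
    Nr r (a * b) (a' * b') := by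
  refine ⟨norm_mul_le_one h.1 k.1, norm_mul_le_one h.2.1 k.2.1, ?_⟩
  have e : a' * b' - a * b = a' * (b' - b) + (a' - a) * b := by ring
  rw [e]
  refine (IsUltrametricDist.norm_add_le_max _ _).trans (max_le ?_ ?_)
  · rw [norm_mul]
    calc ‖a'‖ * ‖b' - b‖ ≤ 1 * r := mul_le_mul h.2.1 k.2.2 (norm_nonneg _) zero_le_one
      _ = r := one_mul r
  · rw [norm_mul]
    calc ‖a' - a‖ * ‖b‖ ≤ r * 1 := mul_le_mul h.2.2 k.1 (norm_nonneg _) hr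
      _ = r := mul_one r

private theorem Nr.pow {r : ℝ} (hr : 0 ≤ r) {a a' : K} (h : Nr r a a') (n : ℕ) : Nr r (a ^ n) (a' ^ n) := by
  induction n with
  | zero => simpa using Nr.refl hr (a := (1 : K)) (by simp)
  | succ n ih => rw [pow_succ, pow_succ]; exact Nr.mul hr ih h

private theorem Nr.sum {r : ℝ} (hr : 0 ≤ r) {ι : Type*} (s : Finset ι) {f f' : ι → K} (h : ∀ i, Nr r (f i) (f' i)) :
    Nr r (∑ i ∈ s, f i) (∑ i ∈ s, f' i) := by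
  classical
  induction s using Finset.induction_on with
  | empty => simpa using Nr.refl hr (a := (0 : K)) (by simp)
  | insert i s hi ih => rw [Finset.sum_insert hi, Finset.sum_insert hi]; exact (h i).add ih

private theorem Nr.nat {r : ℝ} (hr : 0 ≤ r) (n : ℕ) : Nr r (n : K) (n : K) :=
  Nr.refl hr (norm_natCast_le_one' n)

private theorem Nr.form {r : ℝ} (hr : 0 ≤ r) {a a' : Fin (d + 1) → K} (h : ∀ i, Nr r (a i) (a' i))
    {v v' : Fin 2 → K} (hv : ∀ k, Nr r (v k) (v' k)) : Nr r (form a v) (form a' v') := by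
  unfold DML.form
  exact Nr.sum hr _ fun i => Nr.mul hr (Nr.mul hr (h i) (Nr.pow hr (hv 0) _)) (Nr.pow hr (hv 1) _)

private theorem Nr.iter {r : ℝ} (hr : 0 ≤ r) {c c' : Fin 2 → Fin (d + 1) → K} (h : ∀ k i, Nr r (c k i) (c' k i))
    {v v' : Fin 2 → K} (hv : ∀ k, Nr r (v k) (v' k)) (n : ℕ) (k : Fin 2) :
    Nr r ((hlift c)^[n] v k) ((hlift c')^[n] v' k) := by
  induction n generalizing k with
  | zero => exact hv k
  | succ n ih =>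
    rw [Function.iterate_succ_apply', Function.iterate_succ_apply']
    exact Nr.form hr (h k) ih

private theorem Nr.det2 {r : ℝ} (hr : 0 ≤ r) {v v' w w' : Fin 2 → K} (hv : ∀ k, Nr r (v k) (v' k))
    (hw : ∀ k, Nr r (w k) (w' k)) : Nr r (det2 v w) (det2 v' w') := by
  unfold DML.det2
  exact (Nr.mul hr (hv 0) (hw 1)).sub (Nr.mul hr (hv 1) (hw 0))

private theorem Nr.jac {r : ℝ} (hr : 0 ≤ r) {c c' : Fin 2 → Fin (d + 1) → K} (h : ∀ k i, Nr r (c k i) (c' k i))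
    {v v' : Fin 2 → K} (hv : ∀ k, Nr r (v k) (v' k)) : Nr r (jac c v) (jac c' v') := by
  unfold DML.jac
  exact Nr.sum hr _ fun i => Nr.sum hr _ fun j => Nr.mul hr
    (Nr.mul hr (Nr.mul hr (h 0 i) (h 1 j)) ((Nr.nat hr _).sub (Nr.nat hr _)))
    (Nr.mul hr (Nr.pow hr (hv 0) _) (Nr.pow hr (hv 1) _))

theorem iter_le_one {c : Fin 2 → Fin (d + 1) → K} (hc : ∀ k j, ‖c k j‖ ≤ 1) {v : Fin 2 → K} (hv : ∀ k, ‖v k‖ ≤ 1)
    (n : ℕ) (k : Fin 2) : ‖(hlift c)^[n] v k‖ ≤ 1 :=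
  (Nr.iter (r := 0) le_rfl (fun k i => Nr.refl le_rfl (hc k i)) (fun k => Nr.refl le_rfl (hv k)) n k).1

theorem det2_le_one {v w : Fin 2 → K} (hv : ∀ k, ‖v k‖ ≤ 1) (hw : ∀ k, ‖w k‖ ≤ 1) : ‖det2 v w‖ ≤ 1 :=
  (Nr.det2 (r := 0) le_rfl (fun k => Nr.refl le_rfl (hv k)) (fun k => Nr.refl le_rfl (hw k))).1

theorem jac_le_one {c : Fin 2 → Fin (d + 1) → K} (hc : ∀ k j, ‖c k j‖ ≤ 1) {v : Fin 2 → K} (hv : ∀ k, ‖v k‖ ≤ 1) :
    ‖jac c v‖ ≤ 1 :=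
  (Nr.jac (r := 0) le_rfl (fun k i => Nr.refl le_rfl (hc k i)) (fun k => Nr.refl le_rfl (hv k))).1

theorem iter_near {c c' : Fin 2 → Fin (d + 1) → K} (hc : ∀ k j, ‖c k j‖ ≤ 1) (hc' : ∀ k j, ‖c' k j‖ ≤ 1)
    {v v' : Fin 2 → K} (hv : ∀ k, ‖v k‖ ≤ 1) (hv' : ∀ k, ‖v' k‖ ≤ 1) {r : ℝ}
    (h1 : ∀ k j, ‖c' k j - c k j‖ ≤ r) (h2 : ∀ k, ‖v' k - v k‖ ≤ r) (n : ℕ) (k : Fin 2) :
    ‖(hlift c')^[n] v' k - (hlift c)^[n] v k‖ ≤ r :=
  (Nr.iter ((norm_nonneg _).trans (h2 0)) (fun k i => ⟨hc k i, hc' k i, h1 k i⟩)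
    (fun k => ⟨hv k, hv' k, h2 k⟩) n k).2.2

theorem det2_near {v v' w w' : Fin 2 → K} (hv : ∀ k, ‖v k‖ ≤ 1) (hv' : ∀ k, ‖v' k‖ ≤ 1) (hw : ∀ k, ‖w k‖ ≤ 1)
    (hw' : ∀ k, ‖w' k‖ ≤ 1) {r : ℝ} (h1 : ∀ k, ‖v' k - v k‖ ≤ r) (h2 : ∀ k, ‖w' k - w k‖ ≤ r) :
    ‖det2 v' w' - det2 v w‖ ≤ r :=
  (Nr.det2 ((norm_nonneg _).trans (h2 0)) (fun k => ⟨hv k, hv' k, h1 k⟩) (fun k => ⟨hw k, hw' k, h2 k⟩)).2.2

theorem jac_near {c c' : Fin 2 → Fin (d + 1) → K} (hc : ∀ k j, ‖c k j‖ ≤ 1) (hc' : ∀ k j, ‖c' k j‖ ≤ 1)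
    {v v' : Fin 2 → K} (hv : ∀ k, ‖v k‖ ≤ 1) (hv' : ∀ k, ‖v' k‖ ≤ 1) {r : ℝ}
    (h1 : ∀ k j, ‖c' k j - c k j‖ ≤ r) (h2 : ∀ k, ‖v' k - v k‖ ≤ r) :
    ‖jac c' v' - jac c v‖ ≤ r :=
  (Nr.jac ((norm_nonneg _).trans (h2 0)) (fun k i => ⟨hc k i, hc' k i, h1 k i⟩)
    (fun k => ⟨hv k, hv' k, h2 k⟩)).2.2

end Pool.Agent.Helper59.UQ
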