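import Pool.Agent.Helper59.PR.Hom
import Pool.Agent.Helper59.UQ.Near

/-!
# UQ-CONV: dictionary between `hlift c` (`DML`) and `lft D A B`, `vit D A B n` (`PR`); Bezout identities; good reduction

(a) `hlift_cf`: unfold `hlift`, `form`, `lft`, `hm`; `Finset.sum_range` turns the sum over `range (D + 1)` into a sum over `Fin (D + 1)`. `hlift_iter_cf`: induction on `n` (`Function.iterate_succ_apply'`, `vit_succ`). `infOrb_cf`: `det2` of the two vectors is `cross` of the two pairs.
(b) `exists_bez`: see the private lemmas `hRB_bez`, `hRB_bez2` in `Pool/Agent/Helper59/PR/HeightRB.lean` (copy them).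
(c) `prim_of_bez`: let `‖v‖ = 1`. Homogenisation of the identities (degree `2D - 1`): for all `x, y`: `hm (u) (D-1) x y * A_h(x, y) + hm (w) (D-1) x y * B_h(x, y) = y^(2D-1)` and the same with `x^(2D-1)` on the right hand side. Proof of the homogeneous identity: if `y ≠ 0` divide by
`y^(2D-1)` (`hm_eq` in `PR/Hom.lean`: `hm φ n p x y = y^n * p.eval₂ φ (x / y)` for `natDegree p ≤ n`) and evaluate the polynomial identity at `x / y`. If `y = 0` use `hm_zero_right` (only leading coefficients): the coefficient of `X^(2D-1)` in `u A + w B` is `u_{D-1} A_D + w_{D-1} B_D`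
(`Polynomial.coeff_mul_degree_add_degree`-type / `coeff_mul_of_natDegree_le`). `‖hm ..‖ ≤ 1` (`‖coefficients‖ ≤ 1`). One coordinate of `v` is a unit: if both `‖A_h(v)‖ < 1` and `‖B_h(v)‖ < 1` then the left hand sides have norm `< 1` but one of the right hand sides has norm `1`. So `‖hlift‖ ≥ 1`; `≤ 1` by `iter_le_one`.
-/

set_option autoImplicit false

namespace Pool.Agent.Helper59.UQ

open Polynomial Pool.Agent.Helper59.DML Pool.Agent.Helper59.DX Pool.Agent.Helper59.PR

/-- the coefficients of `A` and `B` as forms of degree `D`. -/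
def cf {R : Type*} [CommRing R] (D : ℕ) (A B : R[X]) : Fin 2 → Fin (D + 1) → R :=
  fun k j => if k = 0 then A.coeff j else B.coeff j

private theorem form_cf {R : Type*} [CommRing R] (D : ℕ) (P : R[X]) (v : Fin 2 → R) :
    form (fun j : Fin (D + 1) => P.coeff j) v = hm (RingHom.id R) D P (v 0) (v 1) := by
  unfold form hm
  rw [Finset.sum_range]
  rfl

theorem hlift_cf {R : Type*} [CommRing R] (D : ℕ) (A B : R[X]) (v : Fin 2 → R) :
    hlift (cf D A B) v = ![(lft D A B (v 0, v 1)).1, (lft D A B (v 0, v 1)).2] := by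
  funext k
  fin_cases k
  · exact form_cf D A v
  · exact form_cf D B v

theorem hlift_iter_cf {R : Type*} [CommRing R] (D : ℕ) (A B : R[X]) (n : ℕ) (v : Fin 2 → R) :
    (hlift (cf D A B))^[n] v = ![(vit D A B n (v 0, v 1)).1, (vit D A B n (v 0, v 1)).2] := by
  induction n with
  | zero =>
    funext k
    fin_cases k
    · rfl
    · rfl
  | succ n ih =>
    rw [Function.iterate_succ_apply', ih, hlift_cf, vit_succ]
    rfl

theorem infOrb_cf {R : Type*} [CommRing R] (D : ℕ) (A B : R[X]) (v : Fin 2 → R) :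
    InfOrb (cf D A B) v ↔ ∀ m n, m ≠ n → cross (vit D A B m (v 0, v 1)) (vit D A B n (v 0, v 1)) ≠ 0 := by
  have h : ∀ m n, det2 ((hlift (cf D A B))^[m] v) ((hlift (cf D A B))^[n] v) =
      cross (vit D A B m (v 0, v 1)) (vit D A B n (v 0, v 1)) := by
    intro m n
    rw [hlift_iter_cf, hlift_iter_cf]
    rfl
  unfold InfOrb
  constructor
  · intro H m n hmn
    rw [← h]
    exact H m n hmn
  · intro H m n hmn
    rw [h]
    exact H m n hmn

private theorem conv_bez {K : Type*} [Field K] {P Q : K[X]} (hcop : IsCoprime P Q) {D : ℕ} (hD : 1 ≤ D)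
    (hP : P.natDegree = D) (hQ : Q.natDegree ≤ D) {R : K[X]} (hR : R.natDegree ≤ 2 * D - 1) :
    ∃ u w : K[X], u.natDegree ≤ D - 1 ∧ w.natDegree ≤ D - 1 ∧ u * P + w * Q = R := by
  obtain ⟨a, b, hab⟩ := hcop
  have hP0 : P ≠ 0 := by
    rintro rfl
    simp at hP
    omega
  obtain ⟨w, hw⟩ : ∃ w, w = (b * R) % P := ⟨_, rfl⟩
  obtain ⟨u, hu⟩ : ∃ u, u = a * R + ((b * R) / P) * Q := ⟨_, rfl⟩
  have h0 : P * ((b * R) / P) + w = b * R := by
    rw [hw]
    exact EuclideanDomain.div_add_mod _ _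
  have h1 : u * P + w * Q = R := by
    rw [hu]
    linear_combination R * hab + Q * h0
  have hwd : w.natDegree ≤ D - 1 := by
    have h2 := Polynomial.natDegree_mod_lt (b * R) (q := P) (by omega)
    rw [← hw] at h2
    omega
  refine ⟨u, w, ?_, hwd, h1⟩
  by_contra hlt
  have hu0 : u ≠ 0 := by
    rintro rfl
    simp at hlt
  have h3 : (u * P).natDegree = u.natDegree + P.natDegree := Polynomial.natDegree_mul hu0 hP0
  have h4 : (w * Q).natDegree ≤ w.natDegree + Q.natDegree := Polynomial.natDegree_mul_le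
  have h5 : (w * Q).natDegree < (u * P).natDegree := by omega
  have h6 := Polynomial.natDegree_add_eq_left_of_natDegree_lt h5
  rw [h1] at h6
  omega

theorem exists_bez {E : Type*} [Field E] {A B : E[X]} (hcop : IsCoprime A B) {D : ℕ}
    (hD : max A.natDegree B.natDegree = D) (h1 : 1 ≤ D) {R : E[X]} (hR : R.natDegree ≤ 2 * D - 1) :
    ∃ u w : E[X], u.natDegree ≤ D - 1 ∧ w.natDegree ≤ D - 1 ∧ u * A + w * B = R := by
  rcases le_total B.natDegree A.natDegree with h | h
  · rw [max_eq_left h] at hD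
    exact conv_bez hcop h1 hD (by omega) hR
  · rw [max_eq_right h] at hD
    obtain ⟨u, w, a1, a2, a3⟩ := conv_bez hcop.symm h1 hD (by omega) hR
    exact ⟨w, u, a2, a1, by rw [add_comm]; exact a3⟩

private theorem hm_mul' {K : Type*} [Field K] {m n : ℕ} {p q : K[X]} (hp : p.natDegree ≤ m)
    (hq : q.natDegree ≤ n) (x y : K) :
    hm (RingHom.id K) m p x y * hm (RingHom.id K) n q x y =
      hm (RingHom.id K) (m + n) (p * q) x y := by
  by_cases hy : y = 0
  · subst hy
    rw [hm_zero_right, hm_zero_right, hm_zero_right, RingHom.id_apply, RingHom.id_apply,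
      RingHom.id_apply, Polynomial.coeff_mul_add_eq_of_natDegree_le hp hq, pow_add]
    ring
  · have hpq : (p * q).natDegree ≤ m + n := Polynomial.natDegree_mul_le_of_le hp hq
    rw [hm_eq _ hp x hy, hm_eq _ hq x hy, hm_eq _ hpq x hy, Polynomial.eval₂_mul, pow_add]
    ring

private theorem hm_add' {K : Type*} [Field K] (n : ℕ) (p q : K[X]) (x y : K) :
    hm (RingHom.id K) n (p + q) x y = hm (RingHom.id K) n p x y + hm (RingHom.id K) n q x y := by
  unfold hm
  rw [← Finset.sum_add_distrib]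
  refine Finset.sum_congr rfl fun j _ => ?_
  rw [Polynomial.coeff_add, map_add]
  ring

private theorem hm_one' {K : Type*} [Field K] (n : ℕ) (x y : K) :
    hm (RingHom.id K) n 1 x y = y ^ n := by
  unfold hm
  rw [Finset.sum_eq_single 0]
  · simp
  · intro j _ hj
    rw [Polynomial.coeff_one, if_neg hj]
    simp
  · intro h
    exact absurd (Finset.mem_range.2 (Nat.succ_pos n)) h

private theorem hm_X' {K : Type*} [Field K] (n : ℕ) (x y : K) :
    hm (RingHom.id K) n (X ^ n) x y = x ^ n := by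
  unfold hm
  rw [Finset.sum_eq_single n]
  · simp
  · intro j _ hj
    rw [Polynomial.coeff_X_pow, if_neg hj]
    simp
  · intro h
    exact absurd (Finset.mem_range.2 (Nat.lt_succ_self n)) h

private theorem norm_hm_le {K : Type*} [NormedField K] [IsUltrametricDist K] {n : ℕ} {p : K[X]}
    (hp : ∀ i, ‖p.coeff i‖ ≤ 1) {x y : K} (hx : ‖x‖ ≤ 1) (hy : ‖y‖ ≤ 1) :
    ‖hm (RingHom.id K) n p x y‖ ≤ 1 := by
  unfold hm
  refine IsUltrametricDist.norm_sum_le_of_forall_le_of_nonneg zero_le_one fun j _ => ?_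
  rw [norm_mul, norm_mul, norm_pow, norm_pow]
  have h1 : ‖p.coeff j‖ * ‖x‖ ^ j ≤ 1 :=
    mul_le_one₀ (hp j) (by positivity) (pow_le_one₀ (norm_nonneg _) hx)
  exact mul_le_one₀ h1 (by positivity) (pow_le_one₀ (norm_nonneg _) hy)

private theorem norm_lt_of {K : Type*} [NormedField K] [IsUltrametricDist K] {a b c d : K}
    (ha : ‖a‖ ≤ 1) (hc : ‖c‖ ≤ 1) (hb : ‖b‖ < 1) (hd : ‖d‖ < 1) : ‖a * b + c * d‖ < 1 := by
  refine lt_of_le_of_lt (IsUltrametricDist.norm_add_le_max _ _) (max_lt ?_ ?_)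
  · rw [norm_mul]
    exact lt_of_le_of_lt (mul_le_of_le_one_left (norm_nonneg _) ha) hb
  · rw [norm_mul]
    exact lt_of_le_of_lt (mul_le_of_le_one_left (norm_nonneg _) hc) hd

theorem prim_of_bez {K : Type*} [NormedField K] [IsUltrametricDist K] {A B u w u' w' : K[X]} {D : ℕ} (h1 : 1 ≤ D)
    (hAD : A.natDegree ≤ D) (hBD : B.natDegree ≤ D) (hA : ∀ i, ‖A.coeff i‖ ≤ 1) (hB : ∀ i, ‖B.coeff i‖ ≤ 1)
    (hu : ∀ i, ‖u.coeff i‖ ≤ 1) (hw : ∀ i, ‖w.coeff i‖ ≤ 1) (hu' : ∀ i, ‖u'.coeff i‖ ≤ 1) (hw' : ∀ i, ‖w'.coeff i‖ ≤ 1)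
    (du : u.natDegree ≤ D - 1) (dw : w.natDegree ≤ D - 1) (du' : u'.natDegree ≤ D - 1) (dw' : w'.natDegree ≤ D - 1)
    (e : u * A + w * B = 1) (e' : u' * A + w' * B = X ^ (2 * D - 1)) {v : Fin 2 → K} (hv : ‖v‖ = 1) (n : ℕ) :
    ‖(hlift (cf D A B))^[n] v‖ = 1 := by
  have hD : D - 1 + D = 2 * D - 1 := by omega
  have id1 : ∀ x y : K, hm (RingHom.id K) (D - 1) u x y * hm (RingHom.id K) D A x y +
      hm (RingHom.id K) (D - 1) w x y * hm (RingHom.id K) D B x y = y ^ (2 * D - 1) := by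
    intro x y
    rw [hm_mul' du hAD, hm_mul' dw hBD, ← hm_add', e, hm_one', hD]
  have id2 : ∀ x y : K, hm (RingHom.id K) (D - 1) u' x y * hm (RingHom.id K) D A x y +
      hm (RingHom.id K) (D - 1) w' x y * hm (RingHom.id K) D B x y = x ^ (2 * D - 1) := by
    intro x y
    rw [hm_mul' du' hAD, hm_mul' dw' hBD, ← hm_add', e', hD, hm_X']
  have key : ∀ v : Fin 2 → K, ‖v‖ = 1 → ‖hlift (cf D A B) v‖ = 1 := by
    intro v hv
    have hv0 : ‖v 0‖ ≤ 1 := hv ▸ norm_le_pi_norm v 0
    have hv1 : ‖v 1‖ ≤ 1 := hv ▸ norm_le_pi_norm v 1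
    have e0 : hlift (cf D A B) v 0 = hm (RingHom.id K) D A (v 0) (v 1) := form_cf D A v
    have e1 : hlift (cf D A B) v 1 = hm (RingHom.id K) D B (v 0) (v 1) := form_cf D B v
    apply le_antisymm
    · rw [pi_norm_le_iff_of_nonneg zero_le_one]
      intro k
      fin_cases k
      · show ‖hlift (cf D A B) v 0‖ ≤ 1
        rw [e0]
        exact norm_hm_le hA hv0 hv1
      · show ‖hlift (cf D A B) v 1‖ ≤ 1
        rw [e1]
        exact norm_hm_le hB hv0 hv1
    · by_contra hlt
      have hlt' : ‖hlift (cf D A B) v‖ < 1 := not_le.1 hlt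
      have a0 : ‖hm (RingHom.id K) D A (v 0) (v 1)‖ < 1 := by
        rw [← e0]
        exact lt_of_le_of_lt (norm_le_pi_norm _ 0) hlt'
      have a1 : ‖hm (RingHom.id K) D B (v 0) (v 1)‖ < 1 := by
        rw [← e1]
        exact lt_of_le_of_lt (norm_le_pi_norm _ 1) hlt'
      have b1 := norm_lt_of (norm_hm_le (n := D - 1) hu hv0 hv1) (norm_hm_le (n := D - 1) hw hv0 hv1) a0 a1
      have b2 := norm_lt_of (norm_hm_le (n := D - 1) hu' hv0 hv1) (norm_hm_le (n := D - 1) hw' hv0 hv1) a0 a1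
      rw [id1, norm_pow] at b1
      rw [id2, norm_pow] at b2
      have hne : 2 * D - 1 ≠ 0 := by omega
      have c1 : ‖v 1‖ < 1 := by
        by_contra h
        have h2 : ‖v 1‖ = 1 := le_antisymm hv1 (not_lt.1 h)
        rw [h2, one_pow] at b1
        exact lt_irrefl _ b1
      have c0 : ‖v 0‖ < 1 := by
        by_contra h
        have h2 : ‖v 0‖ = 1 := le_antisymm hv0 (not_lt.1 h)
        rw [h2, one_pow] at b2
        exact lt_irrefl _ b2
      have hlt2 : ‖v‖ < 1 := by
        rw [pi_norm_lt_iff zero_lt_one]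
        intro k
        fin_cases k
        · exact c0
        · exact c1
      rw [hv] at hlt2
      exact lt_irrefl _ hlt2
  induction n with
  | zero => exact hv
  | succ n ih =>
    rw [Function.iterate_succ_apply']
    exact key _ ih

end Pool.Agent.Helper59.UQ
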