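import Pool.Agent.Helper59.PR.PJBasic

/-!
# UQ-COORDD: affine coordinates for an orbit of a rational map, with the degree

The proof of `coord_rational` in `Pool/Agent/Helper59/PR/PJCoB.lean` (read it, copy it) with one more conclusion: `max A.natDegree B.natDegree = d`. There `A = aeval g G`, `B = aeval g F - t aeval g G`, `g = ![C t * X + 1, X]`, so for a form `H` of degree `d`, `aeval g H = ∑_{i + j = d} h_{ij} (t X + 1)^i X^j` has degree `≤ d`
(`MvPolynomial.aeval` of a homogeneous polynomial in polynomials of degree `≤ 1`: each monomial has degree `≤ d`) and the coefficient of `X^d` is `H(t, 1)` (`coeff` of `(tX+1)^i X^j` at `i + j` is `t^i`). So the coefficients of `X^d` in `A`, `B` are `G(t, 1)`, `F(t, 1) - t G(t, 1)`, which are not both zero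
(`h.nz ![t, 1]`).
-/

set_option autoImplicit false

namespace Pool.Agent.Helper59.UQ

open Polynomial Pool.Agent.Helper59.DX Pool.Agent.Helper59.DML Pool.Agent.Helper59.PR

private theorem aeval_deg {H : MvPolynomial (Fin 2) ℂ} {d : ℕ} (hH : H.IsHomogeneous d) (t : ℂ) :
    (MvPolynomial.aeval (![C t * X + 1, X] : Fin 2 → ℂ[X]) H).natDegree ≤ d ∧
      (MvPolynomial.aeval (![C t * X + 1, X] : Fin 2 → ℂ[X]) H).coeff d =
        MvPolynomial.eval ![t, 1] H := by
  have hlin : (C t * X + 1 : ℂ[X]).natDegree ≤ 1 := by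
    rw [← C_1]
    exact natDegree_linear_le
  have hc1 : (C t * X + 1 : ℂ[X]).coeff 1 = t := by
    simp [coeff_one]
  have hdeg : ∀ m ∈ H.support, m 0 + m 1 = d := by
    intro m hm
    by_contra hne
    have h1 : m.degree ≠ d := by
      rw [Finsupp.degree_eq_sum, Fin.sum_univ_two]
      exact hne
    exact (MvPolynomial.mem_support_iff.1 hm) (hH.coeff_eq_zero h1)
  rw [MvPolynomial.aeval_def, MvPolynomial.eval₂_eq', MvPolynomial.eval_eq']
  simp only [Fin.prod_univ_two]
  constructor
  · apply natDegree_sum_le_of_forall_le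
    intro m hm
    refine (natDegree_C_mul_le (MvPolynomial.coeff m H) _).trans ?_
    refine natDegree_mul_le.trans ?_
    have e1 : ((C t * X + 1 : ℂ[X]) ^ (m 0)).natDegree ≤ m 0 :=
      (natDegree_pow_le.trans (Nat.mul_le_mul_left _ hlin)).trans (mul_one _).le
    have e2 : ((X : ℂ[X]) ^ (m 1)).natDegree ≤ m 1 := natDegree_X_pow_le _
    have e3 := hdeg m hm
    exact (add_le_add e1 e2).trans e3.le
  · rw [finsetSum_coeff]
    refine Finset.sum_congr rfl fun m hm => ?_
    change (C (MvPolynomial.coeff m H) * ((C t * X + 1) ^ (m 0) * X ^ (m 1)) : ℂ[X]).coeff d =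
      MvPolynomial.coeff m H * (t ^ (m 0) * 1 ^ (m 1))
    rw [coeff_C_mul, ← hdeg m hm, coeff_mul_X_pow, one_pow, mul_one]
    have e1 := coeff_pow_of_natDegree_le (m := m 0) hlin
    rw [mul_one, hc1] at e1
    rw [e1]

theorem coord_rational_deg {F G : MvPolynomial (Fin 2) ℂ} {d : ℕ} (h : IsMap F G d) {b : Fin 2 → ℂ} (hb : b ≠ 0) :
    ∃ (z z' : Fin 2 → ℂ) (A B : ℂ[X]) (y : ℕ → ℂ), ¬ Par z z' ∧ IsCoprime A B ∧
      max A.natDegree B.natDegree = d ∧ IsOrb A B y ∧
      ∀ n, ∃ β : ℂ, β ≠ 0 ∧ (phi F G)^[n] b = β • (y n • z + z') := by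
  set c : ℕ → Fin 2 → ℂ := fun n => (phi F G)^[n] b with hc
  have hc0 : ∀ n, c n ≠ 0 := fun n => phi_iter_ne_zero h hb n
  obtain ⟨t, ht⟩ : ∃ t : ℂ, ∀ n, t ≠ c n 0 / c n 1 := by
    by_contra hcon
    push Not at hcon
    have h1 : (Set.univ : Set ℂ) ⊆ Set.range fun n => c n 0 / c n 1 := by
      intro t _
      obtain ⟨n, hn⟩ := hcon t
      exact ⟨n, hn.symm⟩
    exact not_countable_complex ((Set.countable_range _).mono h1)
  have hβ : ∀ n, c n 0 - t * c n 1 ≠ 0 := by
    intro n hn
    by_cases h1 : c n 1 = 0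
    · apply hc0 n
      rw [h1, mul_zero, sub_zero] at hn
      funext i
      fin_cases i
      · exact hn
      · exact h1
    · apply ht n
      rw [eq_div_iff h1]
      exact (sub_eq_zero.1 hn).symm
  set β : ℕ → ℂ := fun n => c n 0 - t * c n 1 with hβd
  set y : ℕ → ℂ := fun n => c n 1 / β n with hy
  set g : Fin 2 → ℂ[X] := ![C t * X + 1, X] with hg
  set A : ℂ[X] := MvPolynomial.aeval g G with hA
  set B : ℂ[X] := MvPolynomial.aeval g F - C t * MvPolynomial.aeval g G with hB
  have hev : ∀ (H : MvPolynomial (Fin 2) ℂ) (u : ℂ), (MvPolynomial.aeval g H).eval u =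
      MvPolynomial.eval (u • ![t, 1] + ![1, 0]) H := by
    intro H u
    have h1 : (Polynomial.evalRingHom u).comp (MvPolynomial.aeval g).toRingHom =
        (MvPolynomial.eval (u • ![t, 1] + ![1, 0]) : MvPolynomial (Fin 2) ℂ →+* ℂ) := by
      apply MvPolynomial.ringHom_ext
      · intro r
        simp
      · intro i
        fin_cases i
        · change (MvPolynomial.aeval g (MvPolynomial.X 0)).eval u =
            MvPolynomial.eval (u • ![t, 1] + ![1, 0]) (MvPolynomial.X 0)
          rw [MvPolynomial.aeval_X, MvPolynomial.eval_X]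
          change (C t * X + 1 : ℂ[X]).eval u = u * t + 1
          rw [Polynomial.eval_add, Polynomial.eval_mul, Polynomial.eval_C, Polynomial.eval_X,
            Polynomial.eval_one, mul_comm]
        · change (MvPolynomial.aeval g (MvPolynomial.X 1)).eval u =
            MvPolynomial.eval (u • ![t, 1] + ![1, 0]) (MvPolynomial.X 1)
          rw [MvPolynomial.aeval_X, MvPolynomial.eval_X]
          change (X : ℂ[X]).eval u = u * 1 + 0
          rw [Polynomial.eval_X, mul_one, add_zero]
    exact RingHom.congr_fun h1 H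
  have hAe : ∀ u, A.eval u = phi F G (u • ![t, 1] + ![1, 0]) 1 := by
    intro u
    rw [hA, hev]
    rfl
  have hBe : ∀ u, B.eval u = phi F G (u • ![t, 1] + ![1, 0]) 0 -
      t * phi F G (u • ![t, 1] + ![1, 0]) 1 := by
    intro u
    rw [hB, Polynomial.eval_sub, Polynomial.eval_mul, Polynomial.eval_C, hev, hev]
    rfl
  have hcn : ∀ n, c n = β n • (y n • ![t, 1] + ![1, 0]) := by
    intro n
    funext i
    have h1 : β n * y n = c n 1 := by
      rw [hy]
      exact mul_div_cancel₀ _ (hβ n)
    fin_cases i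
    · change c n 0 = β n * (y n * t + 1)
      have h2 : β n = c n 0 - t * c n 1 := rfl
      linear_combination (-t) * h1 + (-1 : ℂ) * h2
    · change c n 1 = β n * (y n * 1 + 0)
      linear_combination -h1
  have hstep : ∀ n, c (n + 1) = β n ^ d • phi F G (y n • ![t, 1] + ![1, 0]) := by
    intro n
    rw [← phi_smul h, ← hcn]
    exact Function.iterate_succ_apply' _ _ _
  refine ⟨![t, 1], ![1, 0], A, B, y, ?_, ?_, ?_, ?_, ?_⟩
  · intro hp
    have h1 : t * 0 = (1 : ℂ) * 1 := hp
    norm_num at h1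
  · rw [Polynomial.isCoprime_iff_aeval_ne_zero_of_isAlgClosed ℂ ℂ]
    intro u
    by_contra hcon
    push Not at hcon
    obtain ⟨h1, h2⟩ := hcon
    have h1' : A.eval u = 0 := by simpa using h1
    have h2' : B.eval u = 0 := by simpa using h2
    rw [hBe, ← hAe, h1', mul_zero, sub_zero] at h2'
    rw [hAe] at h1'
    have h3 := h.nz _ h2' h1'
    have h4 := congrFun h3 1
    have h5 := congrFun h3 0
    have h6 : u * 1 + 0 = (0 : ℂ) := h4
    have h7 : u * t + 1 = (0 : ℂ) := h5
    rw [add_zero, mul_one] at h6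
    rw [h6, zero_mul, zero_add] at h7
    exact one_ne_zero h7
  · obtain ⟨dG, cG⟩ := aeval_deg h.homG t
    obtain ⟨dF, cF⟩ := aeval_deg h.homF t
    have dA : A.natDegree ≤ d := dG
    have dB : B.natDegree ≤ d :=
      (natDegree_sub_le _ _).trans (max_le dF ((natDegree_C_mul_le _ _).trans dG))
    have cA : A.coeff d = MvPolynomial.eval ![t, 1] G := cG
    have cB : B.coeff d = MvPolynomial.eval ![t, 1] F - t * MvPolynomial.eval ![t, 1] G := by
      rw [hB, coeff_sub, coeff_C_mul]
      rw [hg, cF, cG]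
    apply le_antisymm (max_le dA dB)
    by_cases h1 : A.coeff d = 0
    · by_cases h2 : B.coeff d = 0
      · exfalso
        rw [cB, ← cA, h1, mul_zero, sub_zero] at h2
        rw [cA] at h1
        have h3 := congrFun (h.nz _ h2 h1) 1
        exact one_ne_zero (h3 : (1 : ℂ) = 0)
      · exact (le_natDegree_of_ne_zero h2).trans (le_max_right _ _)
    · exact (le_natDegree_of_ne_zero h1).trans (le_max_left _ _)
  · intro n
    have h0 := congrFun (hstep n) 0
    have h1 := congrFun (hstep n) 1
    rw [Pi.smul_apply, smul_eq_mul] at h0 h1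
    have h2 : β (n + 1) = β n ^ d * B.eval (y n) := by
      have h3 : β (n + 1) = c (n + 1) 0 - t * c (n + 1) 1 := rfl
      rw [h3, hBe, h0, h1]
      ring
    have h4 : c (n + 1) 1 = β n ^ d * A.eval (y n) := by
      rw [hAe, h1]
    have h5 : B.eval (y n) ≠ 0 := by
      intro h6
      rw [h6, mul_zero] at h2
      exact hβ (n + 1) h2
    refine ⟨h5, ?_⟩
    have h7 : y (n + 1) = c (n + 1) 1 / β (n + 1) := rfl
    have h8 : β n ^ d ≠ 0 := pow_ne_zero _ (hβ n)
    rw [h7, h4, h2]
    field_simp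
  · intro n
    exact ⟨β n, hβ n, hcn n⟩

end Pool.Agent.Helper59.UQ
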