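import Pool.Agent.Helper59.PR.Defs
import Pool.Agent.Helper59.DML.Core

/-!
# Project UQ (MP_e566f8_ag): two rational maps of different degrees over `ℂ`: definitions

`hlift c : (Fin 2 → K) → (Fin 2 → K)` is the pair of forms of degree `d` with coefficients `c k j` (`DML/Forms.lean`), `det2 v w = v 0 * w 1 - v 1 * w 0`,
`jac c v` the reduced Jacobian.
-/

set_option autoImplicit false

namespace Pool.Agent.Helper59.UQ

open Pool.Agent.Helper59.DML

/-- the points `(hlift c)^[n] v` of the projective line are pairwise different. -/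
def InfOrb {K : Type*} [CommRing K] {d : ℕ} (c : Fin 2 → Fin (d + 1) → K) (v : Fin 2 → K) : Prop :=
  ∀ m n, m ≠ n → det2 ((hlift c)^[m] v) ((hlift c)^[n] v) ≠ 0

/-- the inclusion `A ⊆ ℚ_p` can be approximated by homomorphisms with algebraic values. -/
def Approx (p : ℕ) [Fact p.Prime] (A : Subalgebra ℚ ℚ_[p]) : Prop :=
  ∀ (F : Finset ℚ_[p]) (ε : ℝ), 0 < ε → ∃ φ : A →+* ℚ_[p], (∀ a, IsAlgebraic ℚ (φ a)) ∧
    ∀ a : A, (a : ℚ_[p]) ∈ F → ‖φ a - a‖ < ε

end Pool.Agent.Helper59.UQ
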