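import Mathlib

/-!
# UQ-EVALNEAR: continuity of the evaluation of polynomials in coefficients and argument

PROOF. `K` a normed field (any norm; ultrametric is not needed). `P.eval x = ∑_{i ≤ n} P_i x^i`, `n = natDegree P`, and `G.eval x' = ∑_{i ≤ n} G_i x'^i` (`Polynomial.eval_eq_sum_range'`). The function
`(g, y) ↦ ∑_{i ≤ n} g_i y^i` on `(Fin (n + 1) → K) × K` is continuous; use continuity at `((P_i), x)` (`Metric.continuousAt_iff`, `dist_pi_lt_iff`); take `δ` from it.
-/

set_option autoImplicit false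

namespace Pool.Agent.Helper59.UQ

open Polynomial

theorem eval_near {K : Type*} [NormedField K] (P : K[X]) (x : K) {ε : ℝ} (hε : 0 < ε) :
    ∃ δ : ℝ, 0 < δ ∧ ∀ (G : K[X]) (x' : K), G.natDegree ≤ P.natDegree → (∀ i, ‖G.coeff i - P.coeff i‖ < δ) →
      ‖x' - x‖ < δ → ‖G.eval x' - P.eval x‖ < ε := by
  have hc : Continuous (fun z : (Fin (P.natDegree + 1) → K) × K =>
      ∑ i : Fin (P.natDegree + 1), z.1 i * z.2 ^ (i : ℕ)) := by
    fun_prop
  have hc' : ContinuousAt (fun z : (Fin (P.natDegree + 1) → K) × K =>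
      ∑ i : Fin (P.natDegree + 1), z.1 i * z.2 ^ (i : ℕ))
      ((fun i : Fin (P.natDegree + 1) => P.coeff i), x) := hc.continuousAt
  rw [Metric.continuousAt_iff] at hc'
  obtain ⟨δ, hδ, h⟩ := hc' ε hε
  refine ⟨δ, hδ, fun G x' hG hco hx => ?_⟩
  have h1 : dist ((fun i : Fin (P.natDegree + 1) => G.coeff i), x')
      ((fun i : Fin (P.natDegree + 1) => P.coeff i), x) < δ := by
    rw [Prod.dist_eq, max_lt_iff]
    constructor
    · rw [dist_pi_lt_iff hδ]
      intro i
      rw [dist_eq_norm]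
      exact hco i
    · rw [dist_eq_norm]
      exact hx
  have h2 := h h1
  rw [dist_eq_norm] at h2
  have e1 : G.eval x' = ∑ i : Fin (P.natDegree + 1), G.coeff i * x' ^ (i : ℕ) := by
    rw [Polynomial.eval_eq_sum_range' (Nat.lt_succ_of_le hG) x',
      Fin.sum_univ_eq_sum_range (fun i => G.coeff i * x' ^ i)]
  have e2 : P.eval x = ∑ i : Fin (P.natDegree + 1), P.coeff i * x ^ (i : ℕ) := by
    rw [Polynomial.eval_eq_sum_range, Fin.sum_univ_eq_sum_range (fun i => P.coeff i * x ^ i)]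
  rw [e1, e2]
  exact h2

end Pool.Agent.Helper59.UQ
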