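import Pool.Agent.Helper59.UQ.Defs

/-!
# UQ-EXTHOM: the ring `A[x]`

`A ⊆ ℚ_p` a `ℚ`-subalgebra, `x ∈ ℚ_p`, `B = A ⊔ Algebra.adjoin ℚ {x}`; the elements of `B` are the `P(x)`, `P ∈ A[X]` (here `P.map (algebraMap A ℚ_p)` evaluated at `x`).
(a) `mem_sup`: `⊇`: `P(x)` is a sum of products of elements of `A` and powers of `x`. `⊆`: the set of all `P(x)` is a subalgebra (the range of the `A`-algebra hom `Polynomial.aeval x`, restricted to scalars `ℚ`) containing `A` and `x`.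
(b) `exists_ext`: `σ : A[X] →+* B`, `P ↦ P(x)` is surjective; `ker σ ≤ ker (P ↦ (P.map φ)(x'))` by hypothesis; `RingHom.liftOfSurjective` (or `RingHom.liftOfRightInverse`).
-/

set_option autoImplicit false

namespace Pool.Agent.Helper59.UQ

open Polynomial

theorem mem_sup {p : ℕ} [Fact p.Prime] (A : Subalgebra ℚ ℚ_[p]) (x b : ℚ_[p]) :
    b ∈ A ⊔ Algebra.adjoin ℚ {x} ↔ ∃ P : A[X], (P.map (algebraMap A ℚ_[p])).eval x = b := by
  constructor
  · intro hb
    let S : Subalgebra ℚ ℚ_[p] :=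
      ((Polynomial.aeval x : A[X] →ₐ[A] ℚ_[p]).restrictScalars ℚ).range
    have hS : A ⊔ Algebra.adjoin ℚ {x} ≤ S := by
      refine sup_le (fun a ha => ?_) (Algebra.adjoin_le ?_)
      · refine ⟨C ⟨a, ha⟩, ?_⟩
        change (Polynomial.aeval x : A[X] →ₐ[A] ℚ_[p]) (C ⟨a, ha⟩) = a
        rw [Polynomial.aeval_C]
        rfl
      · rintro _ rfl
        refine ⟨X, ?_⟩
        change (Polynomial.aeval _ : A[X] →ₐ[A] ℚ_[p]) X = _
        rw [Polynomial.aeval_X]
    obtain ⟨P, hP⟩ := hS hb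
    refine ⟨P, ?_⟩
    rw [Polynomial.eval_map_algebraMap]
    exact hP
  · rintro ⟨P, rfl⟩
    rw [Polynomial.eval_map_algebraMap, Polynomial.aeval_eq_sum_range]
    refine Subalgebra.sum_mem _ fun i _ => ?_
    rw [Algebra.smul_def]
    refine Subalgebra.mul_mem _ ?_ (Subalgebra.pow_mem _ ?_ i)
    · exact (le_sup_left : A ≤ A ⊔ Algebra.adjoin ℚ {x}) (P.coeff i).2
    · exact (le_sup_right : Algebra.adjoin ℚ {x} ≤ A ⊔ Algebra.adjoin ℚ {x})
        (Algebra.subset_adjoin rfl)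

theorem exists_ext {p : ℕ} [Fact p.Prime] (A : Subalgebra ℚ ℚ_[p]) (x : ℚ_[p]) (φ : A →+* ℚ_[p]) (x' : ℚ_[p])
    (hker : ∀ P : A[X], (P.map (algebraMap A ℚ_[p])).eval x = 0 → (P.map φ).eval x' = 0) :
    ∃ φ' : (A ⊔ Algebra.adjoin ℚ {x} : Subalgebra ℚ ℚ_[p]) →+* ℚ_[p],
      ∀ (P : A[X]) (b : (A ⊔ Algebra.adjoin ℚ {x} : Subalgebra ℚ ℚ_[p])),
        (P.map (algebraMap A ℚ_[p])).eval x = b → φ' b = (P.map φ).eval x' := by
  have key : ∀ P Q : A[X], (P.map (algebraMap A ℚ_[p])).eval x =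
      (Q.map (algebraMap A ℚ_[p])).eval x → (P.map φ).eval x' = (Q.map φ).eval x' := by
    intro P Q h
    have h1 := hker (P - Q) (by rw [Polynomial.map_sub, Polynomial.eval_sub, h, sub_self])
    rw [Polynomial.map_sub, Polynomial.eval_sub] at h1
    exact sub_eq_zero.1 h1
  have hex : ∀ b : (A ⊔ Algebra.adjoin ℚ {x} : Subalgebra ℚ ℚ_[p]), ∃ P : A[X],
      (P.map (algebraMap A ℚ_[p])).eval x = b := fun b => (mem_sup A x b).1 b.2
  choose F hF using hex
  refine ⟨{ toFun := fun b => ((F b).map φ).eval x'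
            map_one' := ?_
            map_mul' := fun b c => ?_
            map_zero' := ?_
            map_add' := fun b c => ?_ }, fun P b hb => key _ _ ((hF b).trans hb.symm)⟩
  · rw [key (F 1) 1 (by rw [hF]; simp)]
    simp
  · rw [← Polynomial.eval_mul, ← Polynomial.map_mul]
    apply key
    rw [hF, Polynomial.map_mul, Polynomial.eval_mul, hF, hF]
    rfl
  · rw [key (F 0) 0 (by rw [hF]; simp)]
    simp
  · rw [← Polynomial.eval_add, ← Polynomial.map_add]
    apply key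
    rw [hF, Polynomial.map_add, Polynomial.eval_add, hF, hF]
    rfl

end Pool.Agent.Helper59.UQ
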