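import Pool.Agent.Helper59.UQ.UneqRR
import Pool.Agent.Helper59.UQ.CoordD
import Pool.Agent.Helper59.PR.Low

/-!
# UQ-FINAL: curves in `P^1 × P^1`, different degrees
-/

set_option autoImplicit false

namespace Pool.Agent.Helper59.UQ

open Polynomial Pool.Agent.Helper59.DX Pool.Agent.Helper59.DML Pool.Agent.Helper59.PR

private theorem ep_or {S T : ℕ → Prop} (hS : EP S) (hT : EP T) : EP (fun n => S n ∨ T n) := by
  obtain ⟨n0, p, hp, h⟩ := hS
  obtain ⟨m0, q, hq, k⟩ := hT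
  refine ⟨max n0 m0, q * p, Nat.mul_pos hq hp, fun n hn => ?_⟩
  have e1 := ep_mul h q n (le_trans (le_max_left _ _) hn)
  have e2 := ep_mul k p n (le_trans (le_max_right _ _) hn)
  rw [Nat.mul_comm p q] at e2
  exact or_congr e1 e2

private theorem ep_of_fin {S : ℕ → Prop} (h : {k | S k}.Finite) : EP S := by
  obtain ⟨N, hN⟩ := h.bddAbove
  refine ⟨N + 1, 1, one_pos, fun n hn => ?_⟩
  have h1 : ∀ m, N + 1 ≤ m → ¬ S m := fun m hm hS => by
    have := hN hS
    omega
  exact iff_of_false (h1 _ hn) (h1 _ (by omega))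

/-- an irreducible polynomial which does not depend on the first variable. -/
private theorem fin_of_degX_zero {P : ℂ[X][X]} (hP : Irreducible P) (h0 : degX P = 0) {x y : ℕ → ℂ}
    (hy : Function.Injective y) : {n | P.evalEval (x n) (y n) = 0}.Finite := by
  have hc : ∀ j, P.coeff j = C ((P.coeff j).coeff 0) := fun j =>
    Polynomial.eq_C_of_natDegree_le_zero (by rw [← h0]; exact natDegree_coeff_le_degX P j)
  obtain ⟨Q, hQ⟩ : ∃ Q : ℂ[X], Q = P.map (evalRingHom 0) := ⟨_, rfl⟩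
  have hQP : Q.map C = P := by
    ext j : 1
    rw [coeff_map, hQ, coeff_map, hc j]
    simp
  have hQ0 : Q ≠ 0 := by
    rintro rfl
    rw [Polynomial.map_zero] at hQP
    exact hP.ne_zero hQP.symm
  have hev : ∀ a b : ℂ, P.evalEval a b = Q.eval b := by
    intro a b
    rw [← hQP]
    exact evalEval_map_C a b Q
  have hfin : {z : ℂ | Q.eval z = 0}.Finite := by
    refine (Q.roots.toFinset.finite_toSet).subset fun z hz => ?_
    simp only [Finset.mem_coe, Multiset.mem_toFinset, mem_roots hQ0]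
    exact hz
  refine (hfin.preimage hy.injOn).subset fun n hn => ?_
  have hn' : P.evalEval (x n) (y n) = 0 := hn
  rw [hev] at hn'
  exact hn'

private theorem fin_of_natDegree_zero {P : ℂ[X][X]} (hP : Irreducible P) (h0 : P.natDegree = 0) {x y : ℕ → ℂ}
    (hx : Function.Injective x) : {n | P.evalEval (x n) (y n) = 0}.Finite := by
  have hs : Irreducible (Bivariate.swap P) :=
    (MulEquiv.irreducible_iff (Bivariate.swap (R := ℂ)).toMulEquiv).2 hP
  have := fin_of_degX_zero hs (by rw [degX_swap]; exact h0) (x := y) (y := x) hx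
  simpa only [evalEval_swap] using this

/-- irreducible plane curves. -/
private theorem ep_irr {A₁ B₁ A₂ B₂ : ℂ[X]} {x y : ℕ → ℂ} (h1 : IsCoprime A₁ B₁) (h2 : IsCoprime A₂ B₂)
    (hD₁ : 1 ≤ max A₁.natDegree B₁.natDegree) (hD₂ : 1 ≤ max A₂.natDegree B₂.natDegree)
    (hne : max A₁.natDegree B₁.natDegree ≠ max A₂.natDegree B₂.natDegree) (hx : IsOrb A₁ B₁ x)
    (hy : IsOrb A₂ B₂ y) (hxi : Function.Injective x) (hyi : Function.Injective y) {P : ℂ[X][X]}
    (hP : Irreducible P) : {n | P.evalEval (x n) (y n) = 0}.Finite := by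
  by_cases hX : degX P = 0
  · exact fin_of_degX_zero hP hX hyi
  by_cases hY : P.natDegree = 0
  · exact fin_of_natDegree_zero hP hY hxi
  rcases lt_or_gt_of_ne hne with hlt | hgt
  · exact uneq_RR h1 h2 hD₁ hlt hx hy hyi hP (by omega) (by omega)
  · have hs : Irreducible (Bivariate.swap P) :=
      (MulEquiv.irreducible_iff (Bivariate.swap (R := ℂ)).toMulEquiv).2 hP
    have := uneq_RR h2 h1 hD₂ hgt hy hx hxi hs (by rw [degX_swap]; omega) (by rw [natDegree_swap]; omega)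
    simpa only [evalEval_swap] using this

/-- plane curves. -/
private theorem ep_pl {A₁ B₁ A₂ B₂ : ℂ[X]} {x y : ℕ → ℂ} (h1 : IsCoprime A₁ B₁) (h2 : IsCoprime A₂ B₂)
    (hD₁ : 1 ≤ max A₁.natDegree B₁.natDegree) (hD₂ : 1 ≤ max A₂.natDegree B₂.natDegree)
    (hne : max A₁.natDegree B₁.natDegree ≠ max A₂.natDegree B₂.natDegree) (hx : IsOrb A₁ B₁ x)
    (hy : IsOrb A₂ B₂ y) (hxi : Function.Injective x) (hyi : Function.Injective y) {P : ℂ[X][X]} (hP : P ≠ 0) :
    EP (fun n => P.evalEval (x n) (y n) = 0) := by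
  revert hP
  refine WfDvdMonoid.induction_on_irreducible P (fun h => absurd rfl h) ?_ ?_
  · intro u hu _
    refine ⟨0, 1, one_pos, fun n _ => ?_⟩
    have hne : ∀ x z : ℂ, ¬ (u.evalEval x z = 0) := by
      intro x z h0
      have h1 : IsUnit ((evalEvalRingHom x z) u) := hu.map _
      have h2 : (evalEvalRingHom x z) u = u.evalEval x z := rfl
      rw [h2, h0] at h1
      exact not_isUnit_zero h1
    exact iff_of_false (hne _ _) (hne _ _)
  · intro b i hb hi ih _
    refine (ep_or (ep_of_fin (ep_irr h1 h2 hD₁ hD₂ hne hx hy hxi hyi hi)) (ih hb)).congr fun n => ?_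
    rw [evalEval_mul, mul_eq_zero]

private theorem par_pt {w w' : Fin 2 → ℂ} {x α β : ℂ} :
    Par (α • (x • w + w')) (β • (x • w + w')) := by
  unfold Par
  simp only [Pi.smul_apply, Pi.add_apply, smul_eq_mul]
  ring

theorem ep_uneq {F₁ G₁ F₂ G₂ : MvPolynomial (Fin 2) ℂ} {d₁ d₂ : ℕ} (h1 : IsMap F₁ G₁ d₁) (h2 : IsMap F₂ G₂ d₂)
    (hne : d₁ ≠ d₂) {H : MvPolynomial (Fin 2 ⊕ Fin 2) ℂ} {p q : ℕ} (hH : Bihom H p q) (hH0 : H ≠ 0)
    {a b : Fin 2 → ℂ} (ha : a ≠ 0) (hb : b ≠ 0) :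
    EP (fun n => MvPolynomial.eval (Sum.elim ((phi F₁ G₁)^[n] a) ((phi F₂ G₂)^[n] b)) H = 0) := by
  rcases orbit_dichotomy h1 ha with hA | hA
  · exact ep_of_preP h1 h2 hH ha hb (Or.inl hA)
  rcases orbit_dichotomy h2 hb with hB | hB
  · exact ep_of_preP h1 h2 hH ha hb (Or.inr hB)
  have hd₁ : 1 ≤ d₁ := by
    rcases Nat.eq_zero_or_pos d₁ with h0 | h0
    · subst h0
      obtain ⟨m, n, hmn, hpar⟩ := preP_of_degree_zero h1 a
      exact absurd (hpar 0) (hA _ _ (by omega))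
    · exact h0
  have hd₂ : 1 ≤ d₂ := by
    rcases Nat.eq_zero_or_pos d₂ with h0 | h0
    · subst h0
      obtain ⟨m, n, hmn, hpar⟩ := preP_of_degree_zero h2 b
      exact absurd (hpar 0) (hB _ _ (by omega))
    · exact h0
  obtain ⟨w, w', A₁, B₁, x, hww', hcop₁, hmax₁, horb₁, hx⟩ := coord_rational_deg h1 ha
  obtain ⟨z, z', A₂, B₂, y, hzz', hcop₂, hmax₂, horb₂, hy⟩ := coord_rational_deg h2 hb
  obtain ⟨P, hP0, hP⟩ := dehom hH hH0 hww' hzz'
  have hinjx : Function.Injective x := by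
    intro m n hmn
    by_contra hne'
    obtain ⟨β, _, hβ⟩ := hx m
    obtain ⟨γ, _, hγ⟩ := hx n
    apply hA m n hne'
    rw [hβ, hγ, hmn]
    exact par_pt
  have hinjy : Function.Injective y := by
    intro m n hmn
    by_contra hne'
    obtain ⟨β, _, hβ⟩ := hy m
    obtain ⟨γ, _, hγ⟩ := hy n
    apply hB m n hne'
    rw [hβ, hγ, hmn]
    exact par_pt
  have h5 := ep_pl hcop₁ hcop₂ (by rw [hmax₁]; exact hd₁) (by rw [hmax₂]; exact hd₂)
    (by rw [hmax₁, hmax₂]; exact hne) horb₁ horb₂ hinjx hinjy hP0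
  refine h5.congr fun n => ?_
  obtain ⟨β, hβ0, hβ⟩ := hx n
  obtain ⟨γ, hγ0, hγ⟩ := hy n
  rw [hβ, hγ, hP]
  constructor
  · intro h
    rw [h, mul_zero]
  · intro h
    exact (mul_eq_zero.mp h).resolve_left (mul_ne_zero (pow_ne_zero _ hβ0) (pow_ne_zero _ hγ0))

end Pool.Agent.Helper59.UQ
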