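import Pool.Agent.Helper59.UQ.Near

/-!
# UQ-JQUOT: the distance `‖det2 V P‖` does not increase

IDENTITY. `A(V) B(P) - B(V) A(P) = ∑_{i,j} c_{0i} c_{1j} (V0^i V1^(d-i) P0^j P1^(d-j) - V0^j V1^(d-j) P0^i P1^(d-i))`. For `i ≥ j`: the bracket is `V0^j V1^(d-i) P0^j P1^(d-i) ((V0 P1)^(i-j) - (V1 P0)^(i-j)) = det2 V P * V0^j V1^(d-i) P0^j P1^(d-i) * ∑_{s < i-j} (V0 P1)^s (V1 P0)^(i-j-1-s)` (`Commute.geom_sum₂_mul` / `mul_geom_sum₂`); for `i < j` it is
the negative of the one with `i, j` exchanged. So `det2 (hlift c V) (hlift c P) = det2 V P * J(V, P)` where `J(V, P)` is a finite sum of products of coefficients and coordinates (with signs), and `J(P, P) = jac c P` (for `i ≥ j` the sum is `(i - j) P0^(i+j-1) P1^(2d-i-j-1)`).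
Suggestion: define privately `jq c V P := ∑ i, ∑ j, c 0 i * c 1 j * (if j ≤ i then .. else - ..)`.
(a) `‖J‖ ≤ 1`. (b) `‖J(V,P) - J(P,P)‖ ≤ r` if `‖V k - P k‖ ≤ r` (sums and products as in `Near.lean`), so `‖J(V,P)‖ ≤ max ‖jac c P‖ r`.
-/

set_option autoImplicit false

namespace Pool.Agent.Helper59.UQ

open Pool.Agent.Helper59.DML

variable {K : Type*} [NormedField K] [IsUltrametricDist K] {d : ℕ}

private def jg {R : Type*} [CommRing R] (d : ℕ) (V P : Fin 2 → R) (i j : ℕ) : R :=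
  V 0 ^ j * P 0 ^ j * (V 1 ^ (d - i) * P 1 ^ (d - i)) *
    ∑ s ∈ Finset.range (i - j), (V 0 * P 1) ^ s * (V 1 * P 0) ^ (i - j - 1 - s)

private theorem jg_eq {R : Type*} [CommRing R] (d : ℕ) (V P : Fin 2 → R) {i j : ℕ} (hij : j ≤ i)
    (hi : i ≤ d) : V 0 ^ i * V 1 ^ (d - i) * (P 0 ^ j * P 1 ^ (d - j)) -
      V 0 ^ j * V 1 ^ (d - j) * (P 0 ^ i * P 1 ^ (d - i)) = det2 V P * jg d V P i j := by
  have h := (Commute.all (V 0 * P 1) (V 1 * P 0)).geom_sum₂_mul (i - j)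
  have h1 : det2 V P = V 0 * P 1 - V 1 * P 0 := rfl
  rw [h1, jg]
  obtain ⟨e, rfl⟩ : ∃ e, i = j + e := ⟨i - j, by omega⟩
  have h2 : j + e - j = e := by omega
  have h3 : d - j = (d - (j + e)) + e := by omega
  rw [h2] at h
  rw [h2, h3]
  rw [pow_add, pow_add, pow_add, pow_add]
  rw [mul_pow, mul_pow] at h
  linear_combination (-(V 0 ^ j * P 0 ^ j * (V 1 ^ (d - (j + e)) * P 1 ^ (d - (j + e))))) * h

private def jq {R : Type*} [CommRing R] {d : ℕ} (c : Fin 2 → Fin (d + 1) → R) (V P : Fin 2 → R) : R :=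
  ∑ i : Fin (d + 1), ∑ j : Fin (d + 1), c 0 i * c 1 j *
    (if (j : ℕ) ≤ (i : ℕ) then jg d V P i j else - jg d V P j i)

private theorem det2_hlift {R : Type*} [CommRing R] {d : ℕ} (c : Fin 2 → Fin (d + 1) → R)
    (V P : Fin 2 → R) : det2 (hlift c V) (hlift c P) = det2 V P * jq c V P := by
  have h1 : det2 (hlift c V) (hlift c P) = ∑ i : Fin (d + 1), ∑ j : Fin (d + 1), c 0 i * c 1 j *
      (V 0 ^ (i : ℕ) * V 1 ^ (d - (i : ℕ)) * (P 0 ^ (j : ℕ) * P 1 ^ (d - (j : ℕ))) -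
      V 0 ^ (j : ℕ) * V 1 ^ (d - (j : ℕ)) * (P 0 ^ (i : ℕ) * P 1 ^ (d - (i : ℕ)))) := by
    simp only [mul_sub, Finset.sum_sub_distrib]
    show form (c 0) V * form (c 1) P - form (c 1) V * form (c 0) P = _
    congr 1
    · rw [form, form, Finset.sum_mul_sum]
      refine Finset.sum_congr rfl fun i _ => Finset.sum_congr rfl fun j _ => ?_
      ring
    · rw [form, form, Finset.sum_mul_sum, Finset.sum_comm]
      refine Finset.sum_congr rfl fun i _ => Finset.sum_congr rfl fun j _ => ?_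
      ring
  rw [h1, jq, Finset.mul_sum]
  refine Finset.sum_congr rfl fun i _ => ?_
  rw [Finset.mul_sum]
  refine Finset.sum_congr rfl fun j _ => ?_
  have hi : (i : ℕ) ≤ d := by omega
  have hj : (j : ℕ) ≤ d := by omega
  split_ifs with h
  · rw [jg_eq d V P h hi]
    ring
  · have h2 := jg_eq d V P (i := j) (j := i) (by omega) hj
    linear_combination (-(c 0 i * c 1 j)) * h2

private theorem jg_self {R : Type*} [CommRing R] (d : ℕ) (P : Fin 2 → R) {i j : ℕ} (hij : j ≤ i)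
    (hi : i ≤ d) : jg d P P i j =
      ((i : R) - (j : R)) * (P 0 ^ (i + j - 1) * P 1 ^ ((d - i) + (d - j) - 1)) := by
  obtain ⟨e, rfl⟩ : ∃ e, i = j + e := ⟨i - j, by omega⟩
  have h2 : j + e - j = e := by omega
  rw [jg, h2]
  rcases Nat.eq_zero_or_pos e with rfl | he
  · simp
  · have h3 : ∀ s ∈ Finset.range e, (P 0 * P 1) ^ s * (P 1 * P 0) ^ (e - 1 - s) =
        (P 0 * P 1) ^ (e - 1) := by
      intro s hs
      rw [Finset.mem_range] at hs
      rw [mul_comm (P 1) (P 0), ← pow_add]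
      congr 1
      omega
    rw [Finset.sum_congr rfl h3, Finset.sum_const, Finset.card_range, nsmul_eq_mul]
    have h4 : j + e + j - 1 = j + j + (e - 1) := by omega
    have h5 : d - (j + e) + (d - j) - 1 = (d - (j + e)) + (d - (j + e)) + (e - 1) := by omega
    rw [h4, h5, pow_add, pow_add, pow_add, pow_add, mul_pow]
    push_cast
    ring

private theorem jq_self {R : Type*} [CommRing R] {d : ℕ} (c : Fin 2 → Fin (d + 1) → R)
    (P : Fin 2 → R) : jq c P P = jac c P := by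
  rw [jq, jac]
  refine Finset.sum_congr rfl fun i _ => Finset.sum_congr rfl fun j _ => ?_
  have hi : (i : ℕ) ≤ d := by omega
  have hj : (j : ℕ) ≤ d := by omega
  split_ifs with h
  · rw [jg_self d P h hi]
    ring
  · rw [jg_self d P (by omega) hj, Nat.add_comm (j : ℕ) (i : ℕ), Nat.add_comm (d - (j : ℕ))]
    ring

/-- close and bounded -/
private def NB (r : ℝ) (a b : K) : Prop := ‖a‖ ≤ 1 ∧ ‖b‖ ≤ 1 ∧ ‖a - b‖ ≤ r

private theorem NB.refl {r : ℝ} (hr : 0 ≤ r) {a : K} (ha : ‖a‖ ≤ 1) : NB r a a :=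
  ⟨ha, ha, by simpa using hr⟩

private theorem NB.add {r : ℝ} {a b a' b' : K} (h : NB r a b) (h' : NB r a' b') :
    NB r (a + a') (b + b') := by
  refine ⟨?_, ?_, ?_⟩
  · exact (IsUltrametricDist.norm_add_le_max _ _).trans (max_le h.1 h'.1)
  · exact (IsUltrametricDist.norm_add_le_max _ _).trans (max_le h.2.1 h'.2.1)
  · have e : a + a' - (b + b') = (a - b) + (a' - b') := by ring
    rw [e]
    exact (IsUltrametricDist.norm_add_le_max _ _).trans (max_le h.2.2 h'.2.2)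

private theorem NB.neg {r : ℝ} {a b : K} (h : NB r a b) : NB r (-a) (-b) := by
  refine ⟨by rw [norm_neg]; exact h.1, by rw [norm_neg]; exact h.2.1, ?_⟩
  have e : -a - -b = -(a - b) := by ring
  rw [e, norm_neg]
  exact h.2.2

private theorem NB.mul {r : ℝ} {a b a' b' : K} (h : NB r a b) (h' : NB r a' b') :
    NB r (a * a') (b * b') := by
  refine ⟨?_, ?_, ?_⟩
  · rw [norm_mul]
    exact mul_le_one₀ h.1 (norm_nonneg _) h'.1
  · rw [norm_mul]
    exact mul_le_one₀ h.2.1 (norm_nonneg _) h'.2.1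
  · have e : a * a' - b * b' = a * (a' - b') + (a - b) * b' := by ring
    rw [e]
    refine (IsUltrametricDist.norm_add_le_max _ _).trans (max_le ?_ ?_)
    · rw [norm_mul]
      calc ‖a‖ * ‖a' - b'‖ ≤ 1 * ‖a' - b'‖ := mul_le_mul_of_nonneg_right h.1 (norm_nonneg _)
        _ ≤ r := by rw [one_mul]; exact h'.2.2
    · rw [norm_mul]
      calc ‖a - b‖ * ‖b'‖ ≤ ‖a - b‖ * 1 := mul_le_mul_of_nonneg_left h'.2.1 (norm_nonneg _)
        _ ≤ r := by rw [mul_one]; exact h.2.2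

private theorem NB.pow {r : ℝ} (hr : 0 ≤ r) {a b : K} (h : NB r a b) (n : ℕ) :
    NB r (a ^ n) (b ^ n) := by
  induction n with
  | zero => simpa using NB.refl hr (a := (1 : K)) (by simp)
  | succ n ih => rw [pow_succ, pow_succ]; exact ih.mul h

private theorem NB.sum {r : ℝ} (hr : 0 ≤ r) {ι : Type*} (s : Finset ι) {f g : ι → K}
    (h : ∀ i ∈ s, NB r (f i) (g i)) : NB r (∑ i ∈ s, f i) (∑ i ∈ s, g i) := by
  classical
  induction s using Finset.induction_on with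
  | empty => simpa using NB.refl hr (a := (0 : K)) (by simp)
  | insert a s ha ih =>
    rw [Finset.sum_insert ha, Finset.sum_insert ha]
    exact (h a (Finset.mem_insert_self _ _)).add (ih fun i hi => h i (Finset.mem_insert_of_mem hi))

private theorem jg_nb {r : ℝ} (hr : 0 ≤ r) {V V' P P' : Fin 2 → K} (hV : ∀ k, NB r (V k) (V' k))
    (hP : ∀ k, NB r (P k) (P' k)) (i j : ℕ) : NB r (jg d V P i j) (jg d V' P' i j) := by
  unfold jg
  refine ((((hV 0).pow hr j).mul ((hP 0).pow hr j)).mul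
    (((hV 1).pow hr _).mul ((hP 1).pow hr _))).mul (NB.sum hr _ fun s _ => ?_)
  exact (((hV 0).mul (hP 1)).pow hr _).mul (((hV 1).mul (hP 0)).pow hr _)

private theorem jq_nb {r : ℝ} (hr : 0 ≤ r) {c : Fin 2 → Fin (d + 1) → K} (hc : ∀ k j, ‖c k j‖ ≤ 1)
    {V V' P P' : Fin 2 → K} (hV : ∀ k, NB r (V k) (V' k))
    (hP : ∀ k, NB r (P k) (P' k)) : NB r (jq c V P) (jq c V' P') := by
  unfold jq
  refine NB.sum hr _ fun i _ => NB.sum hr _ fun j _ => ?_
  refine ((NB.refl hr (hc 0 i)).mul (NB.refl hr (hc 1 j))).mul ?_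
  split_ifs with h
  · exact jg_nb hr hV hP _ _
  · exact (jg_nb hr hV hP _ _).neg

theorem det2_hlift_le {c : Fin 2 → Fin (d + 1) → K} (hc : ∀ k j, ‖c k j‖ ≤ 1) {V P : Fin 2 → K}
    (hV : ∀ k, ‖V k‖ ≤ 1) (hP : ∀ k, ‖P k‖ ≤ 1) : ‖det2 (hlift c V) (hlift c P)‖ ≤ ‖det2 V P‖ := by
  have h := jq_nb (r := 0) le_rfl hc (fun k => NB.refl le_rfl (hV k)) (fun k => NB.refl le_rfl (hP k))
  rw [det2_hlift, norm_mul]
  calc ‖det2 V P‖ * ‖jq c V P‖ ≤ ‖det2 V P‖ * 1 := mul_le_mul_of_nonneg_left h.1 (norm_nonneg _)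
    _ = ‖det2 V P‖ := mul_one _

theorem det2_hlift_le_jac {c : Fin 2 → Fin (d + 1) → K} (hc : ∀ k j, ‖c k j‖ ≤ 1) {V P : Fin 2 → K}
    (hV : ∀ k, ‖V k‖ ≤ 1) (hP : ∀ k, ‖P k‖ ≤ 1) {r : ℝ} (hVP : ∀ k, ‖V k - P k‖ ≤ r) :
    ‖det2 (hlift c V) (hlift c P)‖ ≤ ‖det2 V P‖ * max ‖jac c P‖ r := by
  have hr : 0 ≤ r := (norm_nonneg _).trans (hVP 0)
  have h := jq_nb hr hc (fun k => (⟨hV k, hP k, hVP k⟩ : NB r (V k) (P k)))
    (fun k => NB.refl hr (hP k))
  rw [jq_self] at h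
  rw [det2_hlift, norm_mul]
  refine mul_le_mul_of_nonneg_left ?_ (norm_nonneg _)
  have e : jq c V P = jac c P + (jq c V P - jac c P) := by ring
  rw [e]
  exact (IsUltrametricDist.norm_add_le_max _ _).trans (max_le_max le_rfl h.2.2)

end Pool.Agent.Helper59.UQ
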