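import Pool.Agent.Helper59.DML.Embed

/-!
# UQ-UNITS: Cassels' embedding theorem with units

The same as `Pool/Agent/Helper59/DML/Embed.lean` (on main, proved: `embed_core`, `embed_infinite`; read it), but the embedding maps finitely many given nonzero elements to `p`-adic units.
PROOF of `embed_core_units`: repeat the proof of `embed_core` (copy it; its lemmas `hensel_step`, `exists_root_mod_infinite`, `exists_algInd` are public) with the following change. For every `x ∈ S`, `x ≠ 0`: both `x` and `x⁻¹` are polynomials in `θ` over `K = Frac ℤ[t]` (`θ` a primitive element: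
`IntermediateField.adjoin_simple...`, `Algebra.adjoin K {θ} = ⊤`: `IntermediateField.adjoin_simple_toSubalgebra_of_integral`, `Polynomial.aeval` surjective), so there are `N_x, N'_x ∈ ℤ[t][X]` and a nonzero `b_x ∈ ℤ[t]` with `b_x x = N_x(θ)`, `b_x x⁻¹ = N'_x(θ)`
(`IsLocalization.integerNormalization` or `IsLocalization.exist_integer_multiples_of_finset`). Put `D := bu * bv * bm * ∏_{x ∈ S} b_x` (multiply `hrel` by the extra factor). The integral point `r` satisfies `D(r) ≠ 0`, and `p ∤ D(r)`. Under the embedding `φ : E → ℚ_p`: `φ(θ) = b ∈ ℤ_p` (it is the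
Hensel root), `φ(P) = ετ(P) ∈ ℤ_p` for `P ∈ ℤ[t]`, and `‖φ(b_x)‖ = 1` because `b_x(τ) ≡ b_x(r) mod p` and `b_x(r) | D(r)` is prime to `p`. So `‖φ x‖ = ‖φ(N_x(θ))‖ ≤ 1` and `‖φ x⁻¹‖ ≤ 1`, hence `‖φ x‖ = 1`.
(`φ(θ) = b`: the embedding at the end of `embed_core` is `AdjoinRoot.lift` composed with an isomorphism `E ≃ AdjoinRoot m` mapping `θ` to `root`; alternatively use `PowerBasis.lift`/`IntermediateField.algHomAdjoinIntegralEquiv` or `Field.powerBasisOfFiniteOfSeparable`-type lemmas.)
`embed_units` follows from `embed_core_units` exactly as `embed_infinite` follows from `embed_core`.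
-/

set_option autoImplicit false

open Polynomial

namespace Pool.Agent.Helper59.UQ

open Pool.Agent.Helper59.DML

private theorem norm_eps {κ : Type} {p : ℕ} [Fact p.Prime] (r : κ → ℤ) (τ : κ → ℤ_[p])
    (hτ : ∀ j, ‖τ j - (r j : ℤ_[p])‖ < 1) (P : MvPolynomial κ ℤ)
    (hP : ¬ (p : ℤ) ∣ MvPolynomial.eval r P) :
    ‖MvPolynomial.eval₂Hom (Int.castRingHom ℤ_[p]) τ P‖ = 1 := by
  set ετ : MvPolynomial κ ℤ →+* ℤ_[p] := MvPolynomial.eval₂Hom (Int.castRingHom ℤ_[p]) τ with hετ
  have hcomp : (PadicInt.toZMod : ℤ_[p] →+* ZMod p).comp ετ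
      = (Int.castRingHom (ZMod p)).comp (MvPolynomial.eval r) := by
    apply MvPolynomial.ringHom_ext
    · intro a; simp [ετ]
    · intro j
      simp only [RingHom.comp_apply, ετ, MvPolynomial.eval₂Hom_X', MvPolynomial.eval_X]
      have h1 : τ j - (r j : ℤ_[p]) ∈ RingHom.ker (PadicInt.toZMod : ℤ_[p] →+* ZMod p) := by
        rw [PadicInt.ker_toZMod]
        exact PadicInt.mem_nonunits.2 (hτ j)
      rw [RingHom.mem_ker, map_sub, sub_eq_zero] at h1
      rw [h1]; simp
  have hlt : ¬ ‖ετ P‖ < 1 := by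
    intro h
    apply hP
    have h0 : PadicInt.toZMod (ετ P) = 0 := by
      rw [← RingHom.mem_ker, PadicInt.ker_toZMod]
      exact PadicInt.mem_nonunits.2 h
    have h4 : PadicInt.toZMod (ετ P) = ((MvPolynomial.eval r P : ℤ) : ZMod p) :=
      congrArg (fun f : MvPolynomial κ ℤ →+* ZMod p => f P) hcomp
    rw [h4] at h0
    exact (ZMod.intCast_zmod_eq_zero_iff_dvd _ _).1 h0
  exact le_antisymm (PadicInt.norm_le_one _) (not_lt.1 hlt)

/-- every element of `E` is a polynomial in the primitive element, with denominator in `B` -/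
private theorem exists_num {B K E : Type} [CommRing B] [IsDomain B] [Field K] [Field E]
    [Algebra B K] [IsFractionRing B K] [Algebra K E] (θ : E) (hint : IsIntegral K θ)
    (hθ : IntermediateField.adjoin K {θ} = ⊤) (x : E) :
    ∃ (N : B[X]) (b : B), b ≠ 0 ∧
      algebraMap K E (algebraMap B K b) * x = aeval θ (N.map (algebraMap B K)) := by
  have h1 : x ∈ IntermediateField.adjoin K {θ} := by rw [hθ]; trivial
  have h2 : x ∈ Algebra.adjoin K {θ} := by
    rw [← IntermediateField.adjoin_simple_toSubalgebra_of_isAlgebraic hint.isAlgebraic]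
    exact h1
  rw [Algebra.adjoin_singleton_eq_range_aeval] at h2
  obtain ⟨P, hP⟩ := h2
  obtain ⟨b, hb, hb1⟩ := IsLocalization.integerNormalization_spec (nonZeroDivisors B) P
  refine ⟨IsLocalization.integerNormalization (nonZeroDivisors B) P, b, nonZeroDivisors.ne_zero hb, ?_⟩
  have h3 : (IsLocalization.integerNormalization (nonZeroDivisors B) P).map (algebraMap B K) =
      C (algebraMap B K b) * P := by
    rw [hb1, Algebra.smul_def]; rfl
  have h4 : aeval θ P = x := hP
  rw [h3, map_mul, aeval_C, h4]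

/-- the core: a finite extension of the fraction field of `ℤ[t]`, with integral images. -/
private theorem embed_core_int {κ : Type} [Finite κ] {E : Type} [Field E]
    [Algebra (FractionRing (MvPolynomial κ ℤ)) E]
    [FiniteDimensional (FractionRing (MvPolynomial κ ℤ)) E] (T : Finset E) :
    {p : ℕ | ∃ _ : Fact p.Prime, ∃ ψ : E →+* ℚ_[p], ∀ x ∈ T, ‖ψ x‖ ≤ 1}.Infinite := by
  classical
  set B := MvPolynomial κ ℤ with hB
  set K := FractionRing B with hK
  haveI : CharZero B := charZero_of_injective_algebraMap (R := ℤ) (A := B)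
    (by rw [MvPolynomial.algebraMap_eq]; exact MvPolynomial.C_injective κ ℤ)
  haveI : CharZero K := charZero_of_injective_algebraMap (R := B) (A := K) (IsFractionRing.injective B K)
  obtain ⟨θ, hθ⟩ := Field.exists_primitive_element K E
  have hint : IsIntegral K θ := Algebra.IsIntegral.isIntegral θ
  choose N bx hbx hNx using fun x : E => exists_num (B := B) (K := K) θ hint hθ x
  set m := minpoly K θ with hm
  have hsep : m.Separable := (minpoly.irreducible hint).separable
  obtain ⟨u, v, huv⟩ := hsep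
  obtain ⟨bm, hbm, hbm1⟩ := IsLocalization.integerNormalization_spec (nonZeroDivisors B) m
  obtain ⟨bu, hbu, hbu1⟩ := IsLocalization.integerNormalization_spec (nonZeroDivisors B) u
  obtain ⟨bv, hbv, hbv1⟩ := IsLocalization.integerNormalization_spec (nonZeroDivisors B) v
  set m₁ := IsLocalization.integerNormalization (nonZeroDivisors B) m with hm₁
  set u₁ := IsLocalization.integerNormalization (nonZeroDivisors B) u with hu₁
  set v₁ := IsLocalization.integerNormalization (nonZeroDivisors B) v with hv₁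
  have hmapinj : Function.Injective (Polynomial.map (algebraMap B K)) :=
    Polynomial.map_injective _ (IsFractionRing.injective B K)
  have hm₁' : m₁.map (algebraMap B K) = C (algebraMap B K bm) * m := by
    rw [hbm1, Algebra.smul_def]; rfl
  have hu₁' : u₁.map (algebraMap B K) = C (algebraMap B K bu) * u := by
    rw [hbu1, Algebra.smul_def]; rfl
  have hv₁' : v₁.map (algebraMap B K) = C (algebraMap B K bv) * v := by
    rw [hbv1, Algebra.smul_def]; rfl
  set D₀ : B := bu * bv * bm with hD₀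
  set b₀ : B := ∏ x ∈ T, bx x with hb₀
  have hD0 : D₀ ≠ 0 := mul_ne_zero (mul_ne_zero (nonZeroDivisors.ne_zero hbu) (nonZeroDivisors.ne_zero hbv))
    (nonZeroDivisors.ne_zero hbm)
  have hb0 : b₀ ≠ 0 := Finset.prod_ne_zero_iff.2 fun x _ => hbx x
  have hrel₀ : (C bv * u₁) * m₁ + (C bu * v₁) * derivative m₁ = C D₀ := by
    apply hmapinj
    rw [Polynomial.map_add, Polynomial.map_mul, Polynomial.map_mul, Polynomial.map_mul,
      Polynomial.map_mul, ← Polynomial.derivative_map, Polynomial.map_C, Polynomial.map_C,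
      Polynomial.map_C, hm₁', hu₁', hv₁', derivative_mul, derivative_C, zero_mul, zero_add, hD₀]
    have : C (algebraMap B K (bu * bv * bm))
        = C (algebraMap B K bu) * C (algebraMap B K bv) * C (algebraMap B K bm) := by
      simp only [map_mul]
    rw [this, ← mul_one (C (algebraMap B K bu) * C (algebraMap B K bv) * C (algebraMap B K bm)), ← huv]
    ring
  set D : B := D₀ * b₀ with hD
  have hDne : D ≠ 0 := mul_ne_zero hD0 hb0
  have hrel : (C b₀ * (C bv * u₁)) * m₁ + (C b₀ * (C bu * v₁)) * derivative m₁ = C D := by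
    rw [hD, map_mul, ← hrel₀]
    ring
  -- an integral point
  obtain ⟨r, hr⟩ : ∃ r : κ → ℤ, MvPolynomial.eval r D ≠ 0 := by
    by_contra hcon
    push Not at hcon
    exact hDne (MvPolynomial.funext (fun x => by rw [hcon x, map_zero]))
  have hbmr : MvPolynomial.eval r bm ≠ 0 := by
    intro h0; apply hr; rw [hD, hD₀, map_mul, map_mul, h0, mul_zero, zero_mul]
  -- the specialised polynomial
  set g : ℤ[X] := m₁.map (MvPolynomial.eval r) with hg
  have hdeg1 : m₁.natDegree = m.natDegree := by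
    have h1 : (m₁.map (algebraMap B K)).natDegree = m₁.natDegree :=
      Polynomial.natDegree_map_eq_of_injective (IsFractionRing.injective B K) _
    rw [← h1, hm₁', Polynomial.natDegree_C_mul]
    exact fun h => (nonZeroDivisors.ne_zero hbm) (IsFractionRing.injective B K (by rw [h, map_zero]))
  have hcoeff : m₁.coeff m.natDegree = bm := by
    apply IsFractionRing.injective B K
    have h2 : (m₁.map (algebraMap B K)).coeff m.natDegree = algebraMap B K bm := by
      rw [hm₁', coeff_C_mul]
      have : m.coeff m.natDegree = 1 := (minpoly.monic hint).coeff_natDegree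
      rw [this, mul_one]
    rwa [coeff_map] at h2
  have hgdeg : 0 < g.natDegree := by
    have h3 : g.coeff m.natDegree ≠ 0 := by
      rw [hg, coeff_map, hcoeff]; exact hbmr
    exact lt_of_lt_of_le (minpoly.natDegree_pos hint) (le_natDegree_of_ne_zero h3)
  have hinf := exists_root_mod_infinite hgdeg
  have hfin : {p : ℕ | (p : ℤ) ∣ MvPolynomial.eval r D}.Finite := by
    apply Set.Finite.subset (Set.finite_Icc 0 (MvPolynomial.eval r D).natAbs)
    intro p hp
    refine ⟨Nat.zero_le _, ?_⟩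
    exact Nat.le_of_dvd (Int.natAbs_pos.2 hr) (Int.natCast_dvd.1 hp)
  refine (hinf.diff hfin).mono ?_
  rintro p ⟨⟨hp, n, hn⟩, hpD⟩
  haveI : Fact p.Prime := ⟨hp⟩
  refine ⟨⟨hp⟩, ?_⟩
  obtain ⟨τ, hind, hclose⟩ := exists_algInd (p := p) (κ := κ) (fun j => (r j : ℤ_[p]))
  obtain ⟨b, hb⟩ := hensel_step r τ hclose m₁ (C b₀ * (C bv * u₁)) (C b₀ * (C bu * v₁)) D hrel
    hpD n hn
  -- the embedding of `K`
  set ετ : B →+* ℤ_[p] := MvPolynomial.eval₂Hom (Int.castRingHom ℤ_[p]) τ with hετ
  set ε' : B →+* ℚ_[p] := (PadicInt.Coe.ringHom).comp ετ with hε'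
  have hε'inj : Function.Injective ε' := by
    have h4 : AlgebraicIndependent ℤ (fun j => ((τ j : ℤ_[p]) : ℚ_[p])) :=
      hind.restrictScalars (RingHom.injective_int (algebraMap ℤ ℚ))
    have h5 : (ε' : B →+* ℚ_[p]) = (MvPolynomial.aeval (fun j => ((τ j : ℤ_[p]) : ℚ_[p])) :
        MvPolynomial κ ℤ →ₐ[ℤ] ℚ_[p]).toRingHom := by
      apply MvPolynomial.ringHom_ext
      · intro a; simp [ε', ετ]
      · intro j; simp [ε', ετ]
    rw [h5]
    exact h4
  set φ : K →+* ℚ_[p] := IsFractionRing.lift hε'inj with hφ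
  have hφB : ∀ x : B, φ (algebraMap B K x) = ε' x := fun x => IsFractionRing.lift_algebraMap hε'inj x
  have h7 : φ.comp (algebraMap B K) = (PadicInt.Coe.ringHom).comp ετ := RingHom.ext hφB
  have hroot : m.eval₂ φ (b : ℚ_[p]) = 0 := by
    have h6 : (m₁.map (algebraMap B K)).eval₂ φ (b : ℚ_[p]) = 0 := by
      rw [Polynomial.eval₂_map]
      rw [h7]
      have h8 := Polynomial.hom_eval₂ m₁ ετ (PadicInt.Coe.ringHom (p := p)) b
      rw [Polynomial.eval_map] at hb
      rw [hb, map_zero] at h8
      exact h8.symm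
    rw [hm₁', Polynomial.eval₂_mul, Polynomial.eval₂_C, hφB] at h6
    rcases mul_eq_zero.1 h6 with h9 | h9
    · exfalso
      exact (nonZeroDivisors.ne_zero hbm) (hε'inj (by rw [h9, map_zero]))
    · exact h9
  let f1 : AdjoinRoot m →+* ℚ_[p] := AdjoinRoot.lift φ (b : ℚ_[p]) hroot
  let f2 : AdjoinRoot m ≃ₐ[K] IntermediateField.adjoin K {θ} :=
    IntermediateField.adjoinRootEquivAdjoin K hint
  let f3 : IntermediateField.adjoin K {θ} ≃ₐ[K] (⊤ : IntermediateField K E) :=
    IntermediateField.equivOfEq hθ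
  let f4 : (⊤ : IntermediateField K E) ≃ₐ[K] E := IntermediateField.topEquiv
  let e : AdjoinRoot m ≃ₐ[K] E := (f2.trans f3).trans f4
  have he : e (AdjoinRoot.root m) = θ := by
    have h1 : f2 (AdjoinRoot.root m) = IntermediateField.AdjoinSimple.gen K θ :=
      IntermediateField.adjoinRootEquivAdjoin_apply_root K hint
    change f4 (f3 (f2 (AdjoinRoot.root m))) = θ
    rw [h1]
    rfl
  have he' : e.symm θ = AdjoinRoot.root m := by
    rw [← he, AlgEquiv.symm_apply_apply]
  let f : E →+* ℚ_[p] := f1.comp (e.symm : E →+* AdjoinRoot m)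
  have hfθ : f θ = (b : ℚ_[p]) := by
    change f1 (e.symm θ) = _
    rw [he']
    exact AdjoinRoot.lift_root hroot
  have hfK : f.comp (algebraMap K E) = φ := by
    ext c
    change f1 (e.symm (algebraMap K E c)) = _
    rw [AlgEquiv.commutes]
    exact AdjoinRoot.lift_of hroot
  refine ⟨f, fun x hx => ?_⟩
  have h10 : f (algebraMap K E (algebraMap B K (bx x)) * x) = ((((N x).eval₂ ετ b : ℤ_[p])) : ℚ_[p]) := by
    rw [hNx x]
    have h11 := Polynomial.hom_eval₂ ((N x).map (algebraMap B K)) (algebraMap K E) f θ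
    rw [hfK, hfθ] at h11
    rw [aeval_def, h11, Polynomial.eval₂_map, h7]
    exact (Polynomial.hom_eval₂ (N x) ετ (PadicInt.Coe.ringHom (p := p)) b).symm
  have h12 : f (algebraMap K E (algebraMap B K (bx x))) = ((ετ (bx x) : ℤ_[p]) : ℚ_[p]) := by
    have := congrArg (fun h : K →+* ℚ_[p] => h (algebraMap B K (bx x))) hfK
    exact this.trans (hφB _)
  have h13 : ‖ετ (bx x)‖ = 1 := by
    refine norm_eps r τ hclose (bx x) fun hdvd => hpD ?_
    refine hdvd.trans ?_
    rw [hD, map_mul]
    refine Dvd.dvd.mul_left ?_ _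
    rw [hb₀, map_prod]
    exact Finset.dvd_prod_of_mem _ hx
  rw [map_mul, h12] at h10
  have h14 : ‖((ετ (bx x) : ℤ_[p]) : ℚ_[p]) * f x‖ ≤ 1 := by
    rw [h10]
    exact PadicInt.norm_le_one _
  rwa [norm_mul, PadicInt.padic_norm_e_of_padicInt, h13, one_mul] at h14

theorem embed_core_units {κ : Type} [Finite κ] {E : Type} [Field E]
    [Algebra (FractionRing (MvPolynomial κ ℤ)) E]
    [FiniteDimensional (FractionRing (MvPolynomial κ ℤ)) E] (S : Finset E) :
    {p : ℕ | ∃ _ : Fact p.Prime, ∃ ψ : E →+* ℚ_[p], ∀ x ∈ S, x ≠ 0 → ‖ψ x‖ = 1}.Infinite := by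
  classical
  refine (embed_core_int (κ := κ) (S ∪ S.image fun x => x⁻¹)).mono ?_
  rintro p ⟨hp, ψ, h⟩
  refine ⟨hp, ψ, fun x hx hx0 => ?_⟩
  have h1 := h x (Finset.mem_union_left _ hx)
  have h2 := h x⁻¹ (Finset.mem_union_right _ (Finset.mem_image_of_mem _ hx))
  rw [map_inv₀, norm_inv] at h2
  have h3 : 0 < ‖ψ x‖ := norm_pos_iff.2 ((map_ne_zero ψ).2 hx0)
  refine le_antisymm h1 ?_
  exact (inv_le_one₀ h3).mp h2

theorem embed_units (s : Finset ℂ) :
    {p : ℕ | ∃ _ : Fact p.Prime, ∃ ψ : (IntermediateField.adjoin ℚ (s : Set ℂ)) →+* ℚ_[p],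
      ∀ x : IntermediateField.adjoin ℚ (s : Set ℂ), (x : ℂ) ∈ s → x ≠ 0 → ‖ψ x‖ = 1}.Infinite := by
  classical
  set E := IntermediateField.adjoin ℚ (s : Set ℂ) with hE
  haveI : Algebra.EssFiniteType ℚ E :=
    IntermediateField.essFiniteType_iff.2 ⟨s, rfl⟩
  obtain ⟨t, ht⟩ : ∃ t : Finset E, IsTranscendenceBasis ℚ ((↑) : t → E) := by
    obtain ⟨t0, ht0⟩ := IntermediateField.fg_top ℚ E
    haveI : Algebra.IsAlgebraic (Algebra.adjoin ℚ (t0 : Set E)) E := by
      rw [← IntermediateField.isAlgebraic_adjoin_iff_top, ht0, Algebra.isAlgebraic_iff_isIntegral]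
      refine Algebra.isIntegral_of_surjective IntermediateField.topEquiv.surjective
    have ⟨t, hts, ht⟩ := exists_isTranscendenceBasis_subset (R := ℚ) (t0 : Set E)
    lift t to Finset E using t0.finite_toSet.subset hts
    exact ⟨t, ht⟩
  let κ : Type := (t : Set E)
  let x : κ → E := fun i => i.1
  haveI : Finite κ := t.finite_toSet
  have hx : IsTranscendenceBasis ℚ x := ht
  have hxZ : AlgebraicIndependent ℤ x :=
    hx.1.restrictScalars (RingHom.injective_int (algebraMap ℤ ℚ))
  let ι : MvPolynomial κ ℤ →+* E := (MvPolynomial.aeval x : MvPolynomial κ ℤ →ₐ[ℤ] E).toRingHom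
  have hι : Function.Injective ι := hxZ
  let ψ : FractionRing (MvPolynomial κ ℤ) →+* E := IsFractionRing.lift hι
  letI : Algebra (FractionRing (MvPolynomial κ ℤ)) E := ψ.toAlgebra
  haveI hchar : CharZero (FractionRing (MvPolynomial κ ℤ)) := ψ.charZero_iff ψ.injective |>.2 inferInstance
  letI : Algebra ℚ (FractionRing (MvPolynomial κ ℤ)) := DivisionRing.toRatAlgebra
  haveI : IsScalarTower ℚ (FractionRing (MvPolynomial κ ℤ)) E :=
    IsScalarTower.of_algebraMap_eq' (Subsingleton.elim _ _)
  haveI : Algebra.IsAlgebraic (FractionRing (MvPolynomial κ ℤ)) E := by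
    refine (hx.isAlgebraic_iff (S := FractionRing (MvPolynomial κ ℤ))).2 (fun i => ?_)
    have h1 : x i = algebraMap (FractionRing (MvPolynomial κ ℤ)) E
        (algebraMap (MvPolynomial κ ℤ) _ (MvPolynomial.X i)) := by
      change x i = ψ _
      rw [IsFractionRing.lift_algebraMap hι]
      simp [ι]
    rw [h1]
    exact isAlgebraic_algebraMap _
  haveI : Algebra.EssFiniteType (FractionRing (MvPolynomial κ ℤ)) E :=
    Algebra.EssFiniteType.of_comp ℚ _ _
  haveI : FiniteDimensional (FractionRing (MvPolynomial κ ℤ)) E :=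
    Algebra.finite_of_essFiniteType_of_isAlgebraic
  let S : Finset E := s.preimage (fun y : E => (y : ℂ)) (fun a _ b _ h => Subtype.ext h)
  refine (embed_core_units (κ := κ) (E := E) S).mono ?_
  rintro p ⟨hp, f, hf⟩
  refine ⟨hp, f, fun y hy hy0 => hf y ?_ hy0⟩
  exact Finset.mem_preimage.2 hy

end Pool.Agent.Helper59.UQ
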