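import Pool.Agent.Helper59.UQ.Stable
import Pool.Agent.Helper59.UQ.ApproxFG
import Pool.Agent.Helper59.UQ.Units
import Pool.Agent.Helper59.UQ.Conv

/-!
# UQ-LEMMALR: specialisation of an infinite orbit of a rational map
-/

set_option autoImplicit false

namespace Pool.Agent.Helper59.UQ

open Polynomial Pool.Agent.Helper59.DML Pool.Agent.Helper59.DX Pool.Agent.Helper59.PR

/-- a finitely generated subalgebra of `ℂ` embeds into some `ℚ_p`, with finitely many given nonzero complex numbers which lie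
in the image of the algebra's field mapped to units; extra elements of `ℂ` allowed. -/
private theorem exists_padic {𝒜 : Type} [CommRing 𝒜] [Algebra ℚ 𝒜] [Algebra.FiniteType ℚ 𝒜] (ι : 𝒜 →+* ℂ)
    (hι : Function.Injective ι) (S : Finset ℂ) :
    ∃ (p : ℕ) (_ : Fact p.Prime) (L : Subfield ℂ) (ψ : L →+* ℚ_[p]) (h𝒜 : ∀ a, ι a ∈ L) (hS : ∀ x ∈ S, x ∈ L),
      ∀ x (hx : x ∈ S), x ≠ 0 → ‖ψ ⟨x, hS x hx⟩‖ = 1 := by
  classical
  obtain ⟨G, hG⟩ := (inferInstance : Algebra.FiniteType ℚ 𝒜).out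
  obtain ⟨s, hs⟩ : ∃ s : Finset ℂ, s = S ∪ G.image ι := ⟨_, rfl⟩
  obtain ⟨p, hp⟩ := (embed_units s).nonempty
  obtain ⟨hpf, ψ, hψ⟩ := hp
  have hmem : ∀ x ∈ s, x ∈ IntermediateField.adjoin ℚ (s : Set ℂ) := fun x hx =>
    IntermediateField.subset_adjoin ℚ _ (by exact_mod_cast hx)
  let ιa : 𝒜 →ₐ[ℚ] ℂ := ι.toRatAlgHom
  have h1 : ∀ a : 𝒜, ι a ∈ IntermediateField.adjoin ℚ (s : Set ℂ) := by
    intro a
    have ha : a ∈ Algebra.adjoin ℚ (G : Set 𝒜) := by rw [hG]; exact Algebra.mem_top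
    induction ha using Algebra.adjoin_induction with
    | mem x hx => exact hmem _ (by rw [hs]; exact Finset.mem_union_right _ (Finset.mem_image_of_mem _ (by exact_mod_cast hx)))
    | algebraMap r =>
      have : ι (algebraMap ℚ 𝒜 r) = algebraMap ℚ ℂ r := ιa.commutes r
      rw [this]
      exact IntermediateField.algebraMap_mem _ r
    | add x y _ _ hx hy => rw [map_add]; exact add_mem hx hy
    | mul x y _ _ hx hy => rw [map_mul]; exact mul_mem hx hy
  refine ⟨p, hpf, (IntermediateField.adjoin ℚ (s : Set ℂ)).toSubfield, ψ, h1, fun x hx => hmem x (by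
    rw [hs]; exact Finset.mem_union_left _ hx), fun x hx hx0 => ?_⟩
  have hxs : x ∈ s := by rw [hs]; exact Finset.mem_union_left _ hx
  exact hψ ⟨x, hmem x hxs⟩ hxs (fun h => hx0 (congrArg Subtype.val h))

theorem lemmaLR {𝒜 : Type} [CommRing 𝒜] [Algebra ℚ 𝒜] [Algebra.FiniteType ℚ 𝒜] (ι : 𝒜 →+* ℂ)
    (hι : Function.Injective ι) (A B : 𝒜[X]) {D : ℕ} (hD : max A.natDegree B.natDegree = D) (h1 : 1 ≤ D)
    (hcop : IsCoprime (A.map ι) (B.map ι)) (b : 𝒜)
    (horb : ∀ m n, m ≠ n → cross (vit D A B m (b, 1)) (vit D A B n (b, 1)) ≠ 0) (α : 𝒜) (hα : α ≠ 0) :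
    ∃ (K : Type) (_ : Field K) (_ : NumberField K) (s : 𝒜 →+* K), s α ≠ 0 ∧ ∀ m n, m ≠ n →
      cross (vit D (A.map s) (B.map s) m (s b, 1)) (vit D (A.map s) (B.map s) n (s b, 1)) ≠ 0 := by
  classical
  have hDι : max (A.map ι).natDegree (B.map ι).natDegree = D := by
    rw [Polynomial.natDegree_map_eq_of_injective hι, Polynomial.natDegree_map_eq_of_injective hι, hD]
  obtain ⟨u, w, hu, hw, e⟩ := exists_bez hcop hDι h1 (R := 1) (by simp)
  obtain ⟨u', w', hu', hw', e'⟩ := exists_bez hcop hDι h1 (R := X ^ (2 * D - 1)) (by simp)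
  -- the finite set of complex numbers
  obtain ⟨S, hS⟩ : ∃ S : Finset ℂ, S = u.coeffs ∪ (w.coeffs ∪ (u'.coeffs ∪ (w'.coeffs ∪ ((A.map ι).coeffs ∪
    ((B.map ι).coeffs ∪ {ι b}))))) := ⟨_, rfl⟩
  obtain ⟨p, hpf, L, ψ, h𝒜, hSL, hunit⟩ := exists_padic ι hι S
  have hle : ∀ x (hx : x ∈ S), ‖ψ ⟨x, hSL x hx⟩‖ ≤ 1 := by
    intro x hx
    by_cases h0 : x = 0
    · have : (⟨x, hSL x hx⟩ : L) = 0 := Subtype.ext h0
      rw [this, map_zero, norm_zero]
      exact zero_le_one
    · exact (hunit x hx h0).le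
  -- the embedding of `𝒜`
  obtain ⟨θ, hθ⟩ : ∃ θ : 𝒜 →+* L, ∀ a, ((θ a : L) : ℂ) = ι a := ⟨ι.codRestrict L h𝒜, fun a => rfl⟩
  obtain ⟨ψ₀, hψ₀⟩ : ∃ ψ₀ : 𝒜 →+* ℚ_[p], ψ₀ = ψ.comp θ := ⟨_, rfl⟩
  have hψ₀i : Function.Injective ψ₀ := by
    rw [hψ₀]
    intro x y hxy
    have h2 : θ x = θ y := ψ.injective hxy
    apply hι
    rw [← hθ, ← hθ, h2]
  -- polynomials over `L`
  have hlf : ∀ q : ℂ[X], (∀ i, q.coeff i ∈ L) → ∃ q' : L[X], q'.map L.subtype = q := by
    intro q hq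
    have h3 : q ∈ Polynomial.lifts L.subtype := by
      rw [Polynomial.lifts_iff_coeff_lifts]
      intro i
      exact ⟨⟨q.coeff i, hq i⟩, rfl⟩
    obtain ⟨q', hq'⟩ := (Polynomial.mem_lifts q).1 h3
    exact ⟨q', hq'⟩
  have hcoef : ∀ q : ℂ[X], q.coeffs ⊆ S → ∀ i, q.coeff i ∈ L := by
    intro q hq i
    by_cases h0 : q.coeff i = 0
    · rw [h0]; exact L.zero_mem
    · exact hSL _ (hq (Polynomial.coeff_mem_coeffs h0))
  have hLi : Function.Injective L.subtype := Subtype.val_injective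
  have hcle : ∀ (q : ℂ[X]), q.coeffs ⊆ S → ∀ q' : L[X], q'.map L.subtype = q → ∀ i, ‖(q'.map ψ).coeff i‖ ≤ 1 := by
    intro q hq q' hq' i
    rw [coeff_map]
    have h3 : L.subtype (q'.coeff i) = q.coeff i := by rw [← hq', coeff_map]
    by_cases h0 : q.coeff i = 0
    · have h4 : q'.coeff i = 0 := hLi (by rw [h3, h0, map_zero])
      rw [h4, map_zero, norm_zero]
      exact zero_le_one
    · have h4 : q.coeff i ∈ S := hq (Polynomial.coeff_mem_coeffs h0)
      have h5 : q'.coeff i = ⟨q.coeff i, hSL _ h4⟩ := hLi h3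
      rw [h5]
      exact hle _ h4
  have hsubu : u.coeffs ⊆ S := by rw [hS]; exact Finset.subset_union_left
  have hsubw : w.coeffs ⊆ S := by
    rw [hS]; exact Finset.subset_union_left.trans Finset.subset_union_right
  have hsubu' : u'.coeffs ⊆ S := by
    rw [hS]; exact (Finset.subset_union_left.trans Finset.subset_union_right).trans Finset.subset_union_right
  have hsubw' : w'.coeffs ⊆ S := by
    rw [hS]; exact ((Finset.subset_union_left.trans Finset.subset_union_right).trans Finset.subset_union_right).trans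
      Finset.subset_union_right
  have hsubA : (A.map ι).coeffs ⊆ S := by
    rw [hS]; exact (((Finset.subset_union_left.trans Finset.subset_union_right).trans
      Finset.subset_union_right).trans Finset.subset_union_right).trans Finset.subset_union_right
  have hsubB : (B.map ι).coeffs ⊆ S := by
    rw [hS]; exact ((((Finset.subset_union_left.trans Finset.subset_union_right).trans
      Finset.subset_union_right).trans Finset.subset_union_right).trans Finset.subset_union_right).trans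
      Finset.subset_union_right
  have hbS : ι b ∈ S := by
    rw [hS]
    simp
  obtain ⟨uL, huL⟩ := hlf u (hcoef u hsubu)
  obtain ⟨wL, hwL⟩ := hlf w (hcoef w hsubw)
  obtain ⟨uL', huL'⟩ := hlf u' (hcoef u' hsubu')
  obtain ⟨wL', hwL'⟩ := hlf w' (hcoef w' hsubw')
  have hAL : (A.map θ).map L.subtype = A.map ι := by
    rw [Polynomial.map_map]
    congr 1
    exact RingHom.ext hθ
  have hBL : (B.map θ).map L.subtype = B.map ι := by
    rw [Polynomial.map_map]
    congr 1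
    exact RingHom.ext hθ
  have eL : uL * A.map θ + wL * B.map θ = 1 := by
    apply Polynomial.map_injective _ hLi
    rw [Polynomial.map_add, Polynomial.map_mul, Polynomial.map_mul, huL, hwL, hAL, hBL, e, Polynomial.map_one]
  have eL' : uL' * A.map θ + wL' * B.map θ = X ^ (2 * D - 1) := by
    apply Polynomial.map_injective _ hLi
    rw [Polynomial.map_add, Polynomial.map_mul, Polynomial.map_mul, huL', hwL', hAL, hBL, e', Polynomial.map_pow,
      Polynomial.map_X]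
  have hAψ : (A.map θ).map ψ = A.map ψ₀ := by rw [Polynomial.map_map, hψ₀]
  have hBψ : (B.map θ).map ψ = B.map ψ₀ := by rw [Polynomial.map_map, hψ₀]
  have eK : uL.map ψ * A.map ψ₀ + wL.map ψ * B.map ψ₀ = 1 := by
    rw [← hAψ, ← hBψ, ← Polynomial.map_mul, ← Polynomial.map_mul, ← Polynomial.map_add, eL, Polynomial.map_one]
  have eK' : uL'.map ψ * A.map ψ₀ + wL'.map ψ * B.map ψ₀ = X ^ (2 * D - 1) := by
    rw [← hAψ, ← hBψ, ← Polynomial.map_mul, ← Polynomial.map_mul, ← Polynomial.map_add, eL', Polynomial.map_pow,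
      Polynomial.map_X]
  have hdeg : ∀ {q : ℂ[X]} {q' : L[X]}, q'.map L.subtype = q → q.natDegree ≤ D - 1 →
      (q'.map ψ).natDegree ≤ D - 1 := by
    intro q q' h3 h4
    rw [Polynomial.natDegree_map_eq_of_injective ψ.injective, ← Polynomial.natDegree_map_eq_of_injective hLi, h3]
    exact h4
  have hAle : ∀ i, ‖(A.map ψ₀).coeff i‖ ≤ 1 := fun i => by rw [← hAψ]; exact hcle _ hsubA _ hAL i
  have hBle : ∀ i, ‖(B.map ψ₀).coeff i‖ ≤ 1 := fun i => by rw [← hBψ]; exact hcle _ hsubB _ hBL i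
  have hAD : (A.map ψ₀).natDegree ≤ D := by
    rw [Polynomial.natDegree_map_eq_of_injective hψ₀i, ← hD]; exact le_max_left _ _
  have hBD : (B.map ψ₀).natDegree ≤ D := by
    rw [Polynomial.natDegree_map_eq_of_injective hψ₀i, ← hD]; exact le_max_right _ _
  -- the orbit in `ℚ_p`
  obtain ⟨v, hv⟩ : ∃ v : Fin 2 → ℚ_[p], v = ![ψ₀ b, 1] := ⟨_, rfl⟩
  have hb1 : ‖ψ₀ b‖ ≤ 1 := by
    have h3 : θ b = ⟨ι b, hSL _ hbS⟩ := Subtype.ext (hθ b)
    rw [hψ₀, RingHom.comp_apply, h3]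
    exact hle _ hbS
  have hv1 : ‖v‖ = 1 := by
    refine le_antisymm ((pi_norm_le_iff_of_nonneg zero_le_one).2 fun k => ?_) ?_
    · rw [hv]
      fin_cases k
      · exact hb1
      · simp
    · have := norm_le_pi_norm v 1
      rw [hv] at this ⊢
      simpa using this
  obtain ⟨c, hc⟩ : ∃ c : Fin 2 → Fin (D + 1) → ℚ_[p], c = cf D (A.map ψ₀) (B.map ψ₀) := ⟨_, rfl⟩
  have hcle' : ∀ k j, ‖c k j‖ ≤ 1 := by
    intro k j
    rw [hc]
    unfold cf
    split_ifs
    · exact hAle _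
    · exact hBle _
  have hprim : ∀ n, ‖(hlift c)^[n] v‖ = 1 := fun n => by
    rw [hc]
    exact prim_of_bez h1 hAD hBD hAle hBle (hcle _ hsubu _ huL) (hcle _ hsubw _ hwL) (hcle _ hsubu' _ huL')
      (hcle _ hsubw' _ hwL') (hdeg huL hu) (hdeg hwL hw) (hdeg huL' hu') (hdeg hwL' hw') eK eK' hv1 n
  have hinf : InfOrb c v := by
    rw [hc, infOrb_cf]
    intro m n hmn h0
    apply horb m n hmn
    apply hψ₀i
    rw [map_zero, ← h0]
    have h3 : ∀ n, vit D (A.map ψ₀) (B.map ψ₀) n (v 0, v 1) =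
        (ψ₀ (vit D A B n (b, 1)).1, ψ₀ (vit D A B n (b, 1)).2) := by
      intro n
      rw [← vit_map, hv]
      simp
    rw [h3, h3]
    unfold cross
    rw [map_sub, map_mul, map_mul]
  obtain ⟨T, δ, hδ, hstab⟩ := stable_orbit hcle' hprim hinf
  -- the algebra in `ℚ_p`
  obtain ⟨G, hG⟩ := (inferInstance : Algebra.FiniteType ℚ 𝒜).out
  obtain ⟨T', hT'⟩ : ∃ T' : Finset ℚ_[p], T' = T ∪ G.image ψ₀ := ⟨_, rfl⟩
  obtain ⟨R, hR⟩ : ∃ R : Subalgebra ℚ ℚ_[p], R = Algebra.adjoin ℚ (T' : Set ℚ_[p]) := ⟨_, rfl⟩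
  have hmem : ∀ x ∈ T', x ∈ R := fun x hx => by
    rw [hR]; exact Algebra.subset_adjoin (by exact_mod_cast hx)
  let ψa : 𝒜 →ₐ[ℚ] ℚ_[p] := ψ₀.toRatAlgHom
  have hmem𝒜 : ∀ a : 𝒜, ψ₀ a ∈ R := by
    intro a
    have ha : a ∈ Algebra.adjoin ℚ (G : Set 𝒜) := by rw [hG]; exact Algebra.mem_top
    induction ha using Algebra.adjoin_induction with
    | mem x hx => exact hmem _ (by rw [hT']; exact Finset.mem_union_right _ (Finset.mem_image_of_mem _ (by exact_mod_cast hx)))
    | algebraMap r =>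
      have : ψ₀ (algebraMap ℚ 𝒜 r) = algebraMap ℚ ℚ_[p] r := ψa.commutes r
      rw [this]
      exact R.algebraMap_mem r
    | add x y _ _ hx hy => rw [map_add]; exact R.add_mem hx hy
    | mul x y _ _ hx hy => rw [map_mul]; exact R.mul_mem hx hy
  obtain ⟨τ, hτ⟩ : ∃ τ : 𝒜 →+* R, ∀ a, ((τ a : R) : ℚ_[p]) = ψ₀ a := ⟨ψ₀.codRestrict R hmem𝒜, fun a => rfl⟩
  have happ : Approx p R := by rw [hR]; exact approx_fg T'
  have hα0 : ψ₀ α ≠ 0 := fun h => hα (hψ₀i (by rw [h, map_zero]))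
  obtain ⟨φ, halg, hφ⟩ := happ (T ∪ {ψ₀ α}) (min δ ‖ψ₀ α‖) (lt_min hδ (norm_pos_iff.2 hα0))
  have hfin : Algebra.FiniteType ℚ R := by
    rw [hR]
    exact Subalgebra.fg_iff_finiteType _ |>.1 ⟨T', rfl⟩
  obtain ⟨K, hK, hNF, s', j, hj⟩ := exists_nf φ halg
  have hji : Function.Injective j := j.injective
  refine ⟨K, hK, hNF, s'.comp τ, ?_, ?_⟩
  · intro h0
    have h3 : φ (τ α) = 0 := by rw [← hj]; rw [RingHom.comp_apply] at h0; rw [h0, map_zero]
    have h4 := hφ (τ α) (by rw [hτ]; exact Finset.mem_union_right _ (Finset.mem_singleton_self _))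
    rw [h3, hτ, zero_sub, norm_neg] at h4
    exact lt_irrefl _ (h4.trans_le (min_le_right _ _))
  · have hS2 := hstab R R.val.toRingHom φ Subtype.val_injective (fun k i => τ (cf D A B k i))
      (fun k => τ ((![b, 1] : Fin 2 → 𝒜) k)) (fun k i => by
        show ((τ (cf D A B k i) : R) : ℚ_[p]) = c k i
        rw [hτ, hc]
        unfold cf
        split_ifs
        · rw [coeff_map]
        · rw [coeff_map]) (fun k => by
        show ((τ ((![b, 1] : Fin 2 → 𝒜) k) : R) : ℚ_[p]) = v k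
        rw [hτ, hv]
        fin_cases k
        · rfl
        · simp) (fun y hy => ⟨⟨y, hmem y (by rw [hT']; exact Finset.mem_union_left _ hy)⟩, rfl⟩)
      (fun x hx => (hφ x (Finset.mem_union_left _ hx)).trans_le (min_le_left _ _))
    have e1 : (fun (k : Fin 2) (i : Fin (D + 1)) => φ (τ (cf D A B k i))) =
        cf D (A.map (φ.comp τ)) (B.map (φ.comp τ)) := by
      funext k i
      unfold cf
      split_ifs
      · rw [coeff_map]; rfl
      · rw [coeff_map]; rfl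
    have e2 : (fun k : Fin 2 => φ (τ ((![b, 1] : Fin 2 → 𝒜) k))) = ![φ (τ b), 1] := by
      funext k
      fin_cases k
      · rfl
      · simp
    rw [e1, e2, infOrb_cf] at hS2
    intro m n hmn h0
    refine hS2 m n hmn ?_
    have h3 : ∀ n, vit D (A.map (φ.comp τ)) (B.map (φ.comp τ)) n (φ (τ b), 1) =
        (j (vit D (A.map (s'.comp τ)) (B.map (s'.comp τ)) n ((s'.comp τ) b, 1)).1,
          j (vit D (A.map (s'.comp τ)) (B.map (s'.comp τ)) n ((s'.comp τ) b, 1)).2) := by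
      intro n
      rw [← vit_map, Polynomial.map_map, Polynomial.map_map, map_one]
      have e3 : j.comp (s'.comp τ) = φ.comp τ := RingHom.ext fun a => hj (τ a)
      rw [e3]
      congr 2
      exact (hj (τ b)).symm
    show cross (vit D (A.map (φ.comp τ)) (B.map (φ.comp τ)) m (φ (τ b), 1))
      (vit D (A.map (φ.comp τ)) (B.map (φ.comp τ)) n (φ (τ b), 1)) = 0
    rw [h3, h3]
    have h4 := congrArg j h0
    rw [map_zero] at h4
    rw [← h4]
    unfold cross
    rw [map_sub, map_mul, map_mul]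

end Pool.Agent.Helper59.UQ
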