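import Pool.Agent.Helper59.PR.Uneq

/-!
# UQ-NF2: two rational maps of different degrees over a number field

PROOF: the second case of the private theorem `unequal_nf` in `Pool/Agent/Helper59/PR/Uneq.lean` (read it; copy its private lemma `uneq_growth`), with `height_rat_le A₁ B₁` instead of `height_eval_le` for the coordinate of small degree.
-/

set_option autoImplicit false

namespace Pool.Agent.Helper59.UQ

open Polynomial Pool.Agent.Helper59.DX Pool.Agent.Helper59.PR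

private theorem uneq_growth {hx hy : ℕ → ℝ} {d e : ℕ} (hd : 1 ≤ d) (hde : d < e) {D C C1 C3 : ℝ}
    (hD : 0 ≤ D) (hC3 : 0 ≤ C3) (hx1 : ∀ n, hx (n + 1) ≤ d * hx n + C1)
    (hy1 : ∀ n, (e : ℝ) * hy n ≤ hy (n + 1) + C3) {n0 : ℕ} (hn0 : C3 + 1 ≤ hy n0) {S : Set ℕ}
    (hS : S.Infinite) (hle : ∀ n ∈ S, hy n ≤ D * hx n + C) : False := by
  have hd0 : (1 : ℝ) ≤ d := by exact_mod_cast hd
  have he2 : (2 : ℝ) ≤ e := by exact_mod_cast (by omega : 2 ≤ e)
  have he0 : (0 : ℝ) < e := by linarith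
  obtain ⟨C2, hC2a, hC2b, hC2c⟩ : ∃ C2 : ℝ, hx 0 ≤ C2 ∧ C1 ≤ C2 ∧ 0 ≤ C2 :=
    ⟨max (max (hx 0) C1) 0, le_trans (le_max_left _ _) (le_max_left _ _),
      le_trans (le_max_right _ _) (le_max_left _ _), le_max_right _ _⟩
  have hxn : ∀ n : ℕ, hx n ≤ C2 * (n + 1) * (d : ℝ) ^ n := by
    intro n
    induction n with
    | zero => simpa using hC2a
    | succ n ih =>
      have h1 : (1 : ℝ) ≤ (d : ℝ) ^ (n + 1) := one_le_pow₀ hd0
      have h2 : (d : ℝ) * hx n ≤ d * (C2 * (n + 1) * (d : ℝ) ^ n) :=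
        mul_le_mul_of_nonneg_left ih (by linarith)
      have h3 : C2 ≤ C2 * (d : ℝ) ^ (n + 1) := le_mul_of_one_le_right hC2c h1
      have h4 := hx1 n
      push_cast
      rw [pow_succ] at h1 h3 ⊢
      nlinarith
  have hyn : ∀ k : ℕ, (e : ℝ) ^ k + C3 ≤ hy (n0 + k) := by
    intro k
    induction k with
    | zero => simpa [add_comm] using hn0
    | succ k ih =>
      have h1 := hy1 (n0 + k)
      have h2 : (e : ℝ) * ((e : ℝ) ^ k + C3) ≤ e * hy (n0 + k) := mul_le_mul_of_nonneg_left ih he0.le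
      have h3 : 0 ≤ ((e : ℝ) - 2) * C3 := mul_nonneg (by linarith) hC3
      have h4 : n0 + (k + 1) = n0 + k + 1 := by ring
      rw [h4, pow_succ]
      nlinarith
  obtain ⟨r, hr⟩ : ∃ r : ℝ, r = (d : ℝ) / e := ⟨_, rfl⟩
  have hr0 : 0 ≤ r := by rw [hr]; positivity
  have hr1 : r < 1 := by
    rw [hr, div_lt_one he0]
    exact_mod_cast hde
  have habs : |r| < 1 := by rwa [abs_of_nonneg hr0]
  have t1 := tendsto_pow_const_mul_const_pow_of_abs_lt_one 1 habs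
  have t0 := tendsto_pow_const_mul_const_pow_of_abs_lt_one 0 habs
  have he' : |(e : ℝ)⁻¹| < 1 := by
    rw [abs_of_nonneg (by positivity)]
    exact inv_lt_one_of_one_lt₀ (by linarith)
  have t2 := tendsto_pow_const_mul_const_pow_of_abs_lt_one 0 he'
  have t3 : Filter.Tendsto (fun k : ℕ => D * C2 * (d : ℝ) ^ n0 * ((k : ℝ) ^ 1 * r ^ k +
      (n0 + 1) * ((k : ℝ) ^ 0 * r ^ k)) + C * ((k : ℝ) ^ 0 * (e : ℝ)⁻¹ ^ k)) Filter.atTop (nhds 0) := by
    have := ((t1.add (t0.const_mul ((n0 : ℝ) + 1))).const_mul (D * C2 * (d : ℝ) ^ n0)).add (t2.const_mul C)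
    simpa using this
  have t4 := (t3.eventually (gt_mem_nhds (show (0 : ℝ) < 1 by norm_num)))
  obtain ⟨K0, hK0⟩ := Filter.eventually_atTop.1 t4
  obtain ⟨n, hnS, hn⟩ := hS.exists_gt (n0 + K0)
  obtain ⟨k, rfl⟩ : ∃ k, n = n0 + k := ⟨n - n0, by omega⟩
  have h5 := hK0 k (by omega)
  have h6 := hle _ hnS
  have h7 := hyn k
  have h8 : D * hx (n0 + k) ≤ D * (C2 * ((n0 + k : ℕ) + 1) * (d : ℝ) ^ (n0 + k)) :=
    mul_le_mul_of_nonneg_left (hxn _) hD
  have hek : (0 : ℝ) < (e : ℝ) ^ k := by positivity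
  have h9 : (e : ℝ) ^ k ≤ D * (C2 * ((n0 + k : ℕ) + 1) * (d : ℝ) ^ (n0 + k)) + C := by linarith
  have h10 : (e : ℝ) ^ k * (D * C2 * (d : ℝ) ^ n0 * ((k : ℝ) ^ 1 * r ^ k +
      (n0 + 1) * ((k : ℝ) ^ 0 * r ^ k)) + C * ((k : ℝ) ^ 0 * (e : ℝ)⁻¹ ^ k))
      = D * (C2 * ((n0 + k : ℕ) + 1) * (d : ℝ) ^ (n0 + k)) + C := by
    have h11 : (e : ℝ) ^ k * r ^ k = (d : ℝ) ^ k := by
      rw [← mul_pow, hr]
      congr 1
      field_simp
    have h12 : (e : ℝ) ^ k * (e : ℝ)⁻¹ ^ k = 1 := by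
      rw [← mul_pow, mul_inv_cancel₀ he0.ne', one_pow]
    rw [pow_add]
    push_cast
    linear_combination (D * C2 * (d : ℝ) ^ n0 * ((k : ℝ) + n0 + 1)) * h11 + C * h12
  have h13 : (e : ℝ) ^ k * (D * C2 * (d : ℝ) ^ n0 * ((k : ℝ) ^ 1 * r ^ k +
      (n0 + 1) * ((k : ℝ) ^ 0 * r ^ k)) + C * ((k : ℝ) ^ 0 * (e : ℝ)⁻¹ ^ k)) < (e : ℝ) ^ k * 1 :=
    mul_lt_mul_of_pos_left h5 hek
  rw [h10] at h13
  linarith

theorem unequal_nf2 {K : Type} [Field K] [NumberField K] {A₁ B₁ A₂ B₂ : K[X]} {x y : ℕ → K}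
    (hcop : IsCoprime A₂ B₂) (hD : 1 ≤ max A₁.natDegree B₁.natDegree)
    (hlt : max A₁.natDegree B₁.natDegree < max A₂.natDegree B₂.natDegree) (hx : IsOrb A₁ B₁ x)
    (hy : IsOrb A₂ B₂ y) (hyinj : Function.Injective y) {P : K[X][X]} (hP : Irreducible P) (hPY : 1 ≤ P.natDegree) :
    {n | P.evalEval (x n) (y n) = 0}.Finite := by
  by_contra hinf
  have hS : {n | P.evalEval (x n) (y n) = 0}.Infinite := hinf
  have northcott : ∀ {z : ℕ → K}, Function.Injective z → ∀ C3 : ℝ,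
      ∃ n0, max C3 0 + 1 ≤ Height.logHeight₁ (z n0) := by
    intro z hz C3
    by_contra hcon
    push Not at hcon
    have hfin := NumberField.finite_setOfPred_logHeight₁_le (K := K) (max C3 0 + 1)
    exact Set.infinite_range_of_injective hz (hfin.subset (by
      rintro _ ⟨n, rfl⟩
      exact (hcon n).le))
  obtain ⟨C, hC⟩ := height_curve P (fun ξ => eval_X_ne_zero hP (by omega) ξ)
  obtain ⟨C1, hC1⟩ := height_rat_le A₁ B₁ (max A₁.natDegree B₁.natDegree) le_rfl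
  obtain ⟨C3, hC3⟩ := height_rat_ge A₂ B₂ hcop
  obtain ⟨n0, hn0⟩ := northcott hyinj C3
  refine uneq_growth (hx := fun n => Height.logHeight₁ (x n))
    (hy := fun n => Height.logHeight₁ (y n)) (C := C)
    (D := ((degX P : ℕ) : ℝ)) hD hlt (Nat.cast_nonneg _)
    (le_max_right C3 0) (C1 := C1) (fun n => ?_) (fun n => ?_) hn0 hS (fun n hn => ?_)
  · exact hC1 _ _ (hx n).1 (hx n).2
  · exact (hC3 _ _ (hy n).1 (hy n).2).trans (by linarith [le_max_left C3 0])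
  · exact hC _ _ hn

end Pool.Agent.Helper59.UQ
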