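import Pool.Agent.Helper59.UQ.Defs

/-!
# UQ-NOTOR: maps congruent to the identity have no torsion

One variable: `ι = Unit`. `Good`, `GMap`, `Cong`, `Dsc` from `Pool/Agent/Helper59/DML/Good.lean`.
(a) `Good.lipschitz`: induction on `Good` (products: `R t S t - R s S s = R t (S t - S s) + (R t - R s) S s`; inverses of functions of norm one: `u⁻¹ - v⁻¹ = (v - u) u⁻¹ v⁻¹`), values have norm at most one (`Good.norm_le`).
(b) `no_torsion`. `h t = t + p^2 S t` on the disc, `S` good. Suppose `h t ≠ t` and put `δ = ‖h t () - t ()‖ > 0`, `x_k = h^[k] t ()`. (1) `‖x_{k+1} - x_k‖ = δ`: `x_{k+1} - x_k = (x_k - x_{k-1}) + p^2 (S - S)`, `‖p^2 (S(x_k) - S(x_{k-1}))‖ ≤ ‖p^2‖ ‖x_k - x_{k-1}‖ < ‖x_k - x_{k-1}‖`. (2) `‖x_k - x_0‖ ≤ δ`.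
(3) `x_{k+1} - x_k = (x_1 - x_0) + e_k`, `e_k = p^2 (S(x_k) - S(x_0))`, `‖e_k‖ ≤ ‖p‖^2 δ`; so `x_q - x_0 = q (x_1 - x_0) + E`, `‖E‖ ≤ ‖p‖^2 δ`. (4) If `q` is prime then `‖(q : ℚ_p)‖ ≥ ‖p‖ > ‖p‖^2`, so `‖x_q - x_0‖ = ‖q‖ δ ≠ 0`: `h^[q] t ≠ t` for every prime `q`, for every `h` with `Cong (p^2) h id` and every `t` in the disc with
`h t ≠ t`. (5) Let `n > 0` with `h^[n] t = t`, `h t ≠ t`. Strong induction on `n`: `n = 1` is impossible; let `q` be a prime factor of `n`, `n = q m`, `H = h^[m]`, `Cong (p^2) H id` (`cong_iter`: compose), `H^[q] t = t`, so by (4) `H t = t`, i.e. `h^[m] t = t` with `m < n`: induction.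
(c) `cong_affine`. `g^[n] = A_n + B_n t mod p` with `A_n = a (1 + b + .. + b^(n-1))`, `B_n = b^n` (induction on `n`, as in `affine_iter` of `DML/Iter.lean` but with explicit `A_n`, `B_n`). For `n = p (p - 1)`: `‖b^(p-1) - 1‖ ≤ ‖p‖` (`b` is the image of a unit `u` of `ℤ_p`; `u^(p-1) - 1` lies in the kernel of
`PadicInt.toZMod` by `ZMod.pow_card_sub_one_eq_one`; `PadicInt.ker_toZMod`/norm `< 1` implies norm `≤ ‖p‖`, `PadicInt.norm_int_le_pow_iff_dvd`-type, `Padic.norm_le_pow_iff_norm_lt_pow_add_one`), so `‖b^n - 1‖ ≤ ‖p‖`; and `1 + b + .. + b^(n-1) = (∑_{i<p-1} b^i) (∑_{j<p} (b^(p-1))^j)`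
(`Finset.sum_range`, geometric sums) where the last factor is `p` modulo `p`, so of norm `≤ ‖p‖`.
-/

set_option autoImplicit false

namespace Pool.Agent.Helper59.UQ

open Pool.Agent.Helper59.DML

theorem good_lipschitz {K : Type*} [NormedField K] [IsUltrametricDist K] {R : (Unit → K) → K} (hR : Good R)
    {s t : Unit → K} (hs : s ∈ Dsc K Unit) (ht : t ∈ Dsc K Unit) : ‖R s - R t‖ ≤ ‖s () - t ()‖ := by
  induction hR with
  | const c hc => simp
  | proj i => exact le_rfl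
  | @add R S _ _ ih1 ih2 =>
    have e : R s + S s - (R t + S t) = (R s - R t) + (S s - S t) := by ring
    rw [e]
    exact (IsUltrametricDist.norm_add_le_max _ _).trans (max_le ih1 ih2)
  | @mul R S hR hS ih1 ih2 =>
    have e : R s * S s - R t * S t = R s * (S s - S t) + (R s - R t) * S t := by ring
    rw [e]
    refine (IsUltrametricDist.norm_add_le_max _ _).trans (max_le ?_ ?_)
    · rw [norm_mul]
      exact (mul_le_of_le_one_left (norm_nonneg _) (hR.norm_le s hs)).trans ih2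
    · rw [norm_mul]
      exact (mul_le_of_le_one_right (norm_nonneg _) (hS.norm_le t ht)).trans ih1
  | @inv R hR h ih =>
    have n1 : R s ≠ 0 := by
      have := h s hs
      intro h0; rw [h0] at this; simp at this
    have n2 : R t ≠ 0 := by
      have := h t ht
      intro h0; rw [h0] at this; simp at this
    have e : (R s)⁻¹ - (R t)⁻¹ = -(R s - R t) * ((R s)⁻¹ * (R t)⁻¹) := by
      field_simp
      ring
    rw [e, norm_mul, norm_neg, norm_mul, norm_inv, norm_inv, h s hs, h t ht]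
    simpa using ih

private theorem cong_iter {p : ℕ} [Fact p.Prime] {h : (Unit → ℚ_[p]) → (Unit → ℚ_[p])} (hg : GMap h)
    {x : ℚ_[p]} (hc : Cong x h (fun t => t)) (m : ℕ) : Cong x (h^[m]) (fun t => t) := by
  obtain ⟨r, hr, he⟩ := hc
  induction m with
  | zero => exact ⟨fun _ _ => 0, fun i => Good.const 0 (by simp), fun t _ i => by simp⟩
  | succ m ih =>
    obtain ⟨S, hS, hS2⟩ := ih
    refine ⟨fun t i => S t i + r (h^[m] t) i, fun i => (hS i).add ((hr i).comp (hg.iter m)),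
      fun t ht i => ?_⟩
    have e := hS2 t ht i
    have e2 := he _ (hg.iter_mem ht m) i
    simp only at e e2 ⊢
    rw [Function.iterate_succ_apply', e2, e]
    ring

private theorem prime_step {p : ℕ} [Fact p.Prime] {h : (Unit → ℚ_[p]) → (Unit → ℚ_[p])} (hg : GMap h)
    (hc : Cong ((p : ℚ_[p]) ^ 2) h (fun t => t)) {t : Unit → ℚ_[p]} (ht : t ∈ Dsc ℚ_[p] Unit)
    {q : ℕ} (hq : q.Prime) (hfix : h^[q] t = t) : h t = t := by
  obtain ⟨S, hS, he⟩ := hc
  by_contra hne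
  set δ : ℝ := ‖h t () - t ()‖ with hδ
  have hδ0 : 0 < δ := by
    rw [hδ, norm_pos_iff]
    intro h0
    apply hne
    funext i
    exact sub_eq_zero.1 h0
  set r : ℝ := ‖(p : ℚ_[p]) ^ 2‖ with hr
  have hr1 : r ≤ 1 := by
    rw [hr, norm_pow]
    exact pow_le_one₀ (norm_nonneg _) (norm_natCast_le_one' p)
  have hr0 : 0 ≤ r := norm_nonneg _
  have hX : ∀ k, h^[k] t ∈ Dsc ℚ_[p] Unit := fun k => hg.iter_mem ht k
  set D : ℕ → ℚ_[p] := fun k => (p : ℚ_[p]) ^ 2 * S (h^[k] t) () with hD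
  have hstep : ∀ k, h^[k + 1] t () = h^[k] t () + D k := by
    intro k
    rw [Function.iterate_succ_apply', he _ (hX k) ()]
  have hD0 : ‖D 0‖ = δ := by
    rw [hδ]
    have := hstep 0
    simp only [zero_add, Function.iterate_one, Function.iterate_zero, id_eq] at this
    rw [this]
    congr 1
    ring
  have hdiff : ∀ k, ‖D k - D 0‖ ≤ r * ‖h^[k] t () - t ()‖ := by
    intro k
    have e : D k - D 0 = (p : ℚ_[p]) ^ 2 * (S (h^[k] t) () - S t ()) := by
      rw [hD]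
      simp only [Function.iterate_zero, id_eq]
      ring
    rw [e, norm_mul]
    exact mul_le_mul_of_nonneg_left (good_lipschitz (hS ()) (hX k) ht) hr0
  have hball : ∀ k, ‖h^[k] t () - t ()‖ ≤ δ := by
    intro k
    induction k with
    | zero => simp [hδ0.le]
    | succ k ih =>
      have e : h^[k + 1] t () - t () = (h^[k] t () - t ()) + ((D k - D 0) + D 0) := by
        rw [hstep]; ring
      rw [e]
      refine (IsUltrametricDist.norm_add_le_max _ _).trans (max_le ih ?_)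
      refine (IsUltrametricDist.norm_add_le_max _ _).trans (max_le ?_ hD0.le)
      exact ((hdiff k).trans (mul_le_mul hr1 ih (norm_nonneg _) zero_le_one)).trans (one_mul δ).le
  have hE : ∀ k, ∃ E : ℚ_[p], ‖E‖ ≤ r * δ ∧ h^[k] t () - t () = (k : ℚ_[p]) * D 0 + E := by
    intro k
    induction k with
    | zero => exact ⟨0, by rw [norm_zero]; positivity, by simp⟩
    | succ k ih =>
      obtain ⟨E, hE1, hE2⟩ := ih
      refine ⟨E + (D k - D 0), ?_, ?_⟩
      · refine (IsUltrametricDist.norm_add_le_max _ _).trans (max_le hE1 ?_)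
        exact (hdiff k).trans (mul_le_mul_of_nonneg_left (hball k) hr0)
      · rw [hstep]
        push_cast
        linear_combination hE2
  obtain ⟨E, hE1, hE2⟩ := hE q
  rw [hfix, sub_self] at hE2
  have hE3 : (q : ℚ_[p]) * D 0 = -E := by linear_combination -hE2
  have h1 : ‖(q : ℚ_[p])‖ * δ ≤ r * δ := by
    rw [← hD0, ← norm_mul, hE3, norm_neg, hD0]
    exact hE1
  have h2 : ‖(q : ℚ_[p])‖ ≤ r := le_of_mul_le_mul_right h1 hδ0
  have h3 : ‖((q : ℤ) : ℚ_[p])‖ ≤ (p : ℝ) ^ (-(2 : ℕ) : ℤ) := by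
    refine le_trans ?_ (h2.trans (le_of_eq ?_))
    · simp
    · rw [hr, norm_pow, Padic.norm_p, zpow_neg, zpow_natCast, inv_pow]
  rw [Padic.norm_int_le_pow_iff_dvd] at h3
  have h4 : p ^ 2 ∣ q := by exact_mod_cast h3
  have hp : p.Prime := Fact.out
  have h5 : p ∣ q := (dvd_pow_self p two_ne_zero).trans h4
  have h6 : p = q := (Nat.prime_dvd_prime_iff_eq hp hq).1 h5
  subst h6
  have h7 := Nat.le_of_dvd hp.pos h4
  have h8 := hp.two_le
  nlinarith

theorem no_torsion {p : ℕ} [Fact p.Prime] {h : (Unit → ℚ_[p]) → (Unit → ℚ_[p])} (hg : GMap h)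
    (hc : Cong ((p : ℚ_[p]) ^ 2) h (fun t => t)) {t : Unit → ℚ_[p]} (ht : t ∈ Dsc ℚ_[p] Unit) {n : ℕ} (hn : 0 < n)
    (hfix : h^[n] t = t) : h t = t := by
  induction n using Nat.strong_induction_on with
  | _ n ih =>
    by_cases h1 : n = 1
    · subst h1
      exact hfix
    · have hq := Nat.minFac_prime h1
      obtain ⟨m, hm⟩ := Nat.minFac_dvd n
      have hm0 : 0 < m := by
        rcases Nat.eq_zero_or_pos m with h0 | h0
        · rw [h0, mul_zero] at hm; omega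
        · exact h0
      have hmn : m < n := by
        have := hq.two_le
        nlinarith
      refine ih m hmn hm0 ?_
      refine prime_step (hg.iter m) (cong_iter hg hc m) ht hq ?_
      rw [← Function.iterate_mul, mul_comm, ← hm]
      exact hfix

private theorem affine_it {p : ℕ} [Fact p.Prime] {g : (Unit → ℚ_[p]) → (Unit → ℚ_[p])} (hg : GMap g) {a b : ℚ_[p]}
    (hb : ‖b‖ = 1) (h : Cong (p : ℚ_[p]) g (fun t i => a + b * t i)) (n : ℕ) :
    Cong (p : ℚ_[p]) (g^[n]) (fun t i => a * (∑ j ∈ Finset.range n, b ^ j) + b ^ n * t i) := by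
  obtain ⟨r, hr, he⟩ := h
  induction n with
  | zero => exact ⟨fun _ _ => 0, fun i => Good.const 0 (by simp), fun t _ i => by simp⟩
  | succ n ih =>
    obtain ⟨S, hS, hS2⟩ := ih
    refine ⟨fun t i => b * S t i + r (g^[n] t) i, fun i => ((hS i).smul hb.le).add
      ((hr i).comp (hg.iter n)), fun t ht i => ?_⟩
    have e := hS2 t ht i
    have e2 := he _ (hg.iter_mem ht n) i
    simp only at e e2 ⊢
    rw [Function.iterate_succ_apply', e2, e, geom_sum_succ]
    ring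

private theorem exists_div {p : ℕ} [Fact p.Prime] {x : ℤ_[p]} (h : PadicInt.toZMod x = 0) :
    ∃ y : ℤ_[p], (x : ℚ_[p]) = (p : ℚ_[p]) * y := by
  have h1 : x ∈ RingHom.ker (PadicInt.toZMod (p := p)) := h
  rw [PadicInt.ker_toZMod, PadicInt.maximalIdeal_eq_span_p, Ideal.mem_span_singleton] at h1
  obtain ⟨y, hy⟩ := h1
  refine ⟨y, ?_⟩
  rw [hy]
  push_cast
  rfl

theorem cong_affine {p : ℕ} [Fact p.Prime] {g : (Unit → ℚ_[p]) → (Unit → ℚ_[p])} (hg : GMap g) {a b : ℚ_[p]}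
    (ha : ‖a‖ ≤ 1) (hb : ‖b‖ = 1) (h : Cong (p : ℚ_[p]) g (fun t i => a + b * t i)) :
    Cong (p : ℚ_[p]) (g^[p * (p - 1)]) (fun t => t) := by
  obtain ⟨S, hS, he⟩ := affine_it hg hb h (p * (p - 1))
  set β : ℤ_[p] := ⟨b, hb.le⟩ with hβ
  have hβu : IsUnit β := by
    rw [PadicInt.isUnit_iff]
    exact hb
  set c : ZMod p := PadicInt.toZMod β with hc
  have hc0 : c ≠ 0 := (hβu.map (PadicInt.toZMod (p := p))).ne_zero
  have hc1 : c ^ (p - 1) = 1 := ZMod.pow_card_sub_one_eq_one hc0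
  have hcn : c ^ (p * (p - 1)) = 1 := by rw [mul_comm, pow_mul, hc1, one_pow]
  obtain ⟨τ, hτ⟩ : ∃ y : ℤ_[p], ((β ^ (p * (p - 1)) - 1 : ℤ_[p]) : ℚ_[p]) = (p : ℚ_[p]) * y := by
    apply exists_div
    rw [map_sub, map_pow, ← hc, hcn, map_one, sub_self]
  obtain ⟨σ, hσ⟩ : ∃ y : ℤ_[p], ((∑ j ∈ Finset.range (p * (p - 1)), β ^ j : ℤ_[p]) : ℚ_[p]) =
      (p : ℚ_[p]) * y := by
    apply exists_div
    rw [map_sum]
    simp only [map_pow, ← hc]
    by_cases hc2 : c = 1
    · rw [hc2]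
      simp
    · have h1 := mul_geom_sum c (p * (p - 1))
      rw [hcn, sub_self] at h1
      exact (mul_eq_zero.1 h1).resolve_left (sub_ne_zero.2 hc2)
  have hτ' : b ^ (p * (p - 1)) = 1 + (p : ℚ_[p]) * τ := by
    rw [← hτ]
    push_cast
    ring
  have hσ' : ∑ j ∈ Finset.range (p * (p - 1)), b ^ j = (p : ℚ_[p]) * σ := by
    rw [← hσ, PadicInt.coe_sum]
    refine Finset.sum_congr rfl fun j _ => ?_
    push_cast
    rfl
  refine ⟨fun t i => a * (σ : ℚ_[p]) + (τ : ℚ_[p]) * t i + S t i, fun i =>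
    ((Good.const _ (norm_mul_le_one ha σ.2)).add ((Good.proj i).smul τ.2)).add (hS i),
    fun t ht i => ?_⟩
  rw [he t ht i, hτ', hσ']
  ring

end Pool.Agent.Helper59.UQ
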