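import Pool.Agent.Helper59.UQ.NoTor
import Pool.Agent.Helper59.UQ.Near

/-!
# UQ-NONATTR: preperiodic points of a residue cycle without critical points are periodic of bounded period

PROOF. Write `V_n = (hlift c)^[n] v`. As in the proof of `core` (`Pool/Agent/Helper59/DML/Core.lean`, read it; here there is only one coordinate, `ι = Unit`): `w` with `‖w k‖ ≤ 1`, `det2 v w = 1`; `exp_iter` and `chart` (with `p : ℚ_p`, `n = l`; closeness `‖det2 v (V_l)‖ ≤ ‖p‖` follows from `hcl`, norms in `ℚ_p`: `< 1` means `≤ ‖p‖`: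
`Padic.norm_le_pow_iff_norm_lt_pow_add_one` or `PadicInt`-lemmas) give a return map `g` (one variable), `g t = a + b t + p S t`, `‖b‖ = 1`, and `V_{l k} = μ_k (v + p g^[k](0) w)`, `μ_k ≠ 0` (`horb` in `core`). So `det2 V_{lk} V_{lk'} = μ_k μ_k' p (g^[k'](0) - g^[k](0))` vanishes iff `g^[k](0) = g^[k'](0)`.
Preperiodicity: `det2 V_m V_n = 0`, `m < n` (from `hpre`, symmetric). As `V_n ≠ 0` (norm one), `V_n = c V_m`, so `V_{n+i} ∼ V_{m+i}` for all `i` (`hlift_iter_smul`), hence `V_{m + i + (n-m) r} ∼ V_{m+i}`; with `r = l` and `m + i = l k`, `k = m`: `V_{l m} ∼ V_{l m + l (n-m)}`. So `g^[m](0) = g^[m + N](0)`, `N = n - m > 0`.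
`h := (g^[p (p-1)])^[p]`: `Cong (p^2) h id` by `cong_affine` and `cong_iter_p` (`DML/Good.lean`). `x := g^[m](0)`, `g^[N] x = x`, so `h^[N] x = x` (`h = g^[p (p-1) p]`, commuting iterates), `h x = x` by `no_torsion`. `g` is injective on the disc (`‖g s - g t‖ = ‖s - t‖`: `g s - g t = b (s - t) + p (S s - S t)`,
`good_lipschitz`), `h (g^[m] 0) = g^[m] (h 0)`, so `h 0 = 0`, i.e. `V_{l p (p-1) p} ∼ v`.
-/

set_option autoImplicit false

namespace Pool.Agent.Helper59.UQ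

open Pool.Agent.Helper59.DML

private theorem na_lt_one {p : ℕ} [Fact p.Prime] {z : ℚ_[p]} (hz : ‖z‖ < 1) : ‖z‖ ≤ ‖(p : ℚ_[p])‖ := by
  have h := (Padic.norm_le_pow_iff_norm_lt_pow_add_one z (-1)).2 (by simpa using hz)
  rw [Padic.norm_p]
  simpa using h

private theorem na_w {p : ℕ} [Fact p.Prime] {v : Fin 2 → ℚ_[p]} (hv : ‖v‖ = 1) :
    ∃ w : Fin 2 → ℚ_[p], (∀ k, ‖w k‖ ≤ 1) ∧ det2 v w = 1 := by
  have hk : ∀ k, ‖v k‖ ≤ 1 := fun k => (norm_le_pi_norm _ k).trans hv.le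
  have h2 : ‖v 0‖ = 1 ∨ ‖v 1‖ = 1 := by
    by_contra hcon
    push Not at hcon
    have h3 : ∀ k, ‖v k‖ < 1 := by
      intro k
      fin_cases k
      · exact lt_of_le_of_ne (hk 0) hcon.1
      · exact lt_of_le_of_ne (hk 1) hcon.2
    have := (pi_norm_lt_iff one_pos).2 h3
    linarith
  rcases h2 with h2 | h2
  · have hne : v 0 ≠ 0 := by intro h; rw [h] at h2; simp at h2
    refine ⟨![0, (v 0)⁻¹], fun k => ?_, ?_⟩
    · fin_cases k <;> simp [h2]
    · simp [det2, hne]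
  · have hne : v 1 ≠ 0 := by intro h; rw [h] at h2; simp at h2
    refine ⟨![-(v 1)⁻¹, 0], fun k => ?_, ?_⟩
    · fin_cases k <;> simp [h2]
    · simp [det2, hne]

private theorem na_det {p : ℕ} [Fact p.Prime] {v w : Fin 2 → ℚ_[p]} (hvw : det2 v w = 1) (μ ν x y : ℚ_[p]) :
    det2 (fun q => μ * (v q + (p : ℚ_[p]) * x * w q)) (fun q => ν * (v q + (p : ℚ_[p]) * y * w q)) =
      μ * ν * (p : ℚ_[p]) * (y - x) := by
  have e : v 0 * w 1 - v 1 * w 0 = 1 := hvw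
  simp only [det2]
  linear_combination (μ * ν * (p : ℚ_[p]) * (y - x)) * e

/-- a vector of norm one with vanishing determinant against another one is a multiple. -/
private theorem na_smul {p : ℕ} [Fact p.Prime] {u v : Fin 2 → ℚ_[p]} (hu : ‖u‖ = 1) (h : det2 u v = 0) :
    ∃ κ : ℚ_[p], v = fun k => κ * u k := by
  obtain ⟨w, -, hw⟩ := na_w hu
  have e : u 0 * w 1 - u 1 * w 0 = 1 := hw
  have h' : u 0 * v 1 - u 1 * v 0 = 0 := h
  refine ⟨v 0 * w 1 - v 1 * w 0, ?_⟩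
  funext k
  fin_cases k
  · simp only [Fin.zero_eta]
    linear_combination (-v 0) * e + w 0 * h'
  · simp only [Fin.mk_one]
    linear_combination (-v 1) * e + w 1 * h'

private theorem na_orb {p : ℕ} [Fact p.Prime] {d : ℕ} {c : Fin 2 → Fin (d + 1) → ℚ_[p]}
    {v : Fin 2 → ℚ_[p]} {m n : ℕ} (hmn : m < n) (hm : ‖(hlift c)^[m] v‖ = 1)
    (h : det2 ((hlift c)^[m] v) ((hlift c)^[n] v) = 0) (r j : ℕ) (hj : m ≤ j) :
    ∃ κ : ℚ_[p], (hlift c)^[j + (n - m) * r] v = fun k => κ * (hlift c)^[j] v k := by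
  obtain ⟨κ, hκ⟩ := na_smul hm h
  have step : ∀ j, m ≤ j → ∃ κ : ℚ_[p], (hlift c)^[j + (n - m)] v = fun k => κ * (hlift c)^[j] v k := by
    intro j hj
    refine ⟨κ ^ (d ^ (j - m)), ?_⟩
    have e1 : j + (n - m) = (j - m) + n := by omega
    have e2 : (hlift c)^[j] v = (hlift c)^[j - m] ((hlift c)^[m] v) := by
      rw [← Function.iterate_add_apply, Nat.sub_add_cancel hj]
    rw [e1, Function.iterate_add_apply, hκ, hlift_iter_smul, e2]
  induction r with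
  | zero => exact ⟨1, by funext k; simp⟩
  | succ r ih =>
    obtain ⟨κ1, h1⟩ := ih
    obtain ⟨κ2, h2⟩ := step (j + (n - m) * r) (by omega)
    refine ⟨κ2 * κ1, ?_⟩
    have e1 : j + (n - m) * (r + 1) = (j + (n - m) * r) + (n - m) := by ring
    rw [e1, h2, h1]
    funext k
    ring

private theorem na_inj {p : ℕ} [Fact p.Prime] {g : (Unit → ℚ_[p]) → ℚ_[p]} {a b : ℚ_[p]} {S : (Unit → ℚ_[p]) → ℚ_[p]}
    (hS : Good S) (hb : ‖b‖ = 1) (hg : ∀ t ∈ Dsc ℚ_[p] Unit, g t = a + b * t () + (p : ℚ_[p]) * S t)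
    {s t : Unit → ℚ_[p]} (hs : s ∈ Dsc ℚ_[p] Unit) (ht : t ∈ Dsc ℚ_[p] Unit) (h : g s = g t) : s = t := by
  have hlip := good_lipschitz hS hs ht
  rw [hg s hs, hg t ht] at h
  have e : b * (s () - t ()) = -((p : ℚ_[p]) * (S s - S t)) := by linear_combination h
  have hn : ‖s () - t ()‖ = ‖(p : ℚ_[p])‖ * ‖S s - S t‖ := by
    have := congrArg norm e
    rwa [norm_mul, hb, one_mul, norm_neg, norm_mul] at this
  have hp1 : ‖(p : ℚ_[p])‖ < 1 := Padic.norm_p_lt_one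
  have h0 : ‖s () - t ()‖ = 0 := by
    by_contra hne
    have hpos : 0 < ‖s () - t ()‖ := lt_of_le_of_ne (norm_nonneg _) (Ne.symm hne)
    have h1 : ‖(p : ℚ_[p])‖ * ‖S s - S t‖ ≤ ‖(p : ℚ_[p])‖ * ‖s () - t ()‖ :=
      mul_le_mul_of_nonneg_left hlip (norm_nonneg _)
    have h2 : ‖(p : ℚ_[p])‖ * ‖s () - t ()‖ < 1 * ‖s () - t ()‖ := mul_lt_mul_of_pos_right hp1 hpos
    linarith
  funext i
  exact sub_eq_zero.1 (norm_eq_zero.1 h0)

private theorem na_iter_inj {p : ℕ} [Fact p.Prime] {G : (Unit → ℚ_[p]) → (Unit → ℚ_[p])} (hG : GMap G)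
    (hinj : ∀ s ∈ Dsc ℚ_[p] Unit, ∀ t ∈ Dsc ℚ_[p] Unit, G s = G t → s = t) (m : ℕ) {s t : Unit → ℚ_[p]}
    (hs : s ∈ Dsc ℚ_[p] Unit) (ht : t ∈ Dsc ℚ_[p] Unit) (h : G^[m] s = G^[m] t) : s = t := by
  induction m with
  | zero => exact h
  | succ m ih =>
    rw [Function.iterate_succ_apply', Function.iterate_succ_apply'] at h
    exact ih (hinj _ (hG.iter_mem hs m) _ (hG.iter_mem ht m) h)

theorem nonattr {p : ℕ} [Fact p.Prime] {d : ℕ} {c : Fin 2 → Fin (d + 1) → ℚ_[p]} (hc : ∀ k j, ‖c k j‖ ≤ 1)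
    {v : Fin 2 → ℚ_[p]} (hv : ∀ n, ‖(hlift c)^[n] v‖ = 1) {l : ℕ} (hl : 0 < l)
    (hcl : ∀ k, ‖(hlift c)^[l] v k - v k‖ < 1) (hu : ∀ m < l, ‖jac c ((hlift c)^[m] v)‖ = 1)
    (hpre : ¬ InfOrb c v) : det2 v ((hlift c)^[l * (p * (p - 1) * p)] v) = 0 := by
  have hp1 : ‖(p : ℚ_[p])‖ < 1 := Padic.norm_p_lt_one
  have hpr : p.Prime := Fact.out
  have hpK : (p : ℚ_[p]) ≠ 0 := Nat.cast_ne_zero.2 hpr.ne_zero
  have hvk : ∀ k, ‖v k‖ ≤ 1 := fun k => (norm_le_pi_norm _ k).trans (hv 0).le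
  obtain ⟨w, hw1, hw2⟩ := na_w (hv 0)
  have hw2 : det2 v w = 1 := hw2
  -- the return map
  obtain ⟨u1, h1, h2⟩ := exp_iter (K := ℚ_[p]) (p := (p : ℚ_[p])) hp1.le () hc hvk hw1 hw2 l hu
  obtain ⟨g, X, a, b, S, hg, hS, ha, hb, hret⟩ := chart hpK hp1 h2 h1 hvk hw1 hw2 (by
    have e1 : det2 v ((hlift c)^[l] v) =
        v 0 * ((hlift c)^[l] v 1 - v 1) + -(v 1 * ((hlift c)^[l] v 0 - v 0)) := by
      simp only [det2]; ring
    have hml : ∀ {x y : ℚ_[p]}, ‖x‖ ≤ 1 → ‖y‖ ≤ ‖(p : ℚ_[p])‖ → ‖x * y‖ ≤ ‖(p : ℚ_[p])‖ := fun {x y} hx hy => by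
      rw [norm_mul]
      calc ‖x‖ * ‖y‖ ≤ 1 * ‖(p : ℚ_[p])‖ := mul_le_mul hx hy (norm_nonneg _) zero_le_one
        _ = _ := one_mul _
    rw [e1]
    refine (IsUltrametricDist.norm_add_le_max _ _).trans (max_le ?_ ?_)
    · exact hml (hvk 0) (na_lt_one (hcl 1))
    · rw [norm_neg]
      exact hml (hvk 1) (na_lt_one (hcl 0)))
  obtain ⟨G, hG⟩ : ∃ G : (Unit → ℚ_[p]) → (Unit → ℚ_[p]), G = fun t _ => g t := ⟨_, rfl⟩
  have hGa : ∀ t, G t () = g t := fun t => by rw [hG]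
  have hGm : GMap G := by rw [hG]; exact fun _ => hg
  have hGc : Cong (p : ℚ_[p]) G (fun t i => a + b * t i) := by
    rw [hG]
    exact ⟨fun t _ => S t, fun _ => hS, fun t ht _ => (hret t ht).1⟩
  have h00 : (fun _ => 0 : Unit → ℚ_[p]) ∈ Dsc ℚ_[p] Unit := fun i => by simp
  have horb : ∀ k, ∃ μ : ℚ_[p], μ ≠ 0 ∧ (hlift c)^[l * k] v =
      fun q => μ * (v q + (p : ℚ_[p]) * (G^[k] (fun _ => 0)) () * w q) := by
    intro k
    induction k with
    | zero => exact ⟨1, one_ne_zero, by funext q; simp⟩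
    | succ k ih =>
      obtain ⟨μ, hμ, e⟩ := ih
      have hmem := hGm.iter_mem h00 k
      refine ⟨μ ^ (d ^ l) * X (G^[k] (fun _ => 0)), mul_ne_zero (pow_ne_zero _ hμ)
        (hret _ hmem).2.1, ?_⟩
      have e1 : l * (k + 1) = l + l * k := by ring
      rw [e1, Function.iterate_add_apply, e, hlift_iter_smul]
      funext q
      rw [(hret _ hmem).2.2 q, Function.iterate_succ_apply', hGa]
      ring
  -- preperiodicity
  obtain ⟨m, n, hmn, hdet⟩ : ∃ m n, m < n ∧ det2 ((hlift c)^[m] v) ((hlift c)^[n] v) = 0 := by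
    unfold InfOrb at hpre
    push Not at hpre
    obtain ⟨m, n, hmn, h⟩ := hpre
    rcases Nat.lt_or_gt_of_ne hmn with h' | h'
    · exact ⟨m, n, h', h⟩
    · refine ⟨n, m, h', ?_⟩
      have h2 : (hlift c)^[m] v 0 * (hlift c)^[n] v 1 - (hlift c)^[m] v 1 * (hlift c)^[n] v 0 = 0 := h
      show (hlift c)^[n] v 0 * (hlift c)^[m] v 1 - (hlift c)^[n] v 1 * (hlift c)^[m] v 0 = 0
      linear_combination -h2
  obtain ⟨κ, hκ⟩ := na_orb hmn (hv m) hdet l (l * m) (Nat.le_mul_of_pos_left m hl)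
  have hidx : l * m + (n - m) * l = l * (m + (n - m)) := by ring
  rw [hidx] at hκ
  have hper : G^[m] (fun _ => 0) = G^[m + (n - m)] (fun _ => 0) := by
    obtain ⟨μ, hμ, e⟩ := horb m
    obtain ⟨ν, hν, e'⟩ := horb (m + (n - m))
    have h3 : det2 ((hlift c)^[l * m] v) ((hlift c)^[l * (m + (n - m))] v) = 0 := by
      rw [hκ]
      simp only [det2]
      ring
    rw [e, e', na_det hw2] at h3
    have h4 : G^[m + (n - m)] (fun _ => 0) () - G^[m] (fun _ => 0) () = 0 := by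
      rcases mul_eq_zero.1 h3 with h5 | h5
      · exact absurd h5 (mul_ne_zero (mul_ne_zero hμ hν) hpK)
      · exact h5
    funext i
    exact (sub_eq_zero.1 h4).symm
  -- no torsion
  obtain ⟨x, hx⟩ : ∃ x, x = G^[m] (fun _ => 0) := ⟨_, rfl⟩
  have hxm : x ∈ Dsc ℚ_[p] Unit := by rw [hx]; exact hGm.iter_mem h00 m
  have hfixN : G^[n - m] x = x := by
    rw [hx, ← Function.iterate_add_apply, Nat.add_comm (n - m) m]
    exact hper.symm
  have hK : G^[p * (p - 1) * p] = (G^[p * (p - 1)])^[p] := Function.iterate_mul _ _ _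
  have hCp := cong_affine hGm ha hb hGc
  have hCpp := cong_iter_p hpr.one_le (hGm.iter (p * (p - 1))) hCp
  rw [← hK] at hCpp
  have hfix : (G^[p * (p - 1) * p])^[n - m] x = x := by
    rw [← Function.iterate_mul, Nat.mul_comm (p * (p - 1) * p) (n - m), Function.iterate_mul]
    exact Function.iterate_fixed hfixN _
  have hhx := no_torsion (hGm.iter (p * (p - 1) * p)) hCpp hxm (by omega : 0 < n - m) hfix
  have hh0 : G^[p * (p - 1) * p] (fun _ => 0) = fun _ => 0 := by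
    refine na_iter_inj hGm ?_ m (hGm.iter_mem h00 _) h00 ?_
    · intro s hs t ht hst
      refine na_inj (a := a) (b := b) hS hb (fun t ht => (hret t ht).1) hs ht ?_
      have := congrFun hst ()
      rwa [hGa, hGa] at this
    · rw [← Function.iterate_add_apply, Nat.add_comm m, Function.iterate_add_apply, ← hx]
      exact hhx
  obtain ⟨μ, -, e⟩ := horb (p * (p - 1) * p)
  rw [e, hh0]
  simp only [det2]
  ring

end Pool.Agent.Helper59.UQ
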