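import Pool.Agent.Helper59.PR.Hom

/-!
# UQ-ORBSHIFT: from projective to affine orbits

`v_n = vit D A B n v`, pairwise not proportional. At most one `n` has `v_n.2 = 0` (if `v_m.2 = v_n.2 = 0` then `cross v_m v_n = 0`), so there is `n₁` with `v_n.2 ≠ 0` for `n ≥ n₁`; `y_m := v_{n₁+m}.1 / v_{n₁+m}.2`. `IsOrb` and injectivity: see the end of the proof of `uneq_R` in `Pool/Agent/Helper59/PR/Uneq.lean`
(`hstep`, `hYorb`, `hYinj`; copy). Here the hypothesis is either `hinf` (pairwise not proportional); `exists_affine` gives the statement for all `n ≥ n₁` for any such `n₁`.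
-/

set_option autoImplicit false

namespace Pool.Agent.Helper59.UQ

open Polynomial Pool.Agent.Helper59.DX Pool.Agent.Helper59.PR

theorem exists_snd_ne_zero {K : Type*} [Field K] {A B : K[X]} {D : ℕ} {v : K × K}
    (hinf : ∀ m n, m ≠ n → cross (vit D A B m v) (vit D A B n v) ≠ 0) :
    ∃ n₁, ∀ n, n₁ ≤ n → (vit D A B n v).2 ≠ 0 := by
  by_cases hex : ∃ m, (vit D A B m v).2 = 0
  · obtain ⟨m, hm⟩ := hex
    refine ⟨m + 1, fun n hn h => ?_⟩
    apply hinf m n (by omega)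
    unfold cross
    rw [hm, h]
    ring
  · push Not at hex
    exact ⟨0, fun n _ => hex n⟩

theorem isOrb_quot {K : Type*} [Field K] {A B : K[X]} {D : ℕ} (hD : max A.natDegree B.natDegree ≤ D) {v : K × K}
    {n₁ : ℕ} (h : ∀ n, n₁ ≤ n → (vit D A B n v).2 ≠ 0) :
    IsOrb A B (fun m => (vit D A B (n₁ + m) v).1 / (vit D A B (n₁ + m) v).2) := by
  have hAle : A.natDegree ≤ D := (le_max_left _ _).trans hD
  have hBle : B.natDegree ≤ D := (le_max_right _ _).trans hD
  have hn : ∀ m, (vit D A B (n₁ + m) v).2 ≠ 0 := fun m => h _ (by omega)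
  have hstep : ∀ m, (vit D A B (n₁ + (m + 1)) v).1 = (vit D A B (n₁ + m) v).2 ^ D *
        A.eval ((vit D A B (n₁ + m) v).1 / (vit D A B (n₁ + m) v).2) ∧
      (vit D A B (n₁ + (m + 1)) v).2 = (vit D A B (n₁ + m) v).2 ^ D *
        B.eval ((vit D A B (n₁ + m) v).1 / (vit D A B (n₁ + m) v).2) := by
    intro m
    have h1 : vit D A B (n₁ + (m + 1)) v = lft D A B (vit D A B (n₁ + m) v) := by
      rw [← add_assoc, vit_succ]
    rw [h1]
    constructor
    · show hm (RingHom.id K) D A _ _ = _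
      rw [hm_eq _ hAle _ (hn m)]
      rfl
    · show hm (RingHom.id K) D B _ _ = _
      rw [hm_eq _ hBle _ (hn m)]
      rfl
  intro m
  have h1 := hn (m + 1)
  rw [(hstep m).2] at h1
  have h2 : B.eval ((vit D A B (n₁ + m) v).1 / (vit D A B (n₁ + m) v).2) ≠ 0 :=
    right_ne_zero_of_mul h1
  have h3 : (vit D A B (n₁ + m) v).2 ^ D ≠ 0 := left_ne_zero_of_mul h1
  refine ⟨h2, ?_⟩
  change (vit D A B (n₁ + (m + 1)) v).1 / (vit D A B (n₁ + (m + 1)) v).2 *
    B.eval ((vit D A B (n₁ + m) v).1 / (vit D A B (n₁ + m) v).2) =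
    A.eval ((vit D A B (n₁ + m) v).1 / (vit D A B (n₁ + m) v).2)
  rw [(hstep m).1, (hstep m).2, mul_div_mul_left _ _ h3, div_mul_cancel₀ _ h2]

theorem quot_injective {K : Type*} [Field K] {A B : K[X]} {D : ℕ} {v : K × K}
    (hinf : ∀ m n, m ≠ n → cross (vit D A B m v) (vit D A B n v) ≠ 0) {n₁ : ℕ}
    (h : ∀ n, n₁ ≤ n → (vit D A B n v).2 ≠ 0) :
    Function.Injective (fun m => (vit D A B (n₁ + m) v).1 / (vit D A B (n₁ + m) v).2) := by
  have hn : ∀ m, (vit D A B (n₁ + m) v).2 ≠ 0 := fun m => h _ (by omega)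
  intro m n hmn
  by_contra hne
  apply hinf (n₁ + m) (n₁ + n) (by omega)
  change (vit D A B (n₁ + m) v).1 / (vit D A B (n₁ + m) v).2 =
    (vit D A B (n₁ + n) v).1 / (vit D A B (n₁ + n) v).2 at hmn
  rw [div_eq_div_iff (hn m) (hn n)] at hmn
  unfold cross
  linear_combination hmn

end Pool.Agent.Helper59.UQ
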