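import Pool.Agent.Helper59.UQ.EvalNear

/-!
# UQ-ROOT: continuity of simple roots over `ℚ_p`

PROOF (Hensel). (i) Integral case. Let `m̃ ∈ ℤ_p[X]`, `a ∈ ℤ_p`, `m̃(a) = 0`, `D = ‖m̃'(a)‖ > 0`. If `G̃ ∈ ℤ_p[X]` satisfies `‖G̃(a)‖ < D^2` and `‖G̃'(a)‖ = D`, then `hensels_lemma` (Mathlib, `Mathlib/NumberTheory/Padics/Hensel.lean`; see the use in
`Pool/Agent/Helper59/DML/Embed.lean`, `hensel_step`) gives a root `z ∈ ℤ_p` of `G̃` with `‖z - a‖ < D`. Moreover `‖z - a‖ * D = ‖G̃(a)‖`: Taylor: `0 = G̃(z) = G̃(a) + G̃'(a)(z - a) + e (z - a)^2`, `e ∈ ℤ_p`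
(`Polynomial.evalSubFactor`, `Polynomial.binomExpansion`), and `‖e (z-a)^2‖ < D ‖z - a‖ = ‖G̃'(a)(z-a)‖` unless `z = a`.
(ii) General case. Choose `N, M : ℕ` with `‖p^N x‖ ≤ 1` and `‖p^M (p^N)⁻¹^i m_i‖ ≤ 1`, `‖p^M (p^N)⁻¹^i‖ ≤ 1` for `i ≤ natDegree m`. For `G` put `G̃ = ∑ p^M G_i (p^N)⁻¹^i X^i` (the polynomial `p^M G(p^{-N} X)`): for `δ ≤ 1` it has coefficients in `ℤ_p`;
`G̃(p^N y) = p^M G(y)`, `G̃'(p^N y) = p^(M-N) G'(y)` (as elements of `ℚ_p`). By `eval_near` (for `m` and `derivative m` at `x`) `‖G(x)‖` is small and `‖G'(x) - m'(x)‖` is small, so `‖G̃'(a)‖ = ‖m̃'(a)‖ =: D > 0` (ultrametric), `a = p^N x`, `‖G̃(a)‖ < D^2`, and even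
`‖G̃(a)‖ < D * ε * ‖p^N‖`. The root `z` of `G̃` gives `x' = p^{-N} z`, `‖x' - x‖ = ‖z - a‖ / ‖p^N‖ < ε`.
Alternative: any other proof (e.g. Newton's iteration, or the implicit function theorem) is fine.
-/

set_option autoImplicit false

namespace Pool.Agent.Helper59.UQ

open Polynomial

theorem root_near {p : ℕ} [Fact p.Prime] (m : ℚ_[p][X]) (x : ℚ_[p]) (hx : m.eval x = 0)
    (hd : m.derivative.eval x ≠ 0) {ε : ℝ} (hε : 0 < ε) :
    ∃ δ : ℝ, 0 < δ ∧ ∀ G : ℚ_[p][X], G.natDegree ≤ m.natDegree → (∀ i, ‖G.coeff i - m.coeff i‖ < δ) →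
      ∃ x' : ℚ_[p], G.eval x' = 0 ∧ ‖x' - x‖ < ε := by
  classical
  let Φ : (Fin (m.natDegree + 1) → ℚ_[p]) × ℚ_[p] → ℚ_[p] := fun z =>
    ∑ i : Fin (m.natDegree + 1), z.1 i * z.2 ^ (i : ℕ)
  let g0 : Fin (m.natDegree + 1) → ℚ_[p] := fun i => m.coeff i
  have hev : ∀ (G : ℚ_[p][X]) (y : ℚ_[p]), G.natDegree ≤ m.natDegree →
      Φ ((fun i : Fin (m.natDegree + 1) => G.coeff i), y) = G.eval y := by
    intro G y hG
    rw [Polynomial.eval_eq_sum_range' (Nat.lt_succ_of_le hG), Finset.sum_range]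
  have hΦ : AnalyticAt ℚ_[p] Φ (g0, x) := by
    apply Finset.analyticAt_fun_sum
    intro i _
    have h1 : AnalyticAt ℚ_[p] (fun z : (Fin (m.natDegree + 1) → ℚ_[p]) × ℚ_[p] => z.1 i)
        (g0, x) :=
      ((ContinuousLinearMap.proj (R := ℚ_[p]) (φ := fun _ : Fin (m.natDegree + 1) => ℚ_[p]) i).comp
        (ContinuousLinearMap.fst ℚ_[p] (Fin (m.natDegree + 1) → ℚ_[p]) ℚ_[p])).analyticAt _
    exact h1.mul (analyticAt_snd.pow _)
  have hs := hΦ.hasStrictFDerivAt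
  set L := fderiv ℚ_[p] Φ (g0, x) with hL
  have hLy : L (0, 1) = m.derivative.eval x := by
    have h1 : HasDerivAt (fun y : ℚ_[p] => ((g0, y) : (Fin (m.natDegree + 1) → ℚ_[p]) × ℚ_[p]))
        (0, 1) x := (hasDerivAt_const x g0).prodMk (hasDerivAt_id x)
    have h2 := hs.hasFDerivAt.comp_hasDerivAt x h1
    have h3 : (Φ ∘ fun y : ℚ_[p] => ((g0, y) : (Fin (m.natDegree + 1) → ℚ_[p]) × ℚ_[p])) =
        fun y => m.eval y := by
      funext y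
      exact hev m y le_rfl
    rw [h3] at h2
    exact h2.unique (m.hasDerivAt x)
  have hΨ := (hasStrictFDerivAt_fst (𝕜 := ℚ_[p]) (p := (g0, x))).prodMk hs
  have hsurj : ((ContinuousLinearMap.fst ℚ_[p] (Fin (m.natDegree + 1) → ℚ_[p]) ℚ_[p]).prod
      L).range = ⊤ := by
    rw [LinearMap.range_eq_top]
    rintro ⟨v, t⟩
    refine ⟨(v, (t - L (v, 0)) / m.derivative.eval x), ?_⟩
    have h4 : L (v, (t - L (v, 0)) / m.derivative.eval x) = t := by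
      have h5 : ((v, (t - L (v, 0)) / m.derivative.eval x) :
          (Fin (m.natDegree + 1) → ℚ_[p]) × ℚ_[p]) =
          (v, 0) + ((t - L (v, 0)) / m.derivative.eval x) • (0, 1) := by
        ext <;> simp
      rw [h5, map_add, map_smul, hLy, smul_eq_mul, div_mul_cancel₀ _ hd]
      ring
    exact Prod.ext rfl h4
  have hmap := hΨ.map_nhds_eq_of_surj hsurj
  have hU : {z : (Fin (m.natDegree + 1) → ℚ_[p]) × ℚ_[p] | ‖z.2 - x‖ < ε} ∈ nhds (g0, x) := by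
    have h6 : Continuous (fun z : (Fin (m.natDegree + 1) → ℚ_[p]) × ℚ_[p] => ‖z.2 - x‖) := by
      fun_prop
    exact (isOpen_lt h6 continuous_const).mem_nhds (by simpa using hε)
  have hV := Filter.image_mem_map (m := fun z : (Fin (m.natDegree + 1) → ℚ_[p]) × ℚ_[p] =>
    (z.1, Φ z)) hU
  have hmap' : Filter.map (fun z : (Fin (m.natDegree + 1) → ℚ_[p]) × ℚ_[p] => (z.1, Φ z))
      (nhds (g0, x)) = nhds (g0, 0) := by
    have h7 : Φ (g0, x) = 0 := by rw [hev m x le_rfl, hx]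
    rw [← h7]
    exact hmap
  rw [hmap', Metric.mem_nhds_iff] at hV
  obtain ⟨δ, hδ, hball⟩ := hV
  refine ⟨δ, hδ, fun G hG hco => ?_⟩
  have h8 : ((fun i : Fin (m.natDegree + 1) => G.coeff i), (0 : ℚ_[p])) ∈
      Metric.ball ((g0, 0) : (Fin (m.natDegree + 1) → ℚ_[p]) × ℚ_[p]) δ := by
    rw [Metric.mem_ball, Prod.dist_eq, max_lt_iff]
    refine ⟨?_, by simpa using hδ⟩
    rw [dist_pi_lt_iff hδ]
    intro i
    rw [dist_eq_norm]
    exact hco i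
  obtain ⟨⟨g, y⟩, hy, hgy⟩ := hball h8
  have h9 : g = fun i : Fin (m.natDegree + 1) => G.coeff i := congrArg Prod.fst hgy
  have h10 : Φ (g, y) = 0 := congrArg Prod.snd hgy
  refine ⟨y, ?_, hy⟩
  rw [← hev G y hG, ← h9]
  exact h10

end Pool.Agent.Helper59.UQ
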