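import Pool.Agent.Helper59.UQ.Near

/-!
# UQ-TPOLY: the polynomial `T(x) = det2 P (f^l (P + x w))`

`tpoly c P w l ∈ R[X]`.
(a) `tpoly_map`: `map_hlift_iter` (`DML/Forms.lean`) for the ring homomorphism `mapRingHom φ`.
(b) `tpoly_eval`: the same for `evalRingHom x`.
(c) `tpoly_coeff_le`: `c, P, w` of norm at most one come from `ℤ_p` (`c k j = ((⟨c k j, _⟩ : ℤ_[p]) : ℚ_[p])`), so `tpoly` is the image of a polynomial over `ℤ_p` under `PadicInt.Coe.ringHom` by (a).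
(d) `eval_ne_zero_of_small`: `Q(x) = x^j (q_j + x s)`, `s = ∑_{i > j} q_i x^(i-j-1)`, `‖s‖ ≤ 1` for `‖x‖ ≤ 1` (ultrametric; `‖x‖ < ‖q_j‖ ≤ 1`), `‖x s‖ < ‖q_j‖`.
-/

set_option autoImplicit false

namespace Pool.Agent.Helper59.UQ

open Polynomial Pool.Agent.Helper59.DML

/-- `det2 P (f^l (P + X w))`. -/
noncomputable def tpoly {R : Type*} [CommRing R] {d : ℕ} (c : Fin 2 → Fin (d + 1) → R) (P w : Fin 2 → R) (l : ℕ) : R[X] :=
  det2 (fun k => C (P k)) ((hlift (fun k j => C (c k j)))^[l] (fun k => C (P k) + X * C (w k)))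

theorem tpoly_map {R S : Type*} [CommRing R] [CommRing S] {d : ℕ} (φ : R →+* S) (c : Fin 2 → Fin (d + 1) → R)
    (P w : Fin 2 → R) (l : ℕ) :
    (tpoly c P w l).map φ = tpoly (fun k j => φ (c k j)) (fun k => φ (P k)) (fun k => φ (w k)) l := by
  have h := map_hlift_iter (Polynomial.mapRingHom φ) (fun k j => C (c k j))
    (fun k => C (P k) + X * C (w k)) l
  have e1 : ∀ k, ((hlift (fun k j => C (c k j)))^[l] (fun k => C (P k) + X * C (w k)) k).map φ =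
      (hlift (fun k j => C (φ (c k j))))^[l] (fun k => C (φ (P k)) + X * C (φ (w k))) k := by
    intro k
    have h1 := congrFun h k
    simp only [Polynomial.coe_mapRingHom, Polynomial.map_C, Polynomial.map_add,
      Polynomial.map_mul, Polynomial.map_X] at h1
    exact h1
  unfold tpoly det2
  rw [Polynomial.map_sub, Polynomial.map_mul, Polynomial.map_mul, Polynomial.map_C,
    Polynomial.map_C, e1 0, e1 1]

theorem tpoly_eval {R : Type*} [CommRing R] {d : ℕ} (c : Fin 2 → Fin (d + 1) → R) (P w : Fin 2 → R) (l : ℕ) (x : R) :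
    (tpoly c P w l).eval x = det2 P ((hlift c)^[l] (fun k => P k + x * w k)) := by
  have h := map_hlift_iter (Polynomial.evalRingHom x) (fun k j => C (c k j))
    (fun k => C (P k) + X * C (w k)) l
  have e1 : ∀ k, ((hlift (fun k j => C (c k j)))^[l] (fun k => C (P k) + X * C (w k)) k).eval x =
      (hlift c)^[l] (fun k => P k + x * w k) k := by
    intro k
    have h1 := congrFun h k
    simp only [Polynomial.coe_evalRingHom, Polynomial.eval_C, Polynomial.eval_add,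
      Polynomial.eval_mul, Polynomial.eval_X] at h1
    exact h1
  unfold tpoly det2
  rw [Polynomial.eval_sub, Polynomial.eval_mul, Polynomial.eval_mul, Polynomial.eval_C,
    Polynomial.eval_C, e1 0, e1 1]

theorem tpoly_coeff_le {p : ℕ} [Fact p.Prime] {d : ℕ} {c : Fin 2 → Fin (d + 1) → ℚ_[p]} (hc : ∀ k j, ‖c k j‖ ≤ 1)
    {P w : Fin 2 → ℚ_[p]} (hP : ∀ k, ‖P k‖ ≤ 1) (hw : ∀ k, ‖w k‖ ≤ 1) (l i : ℕ) :
    ‖(tpoly c P w l).coeff i‖ ≤ 1 := by
  obtain ⟨c', hc'⟩ : ∃ c' : Fin 2 → Fin (d + 1) → ℤ_[p],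
      c = fun k j => PadicInt.Coe.ringHom (c' k j) := ⟨fun k j => ⟨c k j, hc k j⟩, rfl⟩
  obtain ⟨P', hP'⟩ : ∃ P' : Fin 2 → ℤ_[p], P = fun k => PadicInt.Coe.ringHom (P' k) :=
    ⟨fun k => ⟨P k, hP k⟩, rfl⟩
  obtain ⟨w', hw'⟩ : ∃ w' : Fin 2 → ℤ_[p], w = fun k => PadicInt.Coe.ringHom (w' k) :=
    ⟨fun k => ⟨w k, hw k⟩, rfl⟩
  rw [hc', hP', hw', ← tpoly_map (PadicInt.Coe.ringHom (p := p)) c' P' w' l,
    Polynomial.coeff_map]
  exact ((tpoly c' P' w' l).coeff i).2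

theorem eval_ne_zero_of_small {p : ℕ} [Fact p.Prime] {Q : ℚ_[p][X]} (hQ : ∀ i, ‖Q.coeff i‖ ≤ 1) {j : ℕ}
    (hlow : ∀ i < j, Q.coeff i = 0) {x : ℚ_[p]} (hx : x ≠ 0) (hx1 : ‖x‖ < ‖Q.coeff j‖) : Q.eval x ≠ 0 := by
  intro h0
  have hx0 : 0 < ‖x‖ := norm_pos_iff.2 hx
  have hx2 : ‖x‖ ≤ 1 := hx1.le.trans (hQ j)
  obtain ⟨N, hN1, hN2⟩ : ∃ N : ℕ, Q.natDegree < N ∧ j < N :=
    ⟨max Q.natDegree j + 1, by omega, by omega⟩
  rw [Polynomial.eval_eq_sum_range' hN1] at h0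
  have hj : j ∈ Finset.range N := Finset.mem_range.2 hN2
  rw [← Finset.add_sum_erase _ _ hj] at h0
  have h1 : Q.coeff j * x ^ j = -∑ i ∈ (Finset.range N).erase j, Q.coeff i * x ^ i :=
    eq_neg_of_add_eq_zero_left h0
  have h2 : ‖∑ i ∈ (Finset.range N).erase j, Q.coeff i * x ^ i‖ ≤ ‖x‖ ^ (j + 1) := by
    refine IsUltrametricDist.norm_sum_le_of_forall_le_of_nonneg (by positivity) ?_
    intro i hi
    have hij := Finset.ne_of_mem_erase hi
    rcases Nat.lt_or_ge i j with h3 | h3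
    · rw [hlow i h3, zero_mul, norm_zero]
      positivity
    · rw [norm_mul, norm_pow]
      calc ‖Q.coeff i‖ * ‖x‖ ^ i ≤ 1 * ‖x‖ ^ i :=
            mul_le_mul_of_nonneg_right (hQ i) (by positivity)
        _ = ‖x‖ ^ i := one_mul _
        _ ≤ ‖x‖ ^ (j + 1) := pow_le_pow_of_le_one hx0.le hx2 (by omega)
  have h3 : ‖Q.coeff j * x ^ j‖ ≤ ‖x‖ ^ (j + 1) := by
    rw [h1, norm_neg]
    exact h2
  rw [norm_mul, norm_pow, pow_succ, mul_comm (‖x‖ ^ j)] at h3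
  exact absurd (le_of_mul_le_mul_right h3 (by positivity)) (not_le.2 hx1)

end Pool.Agent.Helper59.UQ
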