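import Pool.Agent.Helper59.UQ.NonAttr
import Pool.Agent.Helper59.UQ.AttrStep
import Pool.Agent.Helper59.UQ.TPoly
import Pool.Agent.Helper59.DML.Iter

/-!
# UQ-STABLE: infinite orbits are stable under `p`-adically small perturbations
-/

set_option autoImplicit false

namespace Pool.Agent.Helper59.UQ

open Polynomial Pool.Agent.Helper59.DML

section
variable {K : Type*} [NormedField K] [IsUltrametricDist K]

private theorem norm_le_of_near {a a' : K} (ha : ‖a‖ ≤ 1) (h : ‖a' - a‖ ≤ 1) : ‖a'‖ ≤ 1 := by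
  have e : a' = a + (a' - a) := by ring
  rw [e]
  exact norm_add_le_one ha h

private theorem norm_eq_of_near {a a' : K} (h : ‖a' - a‖ < ‖a‖) : ‖a'‖ = ‖a‖ := by
  have e : a' = a + (a' - a) := by ring
  rw [e, IsUltrametricDist.norm_add_eq_max_of_norm_ne_norm h.ne']
  exact max_eq_left h.le

private theorem ne_zero_of_near {a a' : K} (h : ‖a' - a‖ < ‖a‖) : a' ≠ 0 := by
  rintro rfl
  rw [zero_sub, norm_neg] at h
  exact lt_irrefl _ h

private theorem vec_norm_one {v : Fin 2 → K} (h1 : ∀ k, ‖v k‖ ≤ 1) (h2 : ∃ k, ‖v k‖ = 1) : ‖v‖ = 1 := by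
  refine le_antisymm ((pi_norm_le_iff_of_nonneg zero_le_one).2 h1) ?_
  obtain ⟨k, hk⟩ := h2
  rw [← hk]
  exact norm_le_pi_norm v k

private theorem exists_unit {v : Fin 2 → K} (h : ‖v‖ = 1) : ∃ k, ‖v k‖ = 1 := by
  by_contra hcon
  push Not at hcon
  have h3 : ∀ k, ‖v k‖ < 1 := fun k =>
    lt_of_le_of_ne ((norm_le_pi_norm v k).trans h.le) (hcon k)
  have := (pi_norm_lt_iff one_pos).2 h3
  linarith

private theorem vec_norm_one_near {v v' : Fin 2 → K} (h : ‖v‖ = 1) {r : ℝ} (hr : r < 1)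
    (hn : ∀ k, ‖v' k - v k‖ ≤ r) : ‖v'‖ = 1 := by
  have hv : ∀ k, ‖v k‖ ≤ 1 := fun k => (norm_le_pi_norm v k).trans h.le
  obtain ⟨k, hk⟩ := exists_unit h
  refine vec_norm_one (fun k => norm_le_of_near (hv k) ((hn k).trans hr.le)) ⟨k, ?_⟩
  rw [norm_eq_of_near (a := v k) (by rw [hk]; exact (hn k).trans_lt hr), hk]

end

/-- a positive number below finitely many positive numbers. -/
private theorem exists_below (f : ℕ → ℝ) (n : ℕ) (hf : ∀ k ≤ n, 0 < f k) : ∃ δ : ℝ, 0 < δ ∧ ∀ k ≤ n, δ < f k := by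
  induction n with
  | zero => exact ⟨f 0 / 2, by have := hf 0 le_rfl; linarith, fun k hk => by
      obtain rfl : k = 0 := by omega
      have := hf 0 le_rfl; linarith⟩
  | succ n ih =>
    obtain ⟨δ, hδ, h⟩ := ih fun k hk => hf k (by omega)
    refine ⟨min δ (f (n + 1) / 2), lt_min hδ (by have := hf (n + 1) le_rfl; linarith), fun k hk => ?_⟩
    rcases Nat.lt_or_ge k (n + 1) with h1 | h1
    · exact (min_le_left _ _).trans_lt (h k (by omega))
    · obtain rfl : k = n + 1 := by omega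
      refine (min_le_right _ _).trans_lt ?_
      have := hf (n + 1) le_rfl
      linarith

/-- scaling in the second vector and the map. -/
private theorem det2_smul_right {K : Type*} [Field K] (P V : Fin 2 → K) (μ : K) :
    det2 P (fun k => μ * V k) = μ * det2 P V := by
  simp only [det2]; ring

private theorem det2_smul_left {K : Type*} [Field K] (P V : Fin 2 → K) (μ : K) :
    det2 (fun k => μ * P k) V = μ * det2 P V := by
  simp only [det2]; ring

private theorem eq_smul_of_det2 {K : Type*} [Field K] {P V : Fin 2 → K} (hP : P ≠ 0) (h : det2 P V = 0) :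
    ∃ μ : K, V = fun k => μ * P k := by
  have h' : P 0 * V 1 - P 1 * V 0 = 0 := h
  by_cases h0 : P 0 = 0
  · have h1 : P 1 ≠ 0 := by
      intro h1
      apply hP
      ext k
      fin_cases k
      · exact h0
      · exact h1
    refine ⟨V 1 / P 1, ?_⟩
    ext k
    fin_cases k
    · have : V 0 = 0 := by
        rw [h0, zero_mul, zero_sub, neg_eq_zero] at h'
        exact (mul_eq_zero.1 h').resolve_left h1
      simp [this, h0]
    · simp [h1]
  · refine ⟨V 0 / P 0, ?_⟩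
    ext k
    fin_cases k
    · simp [h0]
    · simp only [Fin.mk_one]
      field_simp
      linear_combination h'

/-- a point of the orbit is never on the line of a periodic point if the orbit is infinite. -/
private theorem not_hit {K : Type*} [Field K] {d : ℕ} {c : Fin 2 → Fin (d + 1) → K} {v P : Fin 2 → K}
    (hinf : InfOrb c v) {l : ℕ} (hl : 0 < l) (hP : P ≠ 0) (hfix : det2 P ((hlift c)^[l] P) = 0)
    (k : ℕ) : det2 ((hlift c)^[l * k] v) P ≠ 0 := by
  intro h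
  have h' : det2 P ((hlift c)^[l * k] v) = 0 := by
    have : det2 P ((hlift c)^[l * k] v) = - det2 ((hlift c)^[l * k] v) P := by simp only [det2]; ring
    rw [this, h, neg_zero]
  obtain ⟨μ, hμ⟩ := eq_smul_of_det2 hP h'
  obtain ⟨ν, hν⟩ := eq_smul_of_det2 hP hfix
  refine hinf (l * k) (l + l * k) (by omega) ?_
  rw [Function.iterate_add_apply, hμ, hlift_iter_smul, hν, det2_smul_left, det2_smul_right]
  have e : (fun k => ν * P k) = fun k => ν * P k := rfl
  rw [det2_smul_right P P ν]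
  have : det2 P P = 0 := by simp only [det2]; ring
  rw [this]
  ring

theorem stable_orbit {p : ℕ} [Fact p.Prime] {d : ℕ} {c : Fin 2 → Fin (d + 1) → ℚ_[p]} (hc : ∀ k j, ‖c k j‖ ≤ 1)
    {v : Fin 2 → ℚ_[p]} (hv : ∀ n, ‖(hlift c)^[n] v‖ = 1) (hinf : InfOrb c v) :
    ∃ (T : Finset ℚ_[p]) (δ : ℝ), 0 < δ ∧ ∀ (A : Type) [CommRing A] (ψ φ : A →+* ℚ_[p]), Function.Injective ψ →
      ∀ (c₀ : Fin 2 → Fin (d + 1) → A) (v₀ : Fin 2 → A), (∀ k j, ψ (c₀ k j) = c k j) → (∀ k, ψ (v₀ k) = v k) →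
      (∀ y ∈ T, y ∈ ψ.range) → (∀ x : A, ψ x ∈ T → ‖φ x - ψ x‖ < δ) →
      InfOrb (fun k j => φ (c₀ k j)) (fun k => φ (v₀ k)) := by
  classical
  -- the residue cycle
  obtain ⟨n₁, m₁, -, hnm, hd⟩ := pigeon (x := fun n => (hlift c)^[n] v) (c := (0 : Fin 2 → ℚ_[p])) (r := 1)
    (fun n => by rw [mem_closedBall_zero_iff]; exact (hv n).le) one_pos 0
  obtain ⟨l, hl⟩ : ∃ l, l = m₁ - n₁ := ⟨_, rfl⟩
  have hl0 : 0 < l := by omega
  obtain ⟨u, hu⟩ : ∃ u, u = (hlift c)^[n₁] v := ⟨_, rfl⟩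
  have hun : ∀ n, (hlift c)^[n] u = (hlift c)^[n + n₁] v := fun n => by rw [hu, Function.iterate_add_apply]
  have hu1 : ∀ n, ‖(hlift c)^[n] u‖ = 1 := fun n => by rw [hun]; exact hv _
  have huk : ∀ k, ‖u k‖ ≤ 1 := fun k => (norm_le_pi_norm u k).trans (hu1 0).le
  have hvk : ∀ k, ‖v k‖ ≤ 1 := fun k => (norm_le_pi_norm v k).trans (hv 0).le
  have hcl : ∀ k, ‖(hlift c)^[l] u k - u k‖ < 1 := by
    intro k
    have h1 := (dist_le_pi_dist ((hlift c)^[n₁] v) ((hlift c)^[m₁] v) k).trans_lt hd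
    rw [dist_eq_norm, norm_sub_rev] at h1
    rw [hun, show l + n₁ = m₁ by omega, hu]
    exact h1
  have hinfu : InfOrb c u := by
    intro m n hmn
    rw [hun, hun]
    exact hinf _ _ (by omega)
  -- what we get from closeness `r < 1`
  have key : ∀ {r : ℝ}, r < 1 → ∀ {c' : Fin 2 → Fin (d + 1) → ℚ_[p]} {v' : Fin 2 → ℚ_[p]},
      (∀ k j, ‖c' k j - c k j‖ ≤ r) → (∀ k, ‖v' k - v k‖ ≤ r) →
      (∀ k j, ‖c' k j‖ ≤ 1) ∧ (∀ n, ‖(hlift c')^[n] v'‖ = 1) ∧
      (∀ n k, ‖(hlift c')^[n] v' k - (hlift c)^[n] v k‖ ≤ r) := by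
    intro r hr c' v' h1 h2
    have hc' : ∀ k j, ‖c' k j‖ ≤ 1 := fun k j => norm_le_of_near (hc k j) ((h1 k j).trans hr.le)
    have hv' : ∀ k, ‖v' k‖ ≤ 1 := fun k => norm_le_of_near (hvk k) ((h2 k).trans hr.le)
    have h3 := fun n k => iter_near hc hc' hvk hv' h1 h2 n k
    exact ⟨hc', fun n => vec_norm_one_near (hv n) hr (h3 n), h3⟩
  have tri : ∀ {a b a' b' : ℚ_[p]}, ‖a' - a‖ < 1 → ‖b' - b‖ < 1 → ‖a - b‖ < 1 → ‖a' - b'‖ < 1 := by
    intro a b a' b' h1 h2 h3
    have e : a' - b' = (a' - a) + ((a - b) + -(b' - b)) := by ring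
    rw [e]
    refine (IsUltrametricDist.norm_add_le_max _ _).trans_lt (max_lt h1 ?_)
    refine (IsUltrametricDist.norm_add_le_max _ _).trans_lt (max_lt h3 ?_)
    rw [norm_neg]
    exact h2
  obtain ⟨T₀, hT₀⟩ : ∃ T₀ : Finset ℚ_[p], (∀ k j, c k j ∈ T₀) ∧ ∀ k, v k ∈ T₀ := by
    refine ⟨(Finset.univ.image fun x : Fin 2 × Fin (d + 1) => c x.1 x.2) ∪ Finset.univ.image v, fun k j => ?_,
      fun k => ?_⟩
    · exact Finset.mem_union_left _ (Finset.mem_image.2 ⟨(k, j), Finset.mem_univ _, rfl⟩)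
    · exact Finset.mem_union_right _ (Finset.mem_image.2 ⟨k, Finset.mem_univ _, rfl⟩)
  by_cases hj : ∃ m < l, ‖jac c ((hlift c)^[m] u)‖ < 1
  · -- attracting case
    obtain ⟨P, hP1, hPu, hfix, hlim⟩ := exists_limit hc hu1 hcl hj
    have hPk : ∀ k, ‖P k‖ ≤ 1 := fun k => (norm_le_pi_norm P k).trans hP1.le
    have hP0 : P ≠ 0 := by
      rintro rfl
      rw [norm_zero] at hP1
      exact zero_ne_one hP1
    obtain ⟨wz, hwz, hPw⟩ : ∃ wz : Fin 2 → ℤ, (∀ k, ‖((wz k : ℤ) : ℚ_[p])‖ ≤ 1) ∧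
        ‖det2 P (fun k => ((wz k : ℤ) : ℚ_[p]))‖ = 1 := by
      obtain ⟨k, hk⟩ := exists_unit hP1
      fin_cases k
      · refine ⟨![0, 1], fun k => norm_intCast_le_one' _, ?_⟩
        simpa [det2] using hk
      · refine ⟨![1, 0], fun k => norm_intCast_le_one' _, ?_⟩
        simpa [det2] using hk
    obtain ⟨w, hw⟩ : ∃ w : Fin 2 → ℚ_[p], w = fun k => ((wz k : ℤ) : ℚ_[p]) := ⟨_, rfl⟩
    have hw1 : ∀ k, ‖w k‖ ≤ 1 := by rw [hw]; exact hwz
    rw [← hw] at hPw
    have hnh := fun k => not_hit hinfu hl0 hP0 hfix k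
    -- the polynomial is not zero
    have hTP : tpoly c P w l ≠ 0 := by
      intro h0
      have hdw : det2 P w ≠ 0 := by
        intro h; rw [h, norm_zero] at hPw; exact zero_ne_one hPw
      have h2 : ∀ x, det2 P ((hlift c)^[l] (fun k => P k + x * w k)) = 0 := fun x => by
        rw [← tpoly_eval, h0, eval_zero]
      -- write `u` as a multiple of `P + x w`
      have hcr : ∀ k, u k * det2 P w = det2 u w * P k + det2 P u * w k := by
        intro k
        fin_cases k <;> simp only [det2, Fin.zero_eta, Fin.mk_one] <;> ring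
      have huw : det2 u w ≠ 0 := by
        intro h
        have h3 : ‖det2 u w - det2 P w‖ < 1 := by
          have e : det2 u w - det2 P w = (u 0 - P 0) * w 1 + -((u 1 - P 1) * w 0) := by simp only [det2]; ring
          rw [e]
          refine (IsUltrametricDist.norm_add_le_max _ _).trans_lt (max_lt ?_ ?_)
          · rw [norm_mul, norm_sub_rev]
            exact mul_lt_one_of_nonneg_of_lt_one_left (norm_nonneg _) (hPu 0) (hw1 1)
          · rw [norm_neg, norm_mul, norm_sub_rev]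
            exact mul_lt_one_of_nonneg_of_lt_one_left (norm_nonneg _) (hPu 1) (hw1 0)
        rw [h, zero_sub, norm_neg, hPw] at h3
        exact lt_irrefl _ h3
      have hux : u = fun k => (det2 u w / det2 P w) * (P k + (det2 P u / det2 u w) * w k) := by
        funext k
        field_simp
        linear_combination hcr k
      have h4 : det2 P ((hlift c)^[l] u) = 0 := by
        rw [hux, hlift_iter_smul, det2_smul_right, h2, mul_zero]
      have h5 := hnh 1
      rw [mul_one] at h5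
      apply h5
      have : det2 ((hlift c)^[l] u) P = - det2 P ((hlift c)^[l] u) := by simp only [det2]; ring
      rw [this, h4, neg_zero]
    obtain ⟨j, hjdef⟩ : ∃ j, j = (tpoly c P w l).natTrailingDegree := ⟨_, rfl⟩
    obtain ⟨a, ha⟩ : ∃ a, a = (tpoly c P w l).coeff j := ⟨_, rfl⟩
    have ha0 : a ≠ 0 := by
      rw [ha, hjdef]
      exact Polynomial.coeff_natTrailingDegree_ne_zero.2 hTP
    have hlow : ∀ i < j, (tpoly c P w l).coeff i = 0 := fun i hi =>
      Polynomial.coeff_eq_zero_of_lt_natTrailingDegree (by rw [← hjdef]; exact hi)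
    have ha1 : ‖a‖ ≤ 1 := by rw [ha]; exact tpoly_coeff_le hc hPk hw1 l j
    have hρ : ‖(p : ℚ_[p])‖ < 1 := Padic.norm_p_lt_one
    obtain ⟨k₁, hk₁⟩ := exists_pow_lt_of_lt_one (norm_pos_iff.2 ha0) hρ
    have hk₁' : ‖det2 ((hlift c)^[l * k₁] u) P‖ < ‖a‖ := by
      refine (hlim k₁).trans_lt (lt_of_le_of_lt ?_ hk₁)
      exact pow_le_pow_of_le_one (norm_nonneg _) hρ.le (Nat.le_succ _)
    obtain ⟨δ, hδ, hδ2⟩ := exists_below (fun k => min ‖a‖ (min 1 ‖det2 ((hlift c)^[l * k] u) P‖)) k₁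
      (fun k _ => lt_min (norm_pos_iff.2 ha0) (lt_min one_pos (norm_pos_iff.2 (hnh k))))
    have hδa : δ < ‖a‖ := (hδ2 0 (Nat.zero_le _)).trans_le (min_le_left _ _)
    have hδ1 : δ < 1 := (hδ2 0 (Nat.zero_le _)).trans_le ((min_le_right _ _).trans (min_le_left _ _))
    have hδk : ∀ k ≤ k₁, δ < ‖det2 ((hlift c)^[l * k] u) P‖ := fun k hk =>
      (hδ2 k hk).trans_le ((min_le_right _ _).trans (min_le_right _ _))
    refine ⟨T₀ ∪ (Finset.univ.image P ∪ {a}), δ, hδ, ?_⟩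
    intro A _ ψ φ hψ c₀ v₀ hc₀ hv₀ hrange hnear
    obtain ⟨a₀, ha₀⟩ : a ∈ ψ.range := hrange a (Finset.mem_union_right _ (Finset.mem_union_right _
      (Finset.mem_singleton_self _)))
    have hPr : ∀ k, ∃ x, ψ x = P k := fun k => hrange (P k) (Finset.mem_union_right _ (Finset.mem_union_left _
      (Finset.mem_image.2 ⟨k, Finset.mem_univ _, rfl⟩)))
    choose P₀ hP₀ using hPr
    have hn_c : ∀ k j, ‖φ (c₀ k j) - c k j‖ ≤ δ := fun k j => by
      have := hnear (c₀ k j) (by rw [hc₀]; exact Finset.mem_union_left _ (hT₀.1 k j))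
      rw [hc₀] at this
      exact this.le
    have hn_v : ∀ k, ‖φ (v₀ k) - v k‖ ≤ δ := fun k => by
      have := hnear (v₀ k) (by rw [hv₀]; exact Finset.mem_union_left _ (hT₀.2 k))
      rw [hv₀] at this
      exact this.le
    have hn_P : ∀ k, ‖φ (P₀ k) - P k‖ ≤ δ := fun k => by
      have := hnear (P₀ k) (by
        rw [hP₀]
        exact Finset.mem_union_right _ (Finset.mem_union_left _ (Finset.mem_image.2 ⟨k, Finset.mem_univ _, rfl⟩)))
      rw [hP₀] at this
      exact this.le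
    have hn_a : ‖φ a₀ - a‖ < ‖a‖ := by
      have := hnear a₀ (by
        rw [ha₀]
        exact Finset.mem_union_right _ (Finset.mem_union_right _ (Finset.mem_singleton_self _)))
      rw [ha₀] at this
      exact this.trans hδa
    obtain ⟨hc', hv', hit⟩ := key hδ1 hn_c hn_v
    -- the perturbed data
    obtain ⟨c', hc'def⟩ : ∃ c' : Fin 2 → Fin (d + 1) → ℚ_[p], c' = fun k j => φ (c₀ k j) := ⟨_, rfl⟩
    obtain ⟨v', hv'def⟩ : ∃ v' : Fin 2 → ℚ_[p], v' = fun k => φ (v₀ k) := ⟨_, rfl⟩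
    obtain ⟨P', hP'def⟩ : ∃ P' : Fin 2 → ℚ_[p], P' = fun k => φ (P₀ k) := ⟨_, rfl⟩
    rw [← hc'def, ← hv'def] at hv' hit ⊢
    have hc'' : ∀ k j, ‖c' k j‖ ≤ 1 := by rw [hc'def]; exact hc'
    have hn_c' : ∀ k j, ‖c' k j - c k j‖ ≤ δ := by rw [hc'def]; exact hn_c
    have hn_P' : ∀ k, ‖P' k - P k‖ ≤ δ := by rw [hP'def]; exact hn_P
    have hP'1 : ‖P'‖ = 1 := vec_norm_one_near hP1 hδ1 hn_P'
    have hP'k : ∀ k, ‖P' k‖ ≤ 1 := fun k => (norm_le_pi_norm P' k).trans hP'1.le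
    refine infOrb_of_tail hv' (n₁ := n₁) ?_
    obtain ⟨u', hu'⟩ : ∃ u', u' = (hlift c')^[n₁] v' := ⟨_, rfl⟩
    rw [← hu']
    have hun' : ∀ n, (hlift c')^[n] u' = (hlift c')^[n + n₁] v' := fun n => by
      rw [hu', Function.iterate_add_apply]
    have hu1' : ∀ n, ‖(hlift c')^[n] u'‖ = 1 := fun n => by rw [hun']; exact hv' _
    have huk' : ∀ k, ‖u' k‖ ≤ 1 := fun k => (norm_le_pi_norm u' k).trans (hu1' 0).le
    have hitu : ∀ n k, ‖(hlift c')^[n] u' k - (hlift c)^[n] u k‖ ≤ δ := fun n k => by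
      rw [hun', hun]; exact hit _ _
    have hitk : ∀ n k, ‖(hlift c)^[n] u k‖ ≤ 1 := fun n k => (norm_le_pi_norm _ k).trans (hu1 n).le
    have hitk' : ∀ n k, ‖(hlift c')^[n] u' k‖ ≤ 1 := fun n k => (norm_le_pi_norm _ k).trans (hu1' n).le
    have hdP : ∀ n, ‖det2 ((hlift c')^[n] u') P' - det2 ((hlift c)^[n] u) P‖ ≤ δ := fun n =>
      det2_near (hitk n) (hitk' n) hPk hP'k (hitu n) hn_P'
    -- the polynomial
    have hT₀' : (tpoly c₀ P₀ (fun k => ((wz k : ℤ) : A)) l).map ψ = tpoly c P w l := by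
      rw [tpoly_map]
      simp only [hc₀, hP₀, map_intCast, hw]
    have hT' : (tpoly c₀ P₀ (fun k => ((wz k : ℤ) : A)) l).map φ = tpoly c' P' w l := by
      rw [tpoly_map, hc'def, hP'def, hw]
      simp only [map_intCast]
    have hlow' : ∀ i < j, (tpoly c' P' w l).coeff i = 0 := by
      intro i hi
      have h1 := hlow i hi
      rw [← hT₀', coeff_map] at h1
      have h2 : (tpoly c₀ P₀ (fun k => ((wz k : ℤ) : A)) l).coeff i = 0 := hψ (by rw [h1, map_zero])
      rw [← hT', coeff_map, h2, map_zero]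
    have hcoj : ‖(tpoly c' P' w l).coeff j‖ = ‖a‖ := by
      have h1 : ψ ((tpoly c₀ P₀ (fun k => ((wz k : ℤ) : A)) l).coeff j) = ψ a₀ := by
        rw [ha₀, ha, ← hT₀', coeff_map]
      have h2 := hψ h1
      rw [← hT', coeff_map, h2]
      exact norm_eq_of_near hn_a
    have hfix' : det2 P' ((hlift c')^[l] P') = 0 := by
      have h1 : (tpoly c P w l).eval 0 = 0 := by
        rw [tpoly_eval]
        simpa using hfix
      have h2 : (tpoly c₀ P₀ (fun k => ((wz k : ℤ) : A)) l).eval 0 = 0 := by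
        apply hψ
        rw [map_zero, ← h1, ← hT₀', eval_map, ← Polynomial.eval₂_at_apply, map_zero]
      have h3 : (tpoly c' P' w l).eval 0 = 0 := by
        have h4 := congrArg φ h2
        rw [map_zero, ← Polynomial.eval₂_at_apply, map_zero, ← eval_map, hT'] at h4
        exact h4
      rw [tpoly_eval] at h3
      simpa using h3
    refine attr_step hc'' hu1' (l := l) ?_ ?_ hP'1 ?_ hfix' hw1 ?_ (η := ‖a‖) ?_ (k₁ := k₁) ?_ ?_
    · intro k
      have h1 : ‖(hlift c')^[l] u' k - (hlift c)^[l] u k‖ < 1 := (hitu l k).trans_lt hδ1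
      have h2 : ‖u' k - u k‖ < 1 := (hitu 0 k).trans_lt hδ1
      exact tri h1 h2 (hcl k)
    · obtain ⟨m, hm, hjm⟩ := hj
      refine ⟨m, hm, ?_⟩
      have h1 := jac_near hc hc'' (hitk m) (hitk' m) hn_c' (hitu m)
      have e : jac c' ((hlift c')^[m] u') = (jac c' ((hlift c')^[m] u') - jac c ((hlift c)^[m] u)) +
        jac c ((hlift c)^[m] u) := by ring
      rw [e]
      exact (IsUltrametricDist.norm_add_le_max _ _).trans_lt (max_lt (h1.trans_lt hδ1) hjm)
    · intro k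
      have h2 : ‖u' k - u k‖ < 1 := (hitu 0 k).trans_lt hδ1
      exact tri ((hn_P' k).trans_lt hδ1) h2 (hPu k)
    · have h1 : ‖det2 P' w - det2 P w‖ ≤ δ := det2_near hPk hP'k hw1 hw1 hn_P' (fun k => by simpa using hδ.le)
      rw [norm_eq_of_near (a := det2 P w) (by rw [hPw]; exact h1.trans_lt hδ1), hPw]
    · intro x hx hxa
      rw [← tpoly_eval]
      exact eval_ne_zero_of_small (fun i => tpoly_coeff_le hc'' hP'k hw1 l i) hlow' hx (by rw [hcoj]; exact hxa)
    · have e : det2 ((hlift c')^[l * k₁] u') P' = (det2 ((hlift c')^[l * k₁] u') P' -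
        det2 ((hlift c)^[l * k₁] u) P) + det2 ((hlift c)^[l * k₁] u) P := by ring
      rw [e]
      exact (IsUltrametricDist.norm_add_le_max _ _).trans_lt (max_lt ((hdP _).trans_lt hδa) hk₁')
    · intro k hk
      exact ne_zero_of_near ((hdP (l * k)).trans_lt (hδk k hk))
  · -- non-attracting case
    have hju : ∀ m < l, ‖jac c ((hlift c)^[m] u)‖ = 1 := by
      intro m hm
      by_contra hne
      exact hj ⟨m, hm, lt_of_le_of_ne (jac_le_one hc fun k => (norm_le_pi_norm _ k).trans (hu1 m).le) hne⟩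
    have hp2 : 2 ≤ p := (Fact.out : p.Prime).two_le
    obtain ⟨M, hM⟩ : ∃ M, M = l * (p * (p - 1) * p) := ⟨_, rfl⟩
    have hM0 : 0 < M := by
      rw [hM]
      exact Nat.mul_pos hl0 (Nat.mul_pos (Nat.mul_pos (by omega) (by omega)) (by omega))
    have hD : det2 u ((hlift c)^[M] u) ≠ 0 := by
      have := hinfu 0 M (by omega)
      simpa using this
    obtain ⟨δ, hδ, hδ2⟩ := exists_below (fun _ => min 1 ‖det2 u ((hlift c)^[M] u)‖) 0
      (fun k _ => lt_min one_pos (norm_pos_iff.2 hD))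
    have hδ1 : δ < 1 := (hδ2 0 le_rfl).trans_le (min_le_left _ _)
    have hδD : δ < ‖det2 u ((hlift c)^[M] u)‖ := (hδ2 0 le_rfl).trans_le (min_le_right _ _)
    refine ⟨T₀, δ, hδ, ?_⟩
    intro A _ ψ φ hψ c₀ v₀ hc₀ hv₀ hrange hnear
    have hn_c : ∀ k j, ‖φ (c₀ k j) - c k j‖ ≤ δ := fun k j => by
      have := hnear (c₀ k j) (by rw [hc₀]; exact hT₀.1 k j)
      rw [hc₀] at this
      exact this.le
    have hn_v : ∀ k, ‖φ (v₀ k) - v k‖ ≤ δ := fun k => by
      have := hnear (v₀ k) (by rw [hv₀]; exact hT₀.2 k)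
      rw [hv₀] at this
      exact this.le
    obtain ⟨hc', hv', hit⟩ := key hδ1 hn_c hn_v
    obtain ⟨c', hc'def⟩ : ∃ c' : Fin 2 → Fin (d + 1) → ℚ_[p], c' = fun k j => φ (c₀ k j) := ⟨_, rfl⟩
    obtain ⟨v', hv'def⟩ : ∃ v' : Fin 2 → ℚ_[p], v' = fun k => φ (v₀ k) := ⟨_, rfl⟩
    rw [← hc'def, ← hv'def] at hv' hit ⊢
    have hc'' : ∀ k j, ‖c' k j‖ ≤ 1 := by rw [hc'def]; exact hc'
    have hn_c' : ∀ k j, ‖c' k j - c k j‖ ≤ δ := by rw [hc'def]; exact hn_c
    refine infOrb_of_tail hv' (n₁ := n₁) ?_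
    obtain ⟨u', hu'⟩ : ∃ u', u' = (hlift c')^[n₁] v' := ⟨_, rfl⟩
    rw [← hu']
    have hun' : ∀ n, (hlift c')^[n] u' = (hlift c')^[n + n₁] v' := fun n => by
      rw [hu', Function.iterate_add_apply]
    have hu1' : ∀ n, ‖(hlift c')^[n] u'‖ = 1 := fun n => by rw [hun']; exact hv' _
    have hitu : ∀ n k, ‖(hlift c')^[n] u' k - (hlift c)^[n] u k‖ ≤ δ := fun n k => by
      rw [hun', hun]; exact hit _ _
    have hitk : ∀ n k, ‖(hlift c)^[n] u k‖ ≤ 1 := fun n k => (norm_le_pi_norm _ k).trans (hu1 n).le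
    have hitk' : ∀ n k, ‖(hlift c')^[n] u' k‖ ≤ 1 := fun n k => (norm_le_pi_norm _ k).trans (hu1' n).le
    by_contra hcon
    have h0 := nonattr hc'' hu1' hl0 (fun k => by
      have h1 : ‖(hlift c')^[l] u' k - (hlift c)^[l] u k‖ < 1 := (hitu l k).trans_lt hδ1
      have h2 : ‖u' k - u k‖ < 1 := (hitu 0 k).trans_lt hδ1
      exact tri h1 h2 (hcl k)) (fun m hm => by
      have h1 := jac_near hc hc'' (hitk m) (hitk' m) hn_c' (hitu m)
      rw [norm_eq_of_near (a := jac c ((hlift c)^[m] u)) (by rw [hju m hm]; exact h1.trans_lt hδ1), hju m hm]) hcon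
    rw [← hM] at h0
    have h1 : ‖det2 u' ((hlift c')^[M] u') - det2 u ((hlift c)^[M] u)‖ ≤ δ :=
      det2_near (hitk 0) (hitk' 0) (hitk M) (hitk' M) (hitu 0) (hitu M)
    exact ne_zero_of_near (h1.trans_lt hδD) h0

end Pool.Agent.Helper59.UQ
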