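import Pool.Agent.Helper59.UQ.EvalNear
import Pool.Agent.Helper59.UQ.Root
import Pool.Agent.Helper59.UQ.ExtHom

/-!
# UQ-STEP: adjoining one element

PROOF of `approx_step`. Given `F`, `ε`. For every `b ∈ F` which lies in `B = A ⊔ Algebra.adjoin ℚ {x}` choose `P_b ∈ A[X]` with `P_b(x) = b` (`mem_sup`), and `δ_b` from `eval_near` for `P_b.map (algebraMap A ℚ_p)`, `x`, `ε`. Let `δ` be the minimum of the `δ_b` (finite set `F`; `δ = 1` if there are none; use e.g.
`Finset.exists_le`-type lemmas or induction: exists `δ > 0` with `δ ≤ δ_b` for all `b ∈ F`).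
A homomorphism `φ'` on `B` built by `exists_ext` from `φ` on `A` (close to the inclusion on the coefficients of all `P_b` up to `δ`) and `x'` with `‖x' - x‖ < δ` does the job: `φ' b = (P_b.map φ).eval x'`, `natDegree (P_b.map φ) ≤ natDegree P_b`. Values: `φ'(b) = (P.map φ).eval x'` is
algebraic over `ℚ` if `x'` and all values of `φ` are (`IsAlgebraic.add`, `.mul`, ...: `Polynomial.eval_eq_sum_range`; the algebraic elements form a subalgebra `Subalgebra.algebraicClosure` / `algebraicClosure ℚ ℚ_p`).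
CASE 1: `∀ P : A[X], P(x) = 0 → P = 0`. Take `φ` for `A` and `x' ∈ ℚ` with `‖x' - x‖ < δ` (density: `Padic.rat_dense`); the kernel condition is trivial.
CASE 2: there is `m ∈ A[X]`, `m ≠ 0`, `m(x) = 0`; choose it of minimal degree. `m'(x) ≠ 0` (`derivative m` has smaller degree and is not zero because `natDegree m ≥ 1` and characteristic zero). `g = leadingCoeff m ≠ 0`. `δ'` from `root_near` for `m.map (algebraMap A ℚ_p)`, `x`, `δ`. Take `φ` for `A`, close to the
inclusion on the coefficients of all `P_b` up to `δ`, on those of `m` up to `min δ' ‖g‖`. So `φ g ≠ 0` and there is `x'` with `(m.map φ).eval x' = 0`, `‖x' - x‖ < δ`. `x'` is algebraic: it is a root of `m.map φ ≠ 0` whose coefficients are algebraic (`IsAlgebraic` over the algebraic closure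
`algebraicClosure ℚ ℚ_[p]` (an intermediate field, algebraic over `ℚ`), then `IsAlgebraic.restrictScalars` / `Algebra.IsAlgebraic.trans`).
Kernel condition: let `P(x) = 0`. Strong induction on `natDegree P` (statement: `P(x) = 0 → (P.map φ).eval x' = 0`): if `P = 0` clear; else `natDegree P ≥ natDegree m`, `Q = g P - (leadingCoeff P) X^(deg P - deg m) m` has smaller degree (or is `0`), `Q(x) = 0`, so `(Q.map φ)(x') = 0`, i.e.
`φ(g) (P.map φ)(x') = 0`, `φ g ≠ 0`.
-/

set_option autoImplicit false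

namespace Pool.Agent.Helper59.UQ

open Polynomial

private theorem exists_le_all {α : Type} (F : Finset α) (f : α → ℝ) (hf : ∀ a, 0 < f a) :
    ∃ δ : ℝ, 0 < δ ∧ ∀ a ∈ F, δ ≤ f a := by
  classical
  induction F using Finset.induction with
  | empty => exact ⟨1, one_pos, by simp⟩
  | insert a F _ ih =>
    obtain ⟨δ, hδ, h⟩ := ih
    refine ⟨min δ (f a), lt_min hδ (hf a), fun b hb => ?_⟩
    rw [Finset.mem_insert] at hb
    rcases hb with rfl | hb
    · exact min_le_right _ _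
    · exact le_trans (min_le_left _ _) (h b hb)

private theorem eval_alg {p : ℕ} [Fact p.Prime] (A : Subalgebra ℚ ℚ_[p]) (φ : A →+* ℚ_[p])
    (halg : ∀ a, IsAlgebraic ℚ (φ a)) (x' : ℚ_[p]) (hx' : IsAlgebraic ℚ x') (P : A[X]) :
    IsAlgebraic ℚ ((P.map φ).eval x') := by
  rw [← mem_algebraicClosure_iff (F := ℚ) (E := ℚ_[p]), Polynomial.eval_eq_sum_range]
  refine sum_mem fun i _ => mul_mem ?_ (pow_mem ?_ i)
  · rw [Polynomial.coeff_map]
    exact mem_algebraicClosure_iff.2 (halg _)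
  · exact mem_algebraicClosure_iff.2 hx'

private theorem root_alg {p : ℕ} [Fact p.Prime] (A : Subalgebra ℚ ℚ_[p]) (φ : A →+* ℚ_[p])
    (halg : ∀ a, IsAlgebraic ℚ (φ a)) (x' : ℚ_[p]) (m : A[X]) (hm : m.map φ ≠ 0)
    (hx' : (m.map φ).eval x' = 0) : IsAlgebraic ℚ x' := by
  let ψ : A →+* algebraicClosure ℚ ℚ_[p] :=
    φ.codRestrict (algebraicClosure ℚ ℚ_[p]) fun a => mem_algebraicClosure_iff.2 (halg a)
  have hψ : (m.map ψ).map (algebraMap (algebraicClosure ℚ ℚ_[p]) ℚ_[p]) = m.map φ := by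
    rw [Polynomial.map_map]
    congr 1
  have h1 : IsAlgebraic (algebraicClosure ℚ ℚ_[p]) x' := by
    refine ⟨m.map ψ, ?_, ?_⟩
    · rintro h0
      rw [h0, Polynomial.map_zero] at hψ
      exact hm hψ.symm
    · rw [Polynomial.aeval_def, ← Polynomial.eval_map, hψ, hx']
  haveI : Algebra.IsAlgebraic ℚ (algebraicClosure ℚ ℚ_[p]) := algebraicClosure.isAlgebraic ℚ ℚ_[p]
  exact h1.restrictScalars ℚ

private theorem finish {p : ℕ} [Fact p.Prime] (A : Subalgebra ℚ ℚ_[p]) (x : ℚ_[p])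
    (φ : A →+* ℚ_[p]) (halg : ∀ a, IsAlgebraic ℚ (φ a)) (x' : ℚ_[p]) (hx' : IsAlgebraic ℚ x')
    (hker : ∀ P : A[X], (P.map (algebraMap A ℚ_[p])).eval x = 0 → (P.map φ).eval x' = 0)
    (F : Finset ℚ_[p]) (ε : ℝ) (P : ℚ_[p] → A[X]) (δ : ℚ_[p] → ℝ)
    (hP : ∀ b, b ∈ A ⊔ Algebra.adjoin ℚ {x} → ((P b).map (algebraMap A ℚ_[p])).eval x = b)
    (hδ : ∀ b, ∀ (G : ℚ_[p][X]) (y : ℚ_[p]),
      G.natDegree ≤ ((P b).map (algebraMap A ℚ_[p])).natDegree →
      (∀ i, ‖G.coeff i - ((P b).map (algebraMap A ℚ_[p])).coeff i‖ < δ b) → ‖y - x‖ < δ b →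
      ‖G.eval y - ((P b).map (algebraMap A ℚ_[p])).eval x‖ < ε)
    (δ₀ : ℝ) (hδ₀ : ∀ b ∈ F, δ₀ ≤ δ b) (hδpos : 0 < δ₀)
    (hclose : ∀ b ∈ F, ∀ i ∈ (P b).support, ‖φ ((P b).coeff i) - ((P b).coeff i : ℚ_[p])‖ < δ₀)
    (hxx : ‖x' - x‖ < δ₀) :
    ∃ φ' : (A ⊔ Algebra.adjoin ℚ {x} : Subalgebra ℚ ℚ_[p]) →+* ℚ_[p],
      (∀ a, IsAlgebraic ℚ (φ' a)) ∧
      ∀ a : (A ⊔ Algebra.adjoin ℚ {x} : Subalgebra ℚ ℚ_[p]), (a : ℚ_[p]) ∈ F → ‖φ' a - a‖ < ε := by
  obtain ⟨φ', hφ'⟩ := exists_ext A x φ x' hker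
  refine ⟨φ', fun a => ?_, fun a ha => ?_⟩
  · rw [hφ' (P a) a (hP a a.2)]
    exact eval_alg A φ halg x' hx' _
  · rw [hφ' (P a) a (hP a a.2)]
    have h1 := hδ (a : ℚ_[p]) ((P a).map φ) x' ?_ ?_ (lt_of_lt_of_le hxx (hδ₀ _ ha))
    · rwa [hP a a.2] at h1
    · refine le_trans Polynomial.natDegree_map_le ?_
      rw [Polynomial.natDegree_map_eq_of_injective (f := algebraMap A ℚ_[p])
        (FaithfulSMul.algebraMap_injective A ℚ_[p])]
    · intro i
      rw [Polynomial.coeff_map, Polynomial.coeff_map]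
      by_cases hi : i ∈ (P a).support
      · exact lt_of_lt_of_le (hclose _ ha i hi) (hδ₀ _ ha)
      · rw [Polynomial.notMem_support_iff] at hi
        rw [hi, map_zero, map_zero, sub_zero, norm_zero]
        exact lt_of_lt_of_le hδpos (hδ₀ _ ha)

private theorem kernel_cond {p : ℕ} [Fact p.Prime] (A : Subalgebra ℚ ℚ_[p]) (x : ℚ_[p])
    (φ : A →+* ℚ_[p]) (x' : ℚ_[p]) (m : A[X]) (hm0 : m.natDegree ≠ 0)
    (hmx : (m.map (algebraMap A ℚ_[p])).eval x = 0)
    (hmin : ∀ P : A[X], P ≠ 0 → (P.map (algebraMap A ℚ_[p])).eval x = 0 →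
      m.natDegree ≤ P.natDegree)
    (hg : φ m.leadingCoeff ≠ 0) (hx' : (m.map φ).eval x' = 0) :
    ∀ (n : ℕ) (P : A[X]), P.natDegree = n → (P.map (algebraMap A ℚ_[p])).eval x = 0 →
      (P.map φ).eval x' = 0 := by
  intro n
  induction n using Nat.strong_induction_on with
  | _ n ih =>
    intro P hn hP
    by_cases hP0 : P = 0
    · rw [hP0, Polynomial.map_zero, Polynomial.eval_zero]
    have hle := hmin P hP0 hP
    let Q : A[X] := C m.leadingCoeff * P - C P.leadingCoeff * X ^ (P.natDegree - m.natDegree) * m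
    have hQ1 : Q.natDegree ≤ P.natDegree := by
      refine le_trans (Polynomial.natDegree_sub_le _ _) (max_le ?_ ?_)
      · exact Polynomial.natDegree_C_mul_le _ _
      · refine le_trans Polynomial.natDegree_mul_le ?_
        have := Polynomial.natDegree_C_mul_X_pow_le P.leadingCoeff
          (P.natDegree - m.natDegree)
        omega
    have hQ2 : Q.coeff P.natDegree = 0 := by
      change (C m.leadingCoeff * P - C P.leadingCoeff * X ^ (P.natDegree - m.natDegree) *
        m).coeff P.natDegree = 0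
      rw [Polynomial.coeff_sub, Polynomial.coeff_C_mul, mul_assoc, Polynomial.coeff_C_mul,
        Polynomial.coeff_X_pow_mul', if_pos (Nat.sub_le _ _), Nat.sub_sub_self hle,
        Polynomial.coeff_natDegree, Polynomial.coeff_natDegree]
      ring
    have hQ3 := Polynomial.natDegree_le_pred hQ1 hQ2
    have hQlt : Q.natDegree < n := by omega
    have hQx : (Q.map (algebraMap A ℚ_[p])).eval x = 0 := by
      change ((C m.leadingCoeff * P - C P.leadingCoeff * X ^ (P.natDegree - m.natDegree) *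
        m).map (algebraMap A ℚ_[p])).eval x = 0
      rw [Polynomial.map_sub, Polynomial.map_mul, Polynomial.map_mul, Polynomial.eval_sub,
        Polynomial.eval_mul, Polynomial.eval_mul, hP, hmx, mul_zero, mul_zero, sub_zero]
    have h1 := ih Q.natDegree hQlt Q rfl hQx
    have h2 : ((C m.leadingCoeff * P - C P.leadingCoeff * X ^ (P.natDegree - m.natDegree) *
        m).map φ).eval x' = 0 := h1
    rw [Polynomial.map_sub, Polynomial.map_mul, Polynomial.map_mul, Polynomial.eval_sub,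
        Polynomial.eval_mul, Polynomial.eval_mul, hx', mul_zero, sub_zero, Polynomial.map_C,
        Polynomial.eval_C] at h2
    exact (mul_eq_zero.1 h2).resolve_left hg

theorem approx_step {p : ℕ} [Fact p.Prime] (A : Subalgebra ℚ ℚ_[p]) (hA : Approx p A) (x : ℚ_[p]) :
    Approx p (A ⊔ Algebra.adjoin ℚ {x}) := by
  classical
  intro F ε hε
  have hex : ∀ b : ℚ_[p], ∃ (P : A[X]) (δ : ℝ), 0 < δ ∧
      (b ∈ A ⊔ Algebra.adjoin ℚ {x} → (P.map (algebraMap A ℚ_[p])).eval x = b) ∧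
      ∀ (G : ℚ_[p][X]) (y : ℚ_[p]),
      G.natDegree ≤ (P.map (algebraMap A ℚ_[p])).natDegree →
      (∀ i, ‖G.coeff i - (P.map (algebraMap A ℚ_[p])).coeff i‖ < δ) → ‖y - x‖ < δ →
      ‖G.eval y - (P.map (algebraMap A ℚ_[p])).eval x‖ < ε := by
    intro b
    have h1 : ∃ P : A[X], b ∈ A ⊔ Algebra.adjoin ℚ {x} →
        (P.map (algebraMap A ℚ_[p])).eval x = b := by
      by_cases hb : b ∈ A ⊔ Algebra.adjoin ℚ {x}
      · obtain ⟨P, hP⟩ := (mem_sup A x b).1 hb
        exact ⟨P, fun _ => hP⟩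
      · exact ⟨0, fun hb' => absurd hb' hb⟩
    obtain ⟨P, hP⟩ := h1
    obtain ⟨δ, hδ, h2⟩ := eval_near (P.map (algebraMap A ℚ_[p])) x hε
    exact ⟨P, δ, hδ, hP, h2⟩
  choose P δ hδpos hP hδ using hex
  obtain ⟨δ₀, hδ₀, hδ₀le⟩ := exists_le_all F δ hδpos
  let F₁ : Finset ℚ_[p] := F.biUnion fun b => (P b).support.image fun i => ((P b).coeff i : ℚ_[p])
  have hF₁ : ∀ b ∈ F, ∀ i ∈ (P b).support, ((P b).coeff i : ℚ_[p]) ∈ F₁ := by
    intro b hb i hi
    exact Finset.mem_biUnion.2 ⟨b, hb, Finset.mem_image.2 ⟨i, hi, rfl⟩⟩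
  by_cases htr : ∀ Q : A[X], (Q.map (algebraMap A ℚ_[p])).eval x = 0 → Q = 0
  · -- transcendental case
    obtain ⟨φ, halg, hφ⟩ := hA F₁ δ₀ hδ₀
    obtain ⟨r, hr⟩ := Padic.rat_dense p x hδ₀
    refine finish A x φ halg (r : ℚ_[p]) ?_ ?_ F ε P δ hP hδ δ₀ hδ₀le hδ₀
      (fun b hb i hi => hφ _ (hF₁ b hb i hi)) ?_
    · have := isAlgebraic_algebraMap (R := ℚ) (A := ℚ_[p]) r
      simpa using this
    · intro Q hQ
      rw [htr Q hQ, Polynomial.map_zero, Polynomial.eval_zero]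
    · rwa [norm_sub_rev]
  · -- algebraic case
    push Not at htr
    have hd : ∃ d : ℕ, ∃ m : A[X], m.natDegree = d ∧ (m.map (algebraMap A ℚ_[p])).eval x = 0 ∧
        m ≠ 0 := by
      obtain ⟨m, h1, h2⟩ := htr
      exact ⟨_, m, rfl, h1, h2⟩
    obtain ⟨m, hmd, hmx, hm0⟩ := Nat.find_spec hd
    have hmin : ∀ Q : A[X], Q ≠ 0 → (Q.map (algebraMap A ℚ_[p])).eval x = 0 →
        m.natDegree ≤ Q.natDegree := by
      intro Q hQ0 hQ
      rw [hmd]
      exact Nat.find_min' hd ⟨Q, rfl, hQ, hQ0⟩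
    have hinj : Function.Injective (algebraMap A ℚ_[p]) :=
      FaithfulSMul.algebraMap_injective A ℚ_[p]
    have hdeg : m.natDegree ≠ 0 := by
      intro h0
      rw [Polynomial.eq_C_of_natDegree_eq_zero h0, Polynomial.map_C, Polynomial.eval_C] at hmx
      have h1 : m.coeff 0 = 0 := hinj (by rw [hmx, map_zero])
      apply hm0
      rw [Polynomial.eq_C_of_natDegree_eq_zero h0, h1, Polynomial.C_0]
    have hder : ((m.map (algebraMap A ℚ_[p])).derivative).eval x ≠ 0 := by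
      intro h0
      rw [Polynomial.derivative_map] at h0
      by_cases hz : m.derivative = 0
      · exact hdeg (Polynomial.derivative_eq_zero.1 hz)
      · have h1 := hmin _ hz h0
        have h2 := Polynomial.natDegree_derivative_lt hdeg
        omega
    obtain ⟨δ', hδ', hroot⟩ := root_near (m.map (algebraMap A ℚ_[p])) x hmx hder hδ₀
    have hlc : m.leadingCoeff ≠ 0 := Polynomial.leadingCoeff_ne_zero.2 hm0
    have hlc' : (m.leadingCoeff : ℚ_[p]) ≠ 0 := by
      intro h0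
      exact hlc (Subtype.ext h0)
    have hgn : 0 < ‖(m.leadingCoeff : ℚ_[p])‖ := norm_pos_iff.2 hlc'
    let F₂ : Finset ℚ_[p] := F₁ ∪ m.support.image fun i => (m.coeff i : ℚ_[p])
    have hη : 0 < min δ₀ (min δ' ‖(m.leadingCoeff : ℚ_[p])‖) :=
      lt_min hδ₀ (lt_min hδ' hgn)
    obtain ⟨φ, halg, hφ⟩ := hA F₂ _ hη
    have hφm : ∀ i ∈ m.support, ‖φ (m.coeff i) - (m.coeff i : ℚ_[p])‖ <
        min δ₀ (min δ' ‖(m.leadingCoeff : ℚ_[p])‖) := fun i hi =>
      hφ _ (Finset.mem_union_right _ (Finset.mem_image.2 ⟨i, hi, rfl⟩))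
    have hφg : φ m.leadingCoeff ≠ 0 := by
      intro h0
      have h1 := hφm m.natDegree (Polynomial.natDegree_mem_support_of_nonzero hm0)
      rw [Polynomial.coeff_natDegree, h0, zero_sub, norm_neg] at h1
      exact absurd (lt_of_lt_of_le h1 (le_trans (min_le_right _ _) (min_le_right _ _)))
        (lt_irrefl _)
    obtain ⟨x', hx', hxx⟩ := hroot (m.map φ) (by
      refine le_trans Polynomial.natDegree_map_le ?_
      rw [Polynomial.natDegree_map_eq_of_injective hinj]) (by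
      intro i
      rw [Polynomial.coeff_map, Polynomial.coeff_map]
      by_cases hi : i ∈ m.support
      · exact lt_of_lt_of_le (hφm i hi) (le_trans (min_le_right _ _) (min_le_left _ _))
      · rw [Polynomial.notMem_support_iff] at hi
        rw [hi, map_zero, map_zero, sub_zero, norm_zero]
        exact hδ')
    have hmφ : m.map φ ≠ 0 := by
      intro h0
      have h1 := congrArg (fun q => Polynomial.coeff q m.natDegree) h0
      simp only [Polynomial.coeff_map, Polynomial.coeff_natDegree, Polynomial.coeff_zero] at h1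
      exact hφg h1
    refine finish A x φ halg x' (root_alg A φ halg x' m hmφ hx') ?_ F ε P δ hP hδ δ₀ hδ₀le hδ₀
      (fun b hb i hi => lt_of_lt_of_le (hφ _ (Finset.mem_union_left _ (hF₁ b hb i hi)))
        (min_le_left _ _)) hxx
    intro Q hQ
    exact kernel_cond A x φ x' m hdeg hmx hmin hφg hx' _ Q rfl hQ

end Pool.Agent.Helper59.UQ
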