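import Pool.Agent.Helper59.UQ.LemmaLR
import Pool.Agent.Helper59.UQ.NF2
import Pool.Agent.Helper59.UQ.OrbShift
import Pool.Agent.Helper59.UQ.BiForm
import Pool.Agent.Helper59.DX.Spread
import Pool.Agent.Helper59.DX.Model

/-!
# UQ-UNEQRR: two rational maps of different degrees over `ℂ`
-/

set_option autoImplicit false

namespace Pool.Agent.Helper59.UQ

open Polynomial Pool.Agent.Helper59.DX Pool.Agent.Helper59.PR

theorem uneq_RR {A₁ B₁ A₂ B₂ : ℂ[X]} {x y : ℕ → ℂ} (h1 : IsCoprime A₁ B₁) (h2 : IsCoprime A₂ B₂)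
    (hD : 1 ≤ max A₁.natDegree B₁.natDegree)
    (hlt : max A₁.natDegree B₁.natDegree < max A₂.natDegree B₂.natDegree) (hx : IsOrb A₁ B₁ x)
    (hy : IsOrb A₂ B₂ y) (hyinj : Function.Injective y) {P : ℂ[X][X]} (hP : Irreducible P) (hPX : 1 ≤ degX P)
    (hPY : 1 ≤ P.natDegree) : {n | P.evalEval (x n) (y n) = 0}.Finite := by
  by_contra hinf
  have hS : {n | P.evalEval (x n) (y n) = 0}.Infinite := hinf
  obtain ⟨D₁, hD₁⟩ : ∃ D, D = max A₁.natDegree B₁.natDegree := ⟨_, rfl⟩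
  obtain ⟨D₂, hD₂⟩ : ∃ D, D = max A₂.natDegree B₂.natDegree := ⟨_, rfl⟩
  obtain ⟨𝒜, _, A₁', B₁', P', Q', x₀, y₀, hA₁', hB₁', hP', hQ', hx₀, hy₀⟩ :=
    exists_model A₁ B₁ P (C A₂ + X * C B₂) (x 0) (y 0)
  have hinj : Function.Injective (algebraMap 𝒜 ℂ) := Subtype.val_injective
  obtain ⟨A₂', hA₂def⟩ : ∃ A₂' : 𝒜[X], A₂' = Q'.coeff 0 := ⟨_, rfl⟩
  obtain ⟨B₂', hB₂def⟩ : ∃ B₂' : 𝒜[X], B₂' = Q'.coeff 1 := ⟨_, rfl⟩
  have hA₂' : A₂'.map (algebraMap 𝒜 ℂ) = A₂ := by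
    have h := congrArg (fun q => q.coeff 0) hQ'
    simp only [coeff_map, coe_mapRingHom] at h
    rw [hA₂def, h]
    simp
  have hB₂' : B₂'.map (algebraMap 𝒜 ℂ) = B₂ := by
    have h := congrArg (fun q => q.coeff 1) hQ'
    simp only [coeff_map, coe_mapRingHom] at h
    rw [hB₂def, h]
    simp [coeff_C]
  have hdA₁ : A₁'.natDegree = A₁.natDegree := by
    rw [← hA₁', Polynomial.natDegree_map_eq_of_injective hinj]
  have hdB₁ : B₁'.natDegree = B₁.natDegree := by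
    rw [← hB₁', Polynomial.natDegree_map_eq_of_injective hinj]
  have hdA₂ : A₂'.natDegree = A₂.natDegree := by
    rw [← hA₂', Polynomial.natDegree_map_eq_of_injective hinj]
  have hdB₂ : B₂'.natDegree = B₂.natDegree := by
    rw [← hB₂', Polynomial.natDegree_map_eq_of_injective hinj]
  have e1 : degX P' = degX P := by rw [← hP', degX_map_of_injective _ hinj]
  have e2 : P'.natDegree = P.natDegree := by rw [← hP', natDegree_map_of_injective _ hinj]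
  obtain ⟨α₁, hα₁, hspread⟩ := spread hinj P' (by rw [hP']; exact hP)
  obtain ⟨α₂, hα₂, hcs₁⟩ := cop_spread hinj A₁' B₁' (by rw [hA₁', hB₁']; exact h1)
  obtain ⟨α₃, hα₃, hcs₂⟩ := cop_spread hinj A₂' B₂' (by rw [hA₂', hB₂']; exact h2)
  -- the orbit of the map of larger degree over `𝒜`
  have hvy : ∀ n, ∃ c, c ≠ 0 ∧ algebraMap 𝒜 ℂ (vit D₂ A₂' B₂' n (y₀, 1)).1 = c * y n ∧
      algebraMap 𝒜 ℂ (vit D₂ A₂' B₂' n (y₀, 1)).2 = c := by
    intro n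
    have hv := vit_map (algebraMap 𝒜 ℂ) D₂ A₂' B₂' n (y₀, 1)
    simp only [map_one] at hv
    rw [hA₂', hB₂', hy₀] at hv
    obtain ⟨c, hc, hcv⟩ := vit_orb hD₂.ge hy 0 n
    rw [hcv, zero_add] at hv
    exact ⟨c, hc, (congrArg Prod.fst hv).symm, (congrArg Prod.snd hv).symm⟩
  have hvx : ∀ n, ∃ c, c ≠ 0 ∧ algebraMap 𝒜 ℂ (vit D₁ A₁' B₁' n (x₀, 1)).1 = c * x n ∧
      algebraMap 𝒜 ℂ (vit D₁ A₁' B₁' n (x₀, 1)).2 = c := by
    intro n
    have hv := vit_map (algebraMap 𝒜 ℂ) D₁ A₁' B₁' n (x₀, 1)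
    simp only [map_one] at hv
    rw [hA₁', hB₁', hx₀] at hv
    obtain ⟨c, hc, hcv⟩ := vit_orb hD₁.ge hx 0 n
    rw [hcv, zero_add] at hv
    exact ⟨c, hc, (congrArg Prod.fst hv).symm, (congrArg Prod.snd hv).symm⟩
  have horb : ∀ m n, m ≠ n → cross (vit D₂ A₂' B₂' m (y₀, 1)) (vit D₂ A₂' B₂' n (y₀, 1)) ≠ 0 := by
    intro m n hmn h0
    have h3 := congrArg (algebraMap 𝒜 ℂ) h0
    obtain ⟨c, hc, hc1, hc2⟩ := hvy m
    obtain ⟨e, he, he1, he2⟩ := hvy n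
    unfold cross at h3
    rw [map_zero, map_sub, map_mul, map_mul, hc1, hc2, he1, he2] at h3
    have h4 : c * e * (y m - y n) = 0 := by linear_combination h3
    have h5 := (mul_eq_zero.1 h4).resolve_left (mul_ne_zero hc he)
    exact hmn (hyinj (sub_eq_zero.1 h5))
  obtain ⟨K, _, _, s, hsα, hsorb⟩ := lemmaLR (algebraMap 𝒜 ℂ) hinj A₂' B₂' (D := D₂)
    (by rw [hdA₂, hdB₂, hD₂]) (by omega) (by rw [hA₂', hB₂']; exact h2) y₀ horb (α₁ * (α₂ * α₃))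
    (mul_ne_zero hα₁ (mul_ne_zero hα₂ hα₃))
  have hs1 : s α₁ ≠ 0 := fun h => hsα (by rw [map_mul, h, zero_mul])
  have hs2 : s α₂ ≠ 0 := fun h => hsα (by rw [map_mul, map_mul, h, zero_mul, mul_zero])
  have hs3 : s α₃ ≠ 0 := fun h => hsα (by rw [map_mul, map_mul, h, mul_zero, mul_zero])
  obtain ⟨hirr, hdX, hdY⟩ := hspread K s hs1
  obtain ⟨hcop₁, hmax₁⟩ := hcs₁ K s hs2
  obtain ⟨hcop₂, hmax₂⟩ := hcs₂ K s hs3
  have hirrK : Irreducible (P'.map (mapRingHom s)) := by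
    have h := hirr K (RingHom.id K)
    rwa [Polynomial.mapRingHom_id, Polynomial.map_id] at h
  have hDK₁ : max (A₁'.map s).natDegree (B₁'.map s).natDegree = D₁ := by
    rw [hmax₁, hdA₁, hdB₁, hD₁]
  have hDK₂ : max (A₂'.map s).natDegree (B₂'.map s).natDegree = D₂ := by
    rw [hmax₂, hdA₂, hdB₂, hD₂]
  obtain ⟨a, ha⟩ : ∃ a, a = degX P' := ⟨_, rfl⟩
  obtain ⟨b, hb⟩ : ∃ b, b = P'.natDegree := ⟨_, rfl⟩
  -- the condition over `𝒜` and over `K`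
  have hbA : ∀ n, P.evalEval (x n) (y n) = 0 →
      bv a b P' (vit D₁ A₁' B₁' n (x₀, 1)) (vit D₂ A₂' B₂' n (y₀, 1)) = 0 := by
    intro n hn
    apply hinj
    rw [map_zero, ← bv_map, hP']
    obtain ⟨c, hc, hc1, hc2⟩ := hvx n
    obtain ⟨e, he, he1, he2⟩ := hvy n
    rw [hc1, hc2, he1, he2, bv_affine (by rw [ha, e1]) (by rw [hb, e2]), hn, mul_zero]
  obtain ⟨U, hU⟩ : ∃ U : ℕ → K × K, ∀ n, U n = vit D₁ (A₁'.map s) (B₁'.map s) n (s x₀, 1) := ⟨_, fun _ => rfl⟩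
  obtain ⟨V, hV⟩ : ∃ V : ℕ → K × K, ∀ n, V n = vit D₂ (A₂'.map s) (B₂'.map s) n (s y₀, 1) := ⟨_, fun _ => rfl⟩
  have hUs : ∀ n, U n = (s (vit D₁ A₁' B₁' n (x₀, 1)).1, s (vit D₁ A₁' B₁' n (x₀, 1)).2) := by
    intro n
    rw [hU, ← vit_map, map_one]
  have hVs : ∀ n, V n = (s (vit D₂ A₂' B₂' n (y₀, 1)).1, s (vit D₂ A₂' B₂' n (y₀, 1)).2) := by
    intro n
    rw [hV, ← vit_map, map_one]
  have hbK : ∀ n, P.evalEval (x n) (y n) = 0 → bv a b (P'.map (mapRingHom s)) (U n) (V n) = 0 := by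
    intro n hn
    rw [hUs, hVs, bv_map, hbA n hn, map_zero]
  -- the second coordinate
  obtain ⟨n₁, hn₁⟩ := exists_snd_ne_zero (A := A₂'.map s) (B := B₂'.map s) (D := D₂) (v := (s y₀, 1)) hsorb
  have hYorb := isOrb_quot (A := A₂'.map s) (B := B₂'.map s) (D := D₂) (v := (s y₀, 1)) hDK₂.le hn₁
  have hYinj := quot_injective (A := A₂'.map s) (B := B₂'.map s) (D := D₂) (v := (s y₀, 1)) hsorb hn₁
  obtain ⟨Y, hYdef⟩ : ∃ Y : ℕ → K, Y = fun m => (V (n₁ + m)).1 / (V (n₁ + m)).2 := ⟨_, rfl⟩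
  have hYe : (fun m => (vit D₂ (A₂'.map s) (B₂'.map s) (n₁ + m) (s y₀, 1)).1 /
      (vit D₂ (A₂'.map s) (B₂'.map s) (n₁ + m) (s y₀, 1)).2) = Y := by
    rw [hYdef]
    funext m
    rw [hV]
  rw [hYe] at hYorb hYinj
  have hV2 : ∀ m, (V (n₁ + m)).2 ≠ 0 := fun m => by rw [hV]; exact hn₁ _ (by omega)
  -- the first coordinate
  obtain ⟨Ps, hPs⟩ : ∃ Ps, Ps = P'.map (mapRingHom s) := ⟨_, rfl⟩
  rw [← hPs] at hirrK hdX hdY hbK
  have hPsX : 1 ≤ degX Ps := by rw [hdX, e1]; exact hPX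
  have hPsY : 1 ≤ Ps.natDegree := by rw [hdY, e2]; exact hPY
  have hswirr : Irreducible (Bivariate.swap Ps) :=
    (MulEquiv.irreducible_iff (Bivariate.swap (R := K)).toMulEquiv).2 hirrK
  have hswX : 1 ≤ degX (Bivariate.swap Ps) := by rw [degX_swap]; exact hPsY
  have hswY : (Bivariate.swap Ps).natDegree = a := by rw [natDegree_swap, hdX, ha]
  obtain ⟨w, hw⟩ : ∃ w : K × K, w = U n₁ := ⟨_, rfl⟩
  have hw0 : w ≠ 0 := by
    rw [hw, hU]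
    exact vit_ne_zero hcop₁ hDK₁ _ (fun h => one_ne_zero (congrArg Prod.snd h))
  have hwv : ∀ m, vit D₁ (A₁'.map s) (B₁'.map s) m w = U (n₁ + m) := by
    intro m
    rw [hw, hU, hU, ← vit_add, add_comm]
  have hm : ∀ m, P.evalEval (x (n₁ + m)) (y (n₁ + m)) = 0 →
      hm (evalRingHom (Y m)) (Bivariate.swap Ps).natDegree (Bivariate.swap Ps)
        (vit D₁ (A₁'.map s) (B₁'.map s) m w).1 (vit D₁ (A₁'.map s) (B₁'.map s) m w).2 = 0 := by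
    intro m hm0
    have h3 := hbK (n₁ + m) hm0
    rw [bv_eq_hm (by rw [hdY, hb]) _ _ (hV2 m)] at h3
    have h4 := (mul_eq_zero.1 h3).resolve_left (pow_ne_zero _ (hV2 m))
    rw [hswY, hwv, hYdef]
    exact h4
  have hSm : {m | P.evalEval (x (n₁ + m)) (y (n₁ + m)) = 0}.Infinite := by
    intro hfin
    apply hS
    refine ((hfin.image fun m => n₁ + m).union (Set.finite_lt_nat n₁)).subset ?_
    intro n hn
    by_cases hlt' : n < n₁
    · exact Or.inr hlt'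
    · left
      obtain ⟨m, rfl⟩ : ∃ m, n = n₁ + m := ⟨n - n₁, by omega⟩
      exact ⟨m, hn, rfl⟩
  have hinfK : {m | PR.hm (evalRingHom (Y m)) (Bivariate.swap Ps).natDegree (Bivariate.swap Ps)
        (vit D₁ (A₁'.map s) (B₁'.map s) m w).1 (vit D₁ (A₁'.map s) (B₁'.map s) m w).2 = 0}.Infinite :=
    hSm.mono fun m hm0 => hm m hm0
  obtain ⟨n₂, hn₂⟩ := exists_shift (x := Y) hswirr hswX hYinj hcop₁ hDK₁ hw0 hinfK
  have hXorb := isOrb_quot (A := A₁'.map s) (B := B₁'.map s) (D := D₁) (v := w) hDK₁.le hn₂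
  obtain ⟨Z, hZdef⟩ : ∃ Z : ℕ → K, Z = fun m => (vit D₁ (A₁'.map s) (B₁'.map s) (n₂ + m) w).1 /
      (vit D₁ (A₁'.map s) (B₁'.map s) (n₂ + m) w).2 := ⟨_, rfl⟩
  rw [← hZdef] at hXorb
  have hfin := unequal_nf2 (A₁ := A₁'.map s) (B₁ := B₁'.map s) (A₂ := A₂'.map s) (B₂ := B₂'.map s) (x := Z)
    (y := fun m => Y (n₂ + m)) hcop₂ (by rw [hDK₁, hD₁]; exact hD) (by rw [hDK₁, hDK₂, hD₁, hD₂]; exact hlt) hXorb
    (fun m => hYorb (n₂ + m)) (fun m n h => by have := hYinj h; omega) hirrK hPsY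
  apply hSm
  refine ((hfin.image fun m => n₂ + m).union (Set.finite_lt_nat n₂)).subset ?_
  intro n hn
  by_cases hlt' : n < n₂
  · exact Or.inr hlt'
  · left
    obtain ⟨m, rfl⟩ : ∃ m, n = n₂ + m := ⟨n - n₂, by omega⟩
    refine ⟨m, ?_, rfl⟩
    have h3 := hm (n₂ + m) hn
    have h4 := hn₂ (n₂ + m) (by omega)
    rw [hm_eq _ le_rfl _ h4] at h3
    have h5 := (mul_eq_zero.1 h3).resolve_left (pow_ne_zero _ h4)
    rw [eval₂_evalRingHom, evalEval_swap] at h5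
    show Ps.evalEval (Z m) (Y (n₂ + m)) = 0
    rw [hZdef]
    exact h5

end Pool.Agent.Helper59.UQ
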